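import Mathlib

set_option autoImplicit false

/-! Explicit matrices in `SO₅(ℤ[1/5])` and their action on `ℚ₅⁵`. -/

namespace Pool.Agent.TH16.WC

open Matrix Polynomial

instance fact5 : Fact (Nat.Prime 5) := ⟨by norm_num⟩

/-- The vector space `ℚ₅⁵`. -/
abbrev V := Fin 5 → ℚ_[5]

theorem norm_five : ‖(5 : ℚ_[5])‖ = 1 / 5 := by
  have := Padic.norm_p (p := 5)
  simpa using this

theorem norm_int_unit (z : ℤ) (hz : ¬ (5 : ℤ) ∣ z) : ‖(z : ℚ_[5])‖ = 1 := by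
  have h1 := Padic.norm_int_le_one (p := 5) z
  have h2 : ¬ ‖(z : ℚ_[5])‖ < 1 := by
    rw [Padic.norm_intCast_lt_one_iff]; exact_mod_cast hz
  exact le_antisymm h1 (not_lt.1 h2)

theorem norm_two : ‖(2 : ℚ_[5])‖ = 1 := by
  have := norm_int_unit 2 (by norm_num)
  simpa using this

theorem exists_iota : ∃ ι : ℚ_[5], ι * ι = -1 ∧ ‖3 + 4 * ι‖ = 1 ∧ ‖ι‖ = 1 := by
  obtain ⟨z, hz, hz2, -, -⟩ := hensels_lemma (p := 5) (F := (X ^ 2 + 1 : ℤ_[5][X])) (a := 2) (by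
    simp only [map_add, map_pow, aeval_X, map_one, derivative_X_pow, derivative_one, add_zero,
      map_mul]
    have h1 : ((2 : ℤ_[5]) ^ 2 + 1) = ((5 : ℤ) : ℤ_[5]) := by norm_num
    have h2 : ((aeval (2 : ℤ_[5])) (C ((2 : ℕ) : ℤ_[5])) * 2 ^ (2 - 1)) = ((4 : ℤ) : ℤ_[5]) := by
      norm_num
    rw [h1, h2, PadicInt.norm_intCast_eq_padic_norm, PadicInt.norm_intCast_eq_padic_norm,
      norm_int_unit 4 (by norm_num)]
    have := norm_five
    norm_num at this ⊢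
    rw [this]; norm_num)
  have h4 : ‖(aeval (2 : ℤ_[5])) (derivative (X ^ 2 + 1 : ℤ_[5][X]))‖ = 1 := by
    simp only [map_add, map_pow, aeval_X, derivative_X_pow, derivative_one, add_zero, map_mul]
    have h2 : ((aeval (2 : ℤ_[5])) (C ((2 : ℕ) : ℤ_[5])) * 2 ^ (2 - 1)) = ((4 : ℤ) : ℤ_[5]) := by
      norm_num
    rw [h2, PadicInt.norm_intCast_eq_padic_norm, norm_int_unit 4 (by norm_num)]
  rw [h4] at hz2
  simp only [map_add, map_pow, aeval_X, map_one] at hz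
  have hzz : (z : ℚ_[5]) * z = -1 := by
    have : z * z = -1 := by linear_combination hz
    exact_mod_cast congrArg (fun x : ℤ_[5] => (x : ℚ_[5])) this
  have hz2' : ‖(z : ℚ_[5]) - 2‖ < 1 := by
    have : ‖((z - 2 : ℤ_[5]) : ℚ_[5])‖ < 1 := hz2
    exact_mod_cast this
  refine ⟨z, hzz, ?_, ?_⟩
  · have e : (3 + 4 * (z : ℚ_[5])) = ((11 : ℤ) : ℚ_[5]) + 4 * ((z : ℚ_[5]) - 2) := by
      push_cast; ring
    have h11 := norm_int_unit 11 (by norm_num)
    have h5 : ‖4 * ((z : ℚ_[5]) - 2)‖ < 1 := by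
      rw [norm_mul]
      have := norm_int_unit 4 (by norm_num)
      push_cast at this
      rw [this, one_mul]; exact hz2'
    rw [e, IsUltrametricDist.norm_add_eq_max_of_norm_ne_norm, h11]
    · exact max_eq_left h5.le
    · rw [h11]; exact h5.ne'
  · have : ‖(z : ℚ_[5])‖ * ‖(z : ℚ_[5])‖ = 1 := by rw [← norm_mul, hzz, norm_neg, norm_one]
    nlinarith [norm_nonneg (z : ℚ_[5])]

/-- A square root of `-1` in `ℚ₅`. -/
noncomputable def io : ℚ_[5] := exists_iota.choose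

theorem io_mul : io * io = -1 := exists_iota.choose_spec.1
theorem io_sq : io ^ 2 = -1 := by rw [sq, io_mul]
theorem norm_io' : ‖3 + 4 * io‖ = 1 := exists_iota.choose_spec.2.1
theorem norm_io : ‖io‖ = 1 := exists_iota.choose_spec.2.2

/-- `(3 + 4 i) / 5`, of norm `5`. -/
noncomputable def lam : ℚ_[5] := (3 + 4 * io) / 5

theorem norm_lam : ‖lam‖ = 5 := by
  rw [lam, norm_div, norm_io', norm_five]; norm_num

theorem lam_ne : lam ≠ 0 := by
  intro h; have := norm_lam; rw [h, norm_zero] at this; norm_num at this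

theorem lam_inv : lam⁻¹ = (3 - 4 * io) / 5 := by
  apply inv_eq_of_mul_eq_one_right
  rw [lam]; linear_combination (-16 / 25) * io_mul

theorem norm_dot_le (v w : V) : ‖v ⬝ᵥ w‖ ≤ ‖v‖ * ‖w‖ := by
  refine IsUltrametricDist.norm_sum_le_of_forall_le_of_nonneg (by positivity) ?_
  intro i _
  rw [norm_mul]
  exact mul_le_mul (norm_le_pi_norm v i) (norm_le_pi_norm w i) (norm_nonneg _) (norm_nonneg _)

theorem norm_mulVec_le (A : Matrix (Fin 5) (Fin 5) ℚ_[5]) (B : ℝ) (hB : ∀ a b, ‖A a b‖ ≤ B)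
    (v : V) : ‖A.mulVec v‖ ≤ B * ‖v‖ := by
  have hB0 : 0 ≤ B := (norm_nonneg _).trans (hB 0 0)
  rw [pi_norm_le_iff_of_nonneg (by positivity)]
  intro a
  change ‖∑ i, A a i * v i‖ ≤ _
  refine IsUltrametricDist.norm_sum_le_of_forall_le_of_nonneg (by positivity) ?_
  intro i _
  rw [norm_mul]
  exact mul_le_mul (hB a i) (norm_le_pi_norm v i) (norm_nonneg _) hB0

/-- The special orthogonal group `SO₅(R)` of the sum of five squares. -/
def SOG (R : Type*) [CommRing R] : Subgroup (GL (Fin 5) R) where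
  carrier := {g | (g : Matrix (Fin 5) (Fin 5) R) * (g : Matrix (Fin 5) (Fin 5) R)ᵀ = 1 ∧
    (g : Matrix (Fin 5) (Fin 5) R).det = 1}
  mul_mem' := by
    rintro a b ⟨ha, ha'⟩ ⟨hb, hb'⟩
    constructor
    · simp only [Units.val_mul, Matrix.transpose_mul]
      calc (a : Matrix (Fin 5) (Fin 5) R) * b * ((b : Matrix (Fin 5) (Fin 5) R)ᵀ
            * (a : Matrix (Fin 5) (Fin 5) R)ᵀ)
          = a * ((b : Matrix (Fin 5) (Fin 5) R) * (b : Matrix (Fin 5) (Fin 5) R)ᵀ)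
            * (a : Matrix (Fin 5) (Fin 5) R)ᵀ := by simp only [Matrix.mul_assoc]
        _ = 1 := by rw [hb, Matrix.mul_one, ha]
    · simp only [Units.val_mul, Matrix.det_mul, ha', hb', one_mul]
  one_mem' := by simp
  inv_mem' := by
    rintro a ⟨ha, ha'⟩
    have h1 : ((a⁻¹ : GL (Fin 5) R) : Matrix (Fin 5) (Fin 5) R)
        = (a : Matrix (Fin 5) (Fin 5) R)ᵀ := by
      have : ((a⁻¹ : GL (Fin 5) R) : Matrix (Fin 5) (Fin 5) R) *
        ((a : Matrix (Fin 5) (Fin 5) R) * (a : Matrix (Fin 5) (Fin 5) R)ᵀ)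
          = ((a⁻¹ : GL (Fin 5) R) : Matrix (Fin 5) (Fin 5) R) * 1 := by rw [ha]
      rw [← Matrix.mul_assoc, ← Units.val_mul, inv_mul_cancel, Units.val_one, Matrix.one_mul,
        Matrix.mul_one] at this
      exact this.symm
    constructor
    · rw [h1, Matrix.transpose_transpose]
      exact mul_eq_one_comm.1 ha
    · rw [h1, Matrix.det_transpose, ha']

theorem mem_SOG {R : Type*} [CommRing R] {g : GL (Fin 5) R} :
    g ∈ SOG R ↔ (g : Matrix (Fin 5) (Fin 5) R) * (g : Matrix (Fin 5) (Fin 5) R)ᵀ = 1 ∧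
    (g : Matrix (Fin 5) (Fin 5) R).det = 1 := Iff.rfl

theorem SOG_inv {R : Type*} [CommRing R] {g : GL (Fin 5) R} (hg : g ∈ SOG R) :
    ((g⁻¹ : GL (Fin 5) R) : Matrix (Fin 5) (Fin 5) R) = (g : Matrix (Fin 5) (Fin 5) R)ᵀ := by
  have : ((g⁻¹ : GL (Fin 5) R) : Matrix (Fin 5) (Fin 5) R) *
      ((g : Matrix (Fin 5) (Fin 5) R) * (g : Matrix (Fin 5) (Fin 5) R)ᵀ)
        = ((g⁻¹ : GL (Fin 5) R) : Matrix (Fin 5) (Fin 5) R) * 1 := by rw [hg.1]
  rw [← Matrix.mul_assoc, ← Units.val_mul, inv_mul_cancel, Units.val_one, Matrix.one_mul,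
    Matrix.mul_one] at this
  exact this.symm

/-- An orthogonal matrix of determinant one as an element of `GL₅`. -/
def mkG {R : Type*} [CommRing R] (M : Matrix (Fin 5) (Fin 5) R) (h : M * Mᵀ = 1) : GL (Fin 5) R :=
  ⟨M, Mᵀ, h, mul_eq_one_comm.1 h⟩

theorem mkG_mem {R : Type*} [CommRing R] (M : Matrix (Fin 5) (Fin 5) R) (h : M * Mᵀ = 1)
    (h' : M.det = 1) : mkG M h ∈ SOG R := ⟨h, h'⟩

/-- The action of `GL₅(ℚ)` on `ℚ₅⁵`. -/
noncomputable def act (g : GL (Fin 5) ℚ) (v : V) : V :=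
  ((g : Matrix (Fin 5) (Fin 5) ℚ).map (algebraMap ℚ ℚ_[5])).mulVec v

theorem act_mul (g h : GL (Fin 5) ℚ) (v : V) : act (g * h) v = act g (act h v) := by
  simp only [act, Units.val_mul, Matrix.map_mul, Matrix.mulVec_mulVec]

theorem act_one (v : V) : act 1 v = v := by
  simp [act]

theorem act_inv_act (g : GL (Fin 5) ℚ) (v : V) : act g⁻¹ (act g v) = v := by
  rw [← act_mul, inv_mul_cancel, act_one]

theorem act_act_inv (g : GL (Fin 5) ℚ) (v : V) : act g (act g⁻¹ v) = v := by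
  rw [← act_mul, mul_inv_cancel, act_one]

theorem act_add (g : GL (Fin 5) ℚ) (v w : V) : act g (v + w) = act g v + act g w := by
  simp only [act, Matrix.mulVec_add]

theorem act_smul (g : GL (Fin 5) ℚ) (c : ℚ_[5]) (v : V) : act g (c • v) = c • act g v := by
  simp only [act, Matrix.mulVec_smul]

theorem act_dot {g : GL (Fin 5) ℚ} (hg : g ∈ SOG ℚ) (v w : V) :
    act g v ⬝ᵥ act g w = v ⬝ᵥ w := by
  have h := mul_eq_one_comm.1 hg.1
  have h2 : ((g : Matrix (Fin 5) (Fin 5) ℚ).map (algebraMap ℚ ℚ_[5]))ᵀ *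
      ((g : Matrix (Fin 5) (Fin 5) ℚ).map (algebraMap ℚ ℚ_[5])) = 1 := by
    rw [← Matrix.transpose_map, ← Matrix.map_mul, h]; simp
  simp only [act]
  rw [Matrix.dotProduct_mulVec, ← Matrix.mulVec_transpose, Matrix.mulVec_mulVec, h2,
    Matrix.one_mulVec]

end Pool.Agent.TH16.WC
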