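import Mathlib
import Pool.Agent.TH16.WC.Mat

set_option autoImplicit false

/-! The explicit rotations `t`, `r`, `s` in `SO₅(ℤ[1/5])`. -/

namespace Pool.Agent.TH16.WC

open Matrix

/-- The rational matrix with entries `Z a b / 5 ^ d`. -/
def ofInt (Z : Matrix (Fin 5) (Fin 5) ℤ) (d : ℕ) : Matrix (Fin 5) (Fin 5) ℚ :=
  fun a b => (Z a b : ℚ) / 5 ^ d

theorem ofInt_eq (Z : Matrix (Fin 5) (Fin 5) ℤ) (d : ℕ) :
    ofInt Z d = ((5 : ℚ) ^ d)⁻¹ • Z.map (Int.castRingHom ℚ) := by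
  ext a b; simp [ofInt, div_eq_inv_mul]

theorem ofInt_mul_transpose (Z : Matrix (Fin 5) (Fin 5) ℤ) (d : ℕ)
    (h : Z * Zᵀ = (25 : ℤ) ^ d • (1 : Matrix (Fin 5) (Fin 5) ℤ)) :
    ofInt Z d * (ofInt Z d)ᵀ = 1 := by
  rw [ofInt_eq, Matrix.transpose_smul, Matrix.smul_mul, Matrix.mul_smul, ← Matrix.transpose_map,
    ← Matrix.map_mul, h]
  ext a b
  simp only [Matrix.smul_apply, Matrix.map_apply, smul_eq_mul]
  by_cases hab : a = b
  · subst hab
    simp only [Matrix.one_apply_eq]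
    simp only [mul_one, map_pow, eq_intCast, Int.cast_ofNat]
    have : (25 : ℚ) = 5 ^ 2 := by norm_num
    rw [this, ← pow_mul, mul_comm 2 d, pow_mul]
    field_simp
  · simp [Matrix.one_apply_ne hab]

theorem ofInt_det (Z : Matrix (Fin 5) (Fin 5) ℤ) (d : ℕ) (h : Z.det = 5 ^ (5 * d)) :
    (ofInt Z d).det = 1 := by
  rw [ofInt_eq, Matrix.det_smul, Fintype.card_fin, ← RingHom.mapMatrix_apply, ← RingHom.map_det, h]
  simp only [map_pow, eq_intCast, Int.cast_ofNat]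
  rw [← inv_pow, ← pow_mul, mul_comm d 5, inv_pow]
  exact inv_mul_cancel₀ (by positivity)

theorem norm_ofInt (Z : Matrix (Fin 5) (Fin 5) ℤ) (d : ℕ) (a b : Fin 5) :
    ‖((ofInt Z d).map (algebraMap ℚ ℚ_[5])) a b‖ ≤ 5 ^ d := by
  simp only [Matrix.map_apply, ofInt, eq_ratCast, Rat.cast_div, Rat.cast_intCast, Rat.cast_pow,
    Rat.cast_ofNat]
  rw [norm_div, norm_pow, norm_five]
  have h1 := Padic.norm_int_le_one (p := 5) (Z a b)
  rw [one_div, inv_pow, div_inv_eq_mul]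
  have : (0 : ℝ) < 5 ^ d := by positivity
  nlinarith

/-- numerators of the rotation `t` -/
def tZ : Matrix (Fin 5) (Fin 5) ℤ :=
  !![3, -4, 0, 0, 0; 4, 3, 0, 0, 0; 0, 0, 5, 0, 0; 0, 0, 0, 5, 0; 0, 0, 0, 0, 5]

/-- numerators of the rotation `r` -/
def rZ : Matrix (Fin 5) (Fin 5) ℤ :=
  !![15, 0, 0, -20, 0; 0, -7, 0, 0, -24; 0, 0, 25, 0, 0; 20, 0, 0, 15, 0; 0, 24, 0, 0, -7]

/-- numerators of the rotation `s` -/
def sZ : Matrix (Fin 5) (Fin 5) ℤ :=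
  !![3, 0, -4, 0, 0; 0, 5, 0, 0, 0; 4, 0, 3, 0, 0; 0, 0, 0, 5, 0; 0, 0, 0, 0, 5]

theorem tZ_mul : tZ * tZᵀ = (25 : ℤ) ^ 1 • (1 : Matrix (Fin 5) (Fin 5) ℤ) := by
  decide

theorem rZ_mul : rZ * rZᵀ = (25 : ℤ) ^ 2 • (1 : Matrix (Fin 5) (Fin 5) ℤ) := by
  decide

theorem sZ_mul : sZ * sZᵀ = (25 : ℤ) ^ 1 • (1 : Matrix (Fin 5) (Fin 5) ℤ) := by
  decide

theorem tZ_det : tZ.det = 5 ^ (5 * 1) := by
  simp [tZ, Matrix.det_succ_row_zero, Fin.sum_univ_succ, Fin.succAbove]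

theorem rZ_det : rZ.det = 5 ^ (5 * 2) := by
  simp [rZ, Matrix.det_succ_row_zero, Fin.sum_univ_succ, Fin.succAbove]

theorem sZ_det : sZ.det = 5 ^ (5 * 1) := by
  simp [sZ, Matrix.det_succ_row_zero, Fin.sum_univ_succ, Fin.succAbove]

/-- rotation by `arccos (3/5)` in the plane of the coordinates `0, 1` -/
def t : GL (Fin 5) ℚ := mkG (ofInt tZ 1) (ofInt_mul_transpose _ _ tZ_mul)

/-- rotation by `arccos (3/5)` in the plane of the coordinates `0, 3` and by twice this angle in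
the plane of the coordinates `1, 4` -/
def r : GL (Fin 5) ℚ := mkG (ofInt rZ 2) (ofInt_mul_transpose _ _ rZ_mul)

/-- rotation by `arccos (3/5)` in the plane of the coordinates `0, 2` -/
def s : GL (Fin 5) ℚ := mkG (ofInt sZ 1) (ofInt_mul_transpose _ _ sZ_mul)

theorem t_mem : t ∈ SOG ℚ := mkG_mem _ _ (ofInt_det _ _ tZ_det)
theorem r_mem : r ∈ SOG ℚ := mkG_mem _ _ (ofInt_det _ _ rZ_det)
theorem s_mem : s ∈ SOG ℚ := mkG_mem _ _ (ofInt_det _ _ sZ_det)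

theorem act_ofInt (Z : Matrix (Fin 5) (Fin 5) ℤ) (d : ℕ) (h : ofInt Z d * (ofInt Z d)ᵀ = 1)
    (v : V) (a : Fin 5) : act (mkG (ofInt Z d) h) v a = ∑ b, (Z a b : ℚ_[5]) / 5 ^ d * v b := by
  simp only [act, mkG, Matrix.mulVec, dotProduct, Matrix.map_apply, ofInt, eq_ratCast,
    Rat.cast_div, Rat.cast_intCast, Rat.cast_pow, Rat.cast_ofNat]

theorem act_t (v : V) (a : Fin 5) : act t v a = ∑ b, (tZ a b : ℚ_[5]) / 5 ^ 1 * v b :=
  act_ofInt _ _ _ _ _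
theorem act_r (v : V) (a : Fin 5) : act r v a = ∑ b, (rZ a b : ℚ_[5]) / 5 ^ 2 * v b :=
  act_ofInt _ _ _ _ _
theorem act_s (v : V) (a : Fin 5) : act s v a = ∑ b, (sZ a b : ℚ_[5]) / 5 ^ 1 * v b :=
  act_ofInt _ _ _ _ _

/-- the eigenvectors of `t` -/
noncomputable def xp : V := ![1, -io, 0, 0, 0]
noncomputable def xm : V := ![1, io, 0, 0, 0]

theorem act_t_xp : act t xp = lam • xp := by
  ext a
  rw [act_t]
  simp only [tZ, Fin.sum_univ_five, xp, lam]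
  fin_cases a <;> simp <;> first | ring1 | linear_combination (4 / 5) * io_mul

theorem act_t_xm : act t xm = lam⁻¹ • xm := by
  rw [lam_inv]
  ext a
  rw [act_t]
  simp only [tZ, Fin.sum_univ_five, xm]
  fin_cases a <;> simp <;> first | ring1 | linear_combination (4 / 5) * io_mul

theorem act_t_fix (y : V) (h0 : y 0 = 0) (h1 : y 1 = 0) : act t y = y := by
  ext a
  rw [act_t]
  simp only [tZ, Fin.sum_univ_five, h0, h1]
  fin_cases a <;> simp [h0, h1]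

/-- the eigenvectors of `r` -/
noncomputable def pp : V := ![1, 0, 0, -io, 0]
noncomputable def pm : V := ![1, 0, 0, io, 0]
noncomputable def qp : V := ![0, 1, 0, 0, -io]
noncomputable def qm : V := ![0, 1, 0, 0, io]

theorem act_r_pp : act r pp = lam • pp := by
  ext a
  rw [act_r]
  simp only [rZ, Fin.sum_univ_five, pp, lam]
  fin_cases a <;> simp <;> first | ring1 | linear_combination (4 / 5) * io_mul

theorem act_r_pm : act r pm = lam⁻¹ • pm := by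
  rw [lam_inv]
  ext a
  rw [act_r]
  simp only [rZ, Fin.sum_univ_five, pm]
  fin_cases a <;> simp <;> first | ring1 | linear_combination (4 / 5) * io_mul

theorem act_r_qp : act r qp = (lam ^ 2) • qp := by
  ext a
  rw [act_r]
  simp only [rZ, Fin.sum_univ_five, qp, lam]
  fin_cases a <;> simp
  · linear_combination (-16 / 25) * io_mul
  · linear_combination ((16 / 25) * io + (24 / 25)) * io_mul

theorem act_r_qm : act r qm = (lam⁻¹ ^ 2) • qm := by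
  rw [lam_inv]
  ext a
  rw [act_r]
  simp only [rZ, Fin.sum_univ_five, qm]
  fin_cases a <;> simp
  · linear_combination (-16 / 25) * io_mul
  · linear_combination (-(16 / 25) * io + (24 / 25)) * io_mul

theorem act_pow_eigen (g : GL (Fin 5) ℚ) (v : V) (c : ℚ_[5]) (h : act g v = c • v) (k : ℕ) :
    act (g ^ k) v = c ^ k • v := by
  induction k with
  | zero => simp [act_one]
  | succ k ih => rw [pow_succ, act_mul, h, act_smul, ih, smul_smul, pow_succ, mul_comm]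

theorem act_inv_eigen (g : GL (Fin 5) ℚ) (v : V) (c : ℚ_[5]) (hc : c ≠ 0) (h : act g v = c • v) :
    act g⁻¹ v = c⁻¹ • v := by
  have : act g⁻¹ (c • v) = v := by rw [← h, act_inv_act]
  rw [act_smul] at this
  rw [← this, smul_smul, inv_mul_cancel₀ hc, one_smul, this]

theorem norm_act_t (v : V) : ‖act t v‖ ≤ 5 * ‖v‖ := by
  refine norm_mulVec_le _ 5 (fun a b => ?_) v
  have := norm_ofInt tZ 1 a b
  rw [pow_one] at this
  exact this

theorem norm_act_r (v : V) : ‖act r v‖ ≤ 25 * ‖v‖ := by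
  refine norm_mulVec_le _ 25 (fun a b => ?_) v
  have := norm_ofInt rZ 2 a b
  rw [show (5 : ℝ) ^ 2 = 25 by norm_num] at this
  exact this

theorem norm_act_r_inv (v : V) : ‖act r⁻¹ v‖ ≤ 25 * ‖v‖ := by
  refine norm_mulVec_le _ 25 (fun a b => ?_) v
  have := norm_ofInt rZ 2 b a
  rw [show (5 : ℝ) ^ 2 = 25 by norm_num] at this
  exact this

theorem norm_act_r_pow (i : ℕ) (v : V) : ‖act (r ^ i) v‖ ≤ 25 ^ i * ‖v‖ := by
  induction i with
  | zero => simp [act_one]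
  | succ i ih =>
    rw [pow_succ', act_mul]
    refine (norm_act_r _).trans ?_
    rw [pow_succ', mul_assoc]
    exact mul_le_mul_of_nonneg_left ih (by norm_num)

theorem norm_act_r_inv_pow (i : ℕ) (v : V) : ‖act (r ^ i)⁻¹ v‖ ≤ 25 ^ i * ‖v‖ := by
  induction i with
  | zero => simp [act_one]
  | succ i ih =>
    rw [pow_succ, _root_.mul_inv_rev, act_mul]
    refine (norm_act_r_inv _).trans ?_
    rw [pow_succ', mul_assoc]
    exact mul_le_mul_of_nonneg_left ih (by norm_num)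

/-- the orbit of `xp` under `r` -/
noncomputable def Xv (i : ℕ) : V := act (r ^ i) xp

theorem Xv_zero : Xv 0 = xp := by simp [Xv, act_one]

theorem norm_xp : ‖xp‖ = 1 := by
  apply le_antisymm
  · rw [pi_norm_le_iff_of_nonneg (by norm_num)]
    intro a; fin_cases a <;> simp [xp, norm_io]
  · have := norm_le_pi_norm xp 0
    simpa [xp] using this

theorem norm_xm : ‖xm‖ = 1 := by
  apply le_antisymm
  · rw [pi_norm_le_iff_of_nonneg (by norm_num)]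
    intro a; fin_cases a <;> simp [xm, norm_io]
  · have := norm_le_pi_norm xm 0
    simpa [xm] using this

theorem xp_dot_xp : xp ⬝ᵥ xp = 0 := by
  simp only [dotProduct, Fin.sum_univ_five, xp]
  simp; linear_combination io_mul

theorem norm_Xv (i : ℕ) : ‖Xv i‖ ≤ 25 ^ i := by
  have := norm_act_r_pow i xp
  rw [norm_xp, mul_one] at this
  exact this

theorem xp_decomp : xp = (2⁻¹ : ℚ_[5]) • (pp + pm) + (-io * 2⁻¹) • (qp + qm) := by
  ext a
  fin_cases a <;> simp [xp, pp, pm, qp, qm]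
  · norm_num
  · ring

theorem xp_pp : xp ⬝ᵥ pp = 1 := by
  simp [dotProduct, Fin.sum_univ_five, xp, pp]
theorem xp_pm : xp ⬝ᵥ pm = 1 := by
  simp [dotProduct, Fin.sum_univ_five, xp, pm]
theorem xp_qp : xp ⬝ᵥ qp = -io := by
  simp [dotProduct, Fin.sum_univ_five, xp, qp]
theorem xp_qm : xp ⬝ᵥ qm = -io := by
  simp [dotProduct, Fin.sum_univ_five, xp, qm]

theorem xp_dot_r (k : ℕ) : xp ⬝ᵥ act (r ^ k) xp =
    2⁻¹ * (lam ^ k + lam⁻¹ ^ k) - 2⁻¹ * ((lam ^ 2) ^ k + (lam⁻¹ ^ 2) ^ k) := by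
  have h1 := act_pow_eigen r pp _ act_r_pp k
  have h2 := act_pow_eigen r pm _ act_r_pm k
  have h3 := act_pow_eigen r qp _ act_r_qp k
  have h4 := act_pow_eigen r qm _ act_r_qm k
  conv_lhs => rw [xp_decomp]
  rw [← xp_decomp]
  conv_lhs => rw [show act (r ^ k) xp = act (r ^ k) ((2⁻¹ : ℚ_[5]) • (pp + pm)
    + (-io * 2⁻¹) • (qp + qm)) from congrArg _ xp_decomp]
  simp only [act_add, act_smul, h1, h2, h3, h4, dotProduct_add, dotProduct_smul, smul_eq_mul,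
    xp_pp, xp_pm, xp_qp, xp_qm]
  linear_combination (2⁻¹ * ((lam ^ 2) ^ k + (lam⁻¹ ^ 2) ^ k)) * io_mul

theorem norm_xp_dot_r (k : ℕ) (hk : k ≠ 0) : ‖xp ⬝ᵥ act (r ^ k) xp‖ = 25 ^ k := by
  have hl := lam_ne
  have hlk : lam ^ k ≠ 0 := pow_ne_zero _ hl
  have e : xp ⬝ᵥ act (r ^ k) xp = -(2⁻¹ * (lam ^ k) ^ 2) * (1 + (-(lam ^ k)⁻¹ +
      (-((lam ^ k)⁻¹) ^ 3 + ((lam ^ k)⁻¹) ^ 4))) := by
    rw [xp_dot_r]
    have e1 : (lam ^ 2) ^ k = (lam ^ k) ^ 2 := by rw [← pow_mul, ← pow_mul, mul_comm]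
    have e2 : (lam⁻¹ ^ 2) ^ k = ((lam ^ k)⁻¹) ^ 2 := by
      rw [← inv_pow, ← pow_mul, ← pow_mul, mul_comm]
    rw [e1, e2, inv_pow]
    field_simp
    ring
  have hn : ‖lam ^ k‖ = 5 ^ k := by rw [norm_pow, norm_lam]
  have hk5 : (5 : ℝ) ≤ 5 ^ k := by
    calc (5 : ℝ) = 5 ^ 1 := by norm_num
      _ ≤ 5 ^ k := pow_le_pow_right₀ (by norm_num) (Nat.one_le_iff_ne_zero.2 hk)
  have hi : ‖(lam ^ k)⁻¹‖ < 1 := by
    rw [norm_inv, hn]; exact inv_lt_one_of_one_lt₀ (by linarith)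
  have h3 : ‖((lam ^ k)⁻¹) ^ 3‖ < 1 := by
    rw [norm_pow]; exact pow_lt_one₀ (norm_nonneg _) hi (by norm_num)
  have h4 : ‖((lam ^ k)⁻¹) ^ 4‖ < 1 := by
    rw [norm_pow]; exact pow_lt_one₀ (norm_nonneg _) hi (by norm_num)
  have hs : ‖(-(lam ^ k)⁻¹ + (-((lam ^ k)⁻¹) ^ 3 + ((lam ^ k)⁻¹) ^ 4))‖ < 1 := by
    refine (IsUltrametricDist.norm_add_le_max _ _).trans_lt (max_lt ?_ ?_)
    · rwa [norm_neg]
    · refine (IsUltrametricDist.norm_add_le_max _ _).trans_lt (max_lt ?_ h4)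
      rwa [norm_neg]
  rw [e, norm_mul, IsUltrametricDist.norm_add_eq_max_of_norm_ne_norm, norm_one,
    max_eq_left hs.le, mul_one, norm_neg, norm_mul, norm_inv, norm_two, norm_pow, hn]
  · rw [inv_one, one_mul, ← pow_mul, mul_comm, pow_mul]; norm_num
  · rw [norm_one]; exact hs.ne'

theorem norm_Xv_dot {i j : ℕ} (hij : i < j) : ‖Xv i ⬝ᵥ Xv j‖ = 25 ^ (j - i) := by
  obtain ⟨k, rfl⟩ := Nat.exists_eq_add_of_lt hij
  have hk : i + k + 1 - i = k + 1 := by omega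
  have e : Xv (i + k + 1) = act (r ^ i) (act (r ^ (k + 1)) xp) := by
    rw [Xv, ← act_mul, ← pow_add, ← add_assoc]
  rw [hk, e, Xv, act_dot (pow_mem r_mem i), norm_xp_dot_r _ (Nat.succ_ne_zero k)]

/-- for `i ≠ j`, `25 ^ i ≤ 25 ^ j * ‖⟨X i, X j⟩‖` -/
theorem le_norm_Xv_dot {i j : ℕ} (hij : i ≠ j) :
    (25 : ℝ) ^ i ≤ 25 ^ j * ‖Xv j ⬝ᵥ Xv i‖ := by
  rcases lt_or_gt_of_ne hij with h | h
  · rw [dotProduct_comm, norm_Xv_dot h, ← pow_add]
    exact pow_le_pow_right₀ (by norm_num) (by omega)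
  · rw [norm_Xv_dot h, ← pow_add]
    exact pow_le_pow_right₀ (by norm_num) (by omega)

end Pool.Agent.TH16.WC
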