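import Mathlib

set_option autoImplicit false

/-! An abstract table-tennis lemma for a group generated by a family of elements. -/

namespace Pool.Agent.TH16.WC

variable {G : Type*} [Group G] {I : Type*}

/-- `Red g h i`: `h` is the value of a nonempty reduced word in the family `g` starting with a
nonzero power of `g i`. -/
inductive Red (g : I → G) : G → I → Prop
  | single (i : I) (k : ℤ) (hk : k ≠ 0) : Red g (g i ^ k) i
  | cons (i : I) (k : ℤ) (hk : k ≠ 0) (j : I) (h : G) (hij : j ≠ i) (hr : Red g h j) :
      Red g (g i ^ k * h) i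

theorem Red.mul_zpow (g : I → G) (i : I) (e : ℤ) (h : G) (hh : h = 1 ∨ ∃ j, Red g h j) :
    g i ^ e * h = 1 ∨ ∃ j, Red g (g i ^ e * h) j := by
  classical
  by_cases he : e = 0
  · subst he; simpa using hh
  rcases hh with rfl | ⟨j, hj⟩
  · right; exact ⟨i, by simpa using Red.single (g := g) i e he⟩
  · by_cases hij : j = i
    · subst hij
      cases hj with
      | single _ k hk =>
        rw [← zpow_add]
        by_cases h0 : e + k = 0
        · left; rw [h0]; simp
        · right; exact ⟨j, Red.single _ _ h0⟩
      | cons _ k hk j' h' hj' hr =>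
        rw [← mul_assoc, ← zpow_add]
        by_cases h0 : e + k = 0
        · right; rw [h0]; simpa using ⟨j', hr⟩
        · right; exact ⟨j, Red.cons _ _ h0 _ _ hj' hr⟩
    · right; exact ⟨i, Red.cons _ _ he _ _ hij hj⟩

theorem exists_red_of_mem_closure (g : I → G) (h : G) (hh : h ∈ Subgroup.closure (Set.range g)) :
    h = 1 ∨ ∃ j, Red g h j := by
  induction hh using Subgroup.closure_induction_left with
  | one => left; rfl
  | mul_left x hx y hy ih =>
    obtain ⟨i, rfl⟩ := hx
    simpa using Red.mul_zpow g i 1 y ih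
  | inv_mul_cancel x hx y hy ih =>
    obtain ⟨i, rfl⟩ := hx
    simpa using Red.mul_zpow g i (-1) y ih

/-- Table tennis: if every nonzero power of `g i` maps the base point and each `U j`, `j ≠ i`,
into `U i`, then every nontrivial element of the group generated by the `g i` maps the base point
into some `U i`. -/
theorem pingpong {X : Type*} (a : G → X → X) (ha : ∀ g h x, a (g * h) x = a g (a h x))
    (g : I → G) (U : I → Set X) (x₀ : X)
    (h0 : ∀ i (k : ℤ), k ≠ 0 → a (g i ^ k) x₀ ∈ U i)
    (hU : ∀ i (k : ℤ), k ≠ 0 → ∀ j, j ≠ i → ∀ x ∈ U j, a (g i ^ k) x ∈ U i)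
    (h : G) (hh : h ∈ Subgroup.closure (Set.range g)) : h = 1 ∨ ∃ i, a h x₀ ∈ U i := by
  rcases exists_red_of_mem_closure g h hh with h1 | ⟨j, hj⟩
  · exact Or.inl h1
  · right
    refine ⟨j, ?_⟩
    clear hh
    induction hj with
    | single i k hk => exact h0 i k hk
    | cons i k hk j h hij hr ih =>
      rw [ha]
      exact hU i k hk j hij _ ih

end Pool.Agent.TH16.WC
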