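import Mathlib
import Pool.Agent.TH16.WC.Gens
import Pool.Agent.TH16.WC.Red

set_option autoImplicit false

/-! The `5`-adic table-tennis estimates. -/

namespace Pool.Agent.TH16.WC

open Matrix

/-- `C`-good isometries. -/
def Good (η : GL (Fin 5) ℚ) (C : ℝ) : Prop :=
  1 ≤ C ∧ ∀ k : ℤ, k ≠ 0 → ∀ v : V, ‖act (η ^ k) v‖ ≤ C * ‖xm ⬝ᵥ act (η ^ k) xm‖ * ‖v‖

/-- The table-tennis sets. -/
def U (i : ℕ) : Set V :=
  {w | ∃ c : ℚ_[5], c ≠ 0 ∧ ∃ e : V, w = c • (Xv i + e) ∧ ‖e‖ * 25 ^ i < 1}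

theorem sep {i j : ℕ} (hij : i ≠ j) {w : V} (hw : w ∈ U i) :
    w ≠ 0 ∧ ‖w‖ ≤ 25 ^ j * ‖Xv j ⬝ᵥ w‖ := by
  obtain ⟨c, hc, e, rfl, he⟩ := hw
  have h1 := le_norm_Xv_dot (i := j) (j := i) (Ne.symm hij)
  have h2 := le_norm_Xv_dot (i := i) (j := j) hij
  rw [dotProduct_comm] at h1
  have hpi : (0 : ℝ) < 25 ^ i := by positivity
  have hpj : (0 : ℝ) < 25 ^ j := by positivity
  have h3 : ‖Xv j ⬝ᵥ e‖ < ‖Xv j ⬝ᵥ Xv i‖ := by
    have h4 : ‖Xv j ⬝ᵥ e‖ ≤ 25 ^ j * ‖e‖ :=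
      (norm_dot_le _ _).trans (mul_le_mul_of_nonneg_right (norm_Xv j) (norm_nonneg _))
    have h5 : (25 : ℝ) ^ i * ‖Xv j ⬝ᵥ e‖ < 25 ^ i * ‖Xv j ⬝ᵥ Xv i‖ := by
      calc (25 : ℝ) ^ i * ‖Xv j ⬝ᵥ e‖ ≤ 25 ^ i * (25 ^ j * ‖e‖) :=
            mul_le_mul_of_nonneg_left h4 hpi.le
        _ = 25 ^ j * (‖e‖ * 25 ^ i) := by ring
        _ < 25 ^ j * 1 := mul_lt_mul_of_pos_left he hpj
        _ = 25 ^ j := mul_one _
        _ ≤ _ := h1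
    exact lt_of_mul_lt_mul_left h5 hpi.le
  have h6 : ‖Xv j ⬝ᵥ (c • (Xv i + e))‖ = ‖c‖ * ‖Xv j ⬝ᵥ Xv i‖ := by
    rw [dotProduct_smul, smul_eq_mul, norm_mul, dotProduct_add,
      IsUltrametricDist.norm_add_eq_max_of_norm_ne_norm h3.ne', max_eq_left h3.le]
  have hcn : 0 < ‖c‖ := norm_pos_iff.2 hc
  have h7 : ‖c • (Xv i + e)‖ ≤ ‖c‖ * 25 ^ i := by
    rw [norm_smul]
    refine mul_le_mul_of_nonneg_left ?_ hcn.le
    refine (IsUltrametricDist.norm_add_le_max _ _).trans (max_le (norm_Xv i) ?_)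
    have h8 : (1 : ℝ) ≤ 25 ^ i := one_le_pow₀ (by norm_num)
    have h9 := norm_nonneg e
    nlinarith
  constructor
  · intro h0
    rw [h0, dotProduct_zero, norm_zero] at h6
    have h10 : 0 < ‖Xv j ⬝ᵥ Xv i‖ := (norm_nonneg _).trans_lt h3
    have := mul_pos hcn h10
    linarith
  · rw [h6]
    calc ‖c • (Xv i + e)‖ ≤ ‖c‖ * 25 ^ i := h7
      _ ≤ ‖c‖ * (25 ^ j * ‖Xv j ⬝ᵥ Xv i‖) := mul_le_mul_of_nonneg_left h2 hcn.le
      _ = 25 ^ j * (‖c‖ * ‖Xv j ⬝ᵥ Xv i‖) := by ring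

/-- the component of a vector fixed by `t` -/
noncomputable def fixPart (y : V) : V := ![0, 0, y 2, y 3, y 4]

theorem decomp (y : V) : y = ((xm ⬝ᵥ y) * 2⁻¹) • xp + ((xp ⬝ᵥ y) * 2⁻¹) • xm + fixPart y := by
  ext a
  simp only [dotProduct, Fin.sum_univ_five, xp, xm, fixPart]
  fin_cases a <;> simp
  · ring
  · linear_combination (y 1) * io_mul

theorem norm_fixPart (y : V) : ‖fixPart y‖ ≤ ‖y‖ := by
  rw [pi_norm_le_iff_of_nonneg (norm_nonneg _)]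
  intro a
  fin_cases a <;> simp [fixPart] <;> exact norm_le_pi_norm y _

theorem act_t_pow_fix (m : ℕ) (y : V) : act (t ^ m) (fixPart y) = fixPart y := by
  induction m with
  | zero => simp [act_one]
  | succ m ih => rw [pow_succ, act_mul, act_t_fix _ (by simp [fixPart]) (by simp [fixPart]), ih]

theorem act_t_inv_fix (m : ℕ) (y : V) : act (t ^ m)⁻¹ (fixPart y) = fixPart y := by
  conv_lhs => rw [← act_t_pow_fix m y]
  rw [act_inv_act]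

theorem norm_lam_pow (m : ℕ) : ‖lam ^ m‖ = 5 ^ m := by rw [norm_pow, norm_lam]

/-- abstract contraction step -/
theorem contract (a b : V) (ha : ‖a‖ = 1) (y f : V) (α β μ : ℚ_[5]) (D : ℝ) (m : ℕ)
    (hμ : ‖μ‖ = 5 ^ m) (hβ : β ≠ 0) (hD : 1 ≤ D) (hα : ‖α‖ ≤ D * ‖β‖) (hf : ‖f‖ ≤ D * ‖β‖)
    (hy : y = (α * μ⁻¹) • a + (β * μ) • b + f) :
    ∃ c : ℚ_[5], c ≠ 0 ∧ ∃ e : V, y = c • (b + e) ∧ ‖e‖ ≤ D * (5 ^ m)⁻¹ := by
  have h5 : (0 : ℝ) < 5 ^ m := by positivity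
  have h51 : (1 : ℝ) ≤ 5 ^ m := one_le_pow₀ (by norm_num)
  have hμ0 : μ ≠ 0 := by
    intro h; rw [h, norm_zero] at hμ; linarith
  have hβn : 0 < ‖β‖ := norm_pos_iff.2 hβ
  refine ⟨β * μ, mul_ne_zero hβ hμ0, (α * μ⁻¹ * (β * μ)⁻¹) • a + (β * μ)⁻¹ • f, ?_, ?_⟩
  · rw [hy, smul_add, smul_add, smul_smul, smul_smul, mul_inv_cancel₀ (mul_ne_zero hβ hμ0),
      one_smul, mul_comm (β * μ) (α * μ⁻¹ * (β * μ)⁻¹), mul_assoc, inv_mul_cancel₀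
      (mul_ne_zero hβ hμ0), mul_one]
    abel
  · refine (IsUltrametricDist.norm_add_le_max _ _).trans (max_le ?_ ?_)
    · rw [norm_smul, ha, mul_one, norm_mul, norm_mul, norm_inv, norm_inv, norm_mul, hμ, mul_inv]
      have : ‖α‖ * (5 ^ m)⁻¹ * (‖β‖⁻¹ * (5 ^ m)⁻¹) = (‖α‖ * ‖β‖⁻¹) * ((5 ^ m)⁻¹ * (5 ^ m)⁻¹) := by
        ring
      rw [this]
      have h1 : ‖α‖ * ‖β‖⁻¹ ≤ D := by
        rw [← div_eq_mul_inv, div_le_iff₀ hβn]; exact hα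
      have h2 : ((5 : ℝ) ^ m)⁻¹ * (5 ^ m)⁻¹ ≤ (5 ^ m)⁻¹ := by
        have : ((5 : ℝ) ^ m)⁻¹ ≤ 1 := inv_le_one_of_one_le₀ h51
        have h3 : (0 : ℝ) < (5 ^ m)⁻¹ := by positivity
        nlinarith
      exact mul_le_mul h1 h2 (by positivity) (by linarith)
    · rw [norm_smul, norm_inv, norm_mul, hμ, mul_inv]
      have h1 : ‖β‖⁻¹ * ‖f‖ ≤ D := by
        rw [mul_comm, ← div_eq_mul_inv, div_le_iff₀ hβn]; exact hf
      calc ‖β‖⁻¹ * (5 ^ m)⁻¹ * ‖f‖ = (‖β‖⁻¹ * ‖f‖) * (5 ^ m)⁻¹ := by ring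
        _ ≤ D * (5 ^ m)⁻¹ := mul_le_mul_of_nonneg_right h1 (by positivity)

theorem step_inv (y : V) (hy : y ≠ 0) (D : ℝ) (hD : 1 ≤ D) (m : ℕ)
    (h : ‖y‖ ≤ D * ‖xp ⬝ᵥ y‖) :
    ∃ c : ℚ_[5], c ≠ 0 ∧ ∃ e : V, act (t ^ m)⁻¹ y = c • (xm + e) ∧ ‖e‖ ≤ D * (5 ^ m)⁻¹ := by
  have hyn : 0 < ‖y‖ := norm_pos_iff.2 hy
  have hb : xp ⬝ᵥ y ≠ 0 := by
    intro h0; rw [h0, norm_zero, mul_zero] at h; linarith
  have h2 : ‖(2⁻¹ : ℚ_[5])‖ = 1 := by rw [norm_inv, norm_two, inv_one]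
  have e1 := act_inv_eigen (t ^ m) xp _ (pow_ne_zero m lam_ne) (act_pow_eigen t xp _ act_t_xp m)
  have e2 := act_inv_eigen (t ^ m) xm _ (pow_ne_zero m (inv_ne_zero lam_ne))
    (act_pow_eigen t xm _ act_t_xm m)
  refine contract xp xm norm_xp _ (fixPart y) ((xm ⬝ᵥ y) * 2⁻¹) ((xp ⬝ᵥ y) * 2⁻¹) (lam ^ m) D m
    (norm_lam_pow m) (mul_ne_zero hb (by norm_num)) hD ?_ ?_ ?_
  · rw [norm_mul, norm_mul, h2, mul_one, mul_one]
    refine (norm_dot_le _ _).trans ?_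
    rw [norm_xm, one_mul]; exact h
  · rw [norm_mul, h2, mul_one]
    exact (norm_fixPart y).trans h
  · conv_lhs => rw [decomp y]
    rw [act_add, act_add, act_smul, act_smul, e1, e2, act_t_inv_fix, smul_smul, smul_smul,
      inv_pow, inv_inv]

theorem step_pow (y : V) (hy : y ≠ 0) (D : ℝ) (hD : 1 ≤ D) (m : ℕ)
    (h : ‖y‖ ≤ D * ‖xm ⬝ᵥ y‖) :
    ∃ c : ℚ_[5], c ≠ 0 ∧ ∃ e : V, act (t ^ m) y = c • (xp + e) ∧ ‖e‖ ≤ D * (5 ^ m)⁻¹ := by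
  have hyn : 0 < ‖y‖ := norm_pos_iff.2 hy
  have hb : xm ⬝ᵥ y ≠ 0 := by
    intro h0; rw [h0, norm_zero, mul_zero] at h; linarith
  have h2 : ‖(2⁻¹ : ℚ_[5])‖ = 1 := by rw [norm_inv, norm_two, inv_one]
  have e1 := act_pow_eigen t xp _ act_t_xp m
  have e2 := act_pow_eigen t xm _ act_t_xm m
  refine contract xm xp norm_xm _ (fixPart y) ((xp ⬝ᵥ y) * 2⁻¹) ((xm ⬝ᵥ y) * 2⁻¹) (lam ^ m) D m
    (norm_lam_pow m) (mul_ne_zero hb (by norm_num)) hD ?_ ?_ ?_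
  · rw [norm_mul, norm_mul, h2, mul_one, mul_one]
    refine (norm_dot_le _ _).trans ?_
    rw [norm_xp, one_mul]; exact h
  · rw [norm_mul, h2, mul_one]
    exact (norm_fixPart y).trans h
  · conv_lhs => rw [decomp y]
    rw [act_add, act_add, act_smul, act_smul, e1, e2, act_t_pow_fix, smul_smul, smul_smul,
      inv_pow]
    abel

/-- the `i`-th generator -/
def gen (η : GL (Fin 5) ℚ) (i m : ℕ) : GL (Fin 5) ℚ := (r ^ i * t ^ m) * η * (r ^ i * t ^ m)⁻¹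

theorem gen_zpow (η : GL (Fin 5) ℚ) (i m : ℕ) (k : ℤ) :
    gen η i m ^ k = (r ^ i * t ^ m) * η ^ k * (r ^ i * t ^ m)⁻¹ := by
  rw [gen, conj_zpow]

theorem gen_step (η : GL (Fin 5) ℚ) (C : ℝ) (hη : Good η C) (i m : ℕ)
    (hm : C * 25 ^ (2 * i) < 5 ^ m) (k : ℤ) (hk : k ≠ 0) (z : V) (hz0 : z ≠ 0)
    (hz : ‖z‖ ≤ 25 ^ i * ‖Xv i ⬝ᵥ z‖) : act (gen η i m ^ k) z ∈ U i := by
  obtain ⟨hC, hη⟩ := hη
  have hq := hη k hk
  set q := xm ⬝ᵥ act (η ^ k) xm with hqdef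
  have h5 : (0 : ℝ) < 5 ^ m := by positivity
  -- `q ≠ 0`
  have hq0 : 0 < ‖q‖ := by
    rcases (norm_nonneg q).eq_or_lt with h | h
    · exfalso
      have h1 := hq (act (η ^ k)⁻¹ xm)
      rw [← h, mul_zero, zero_mul, act_act_inv, norm_xm] at h1
      linarith
    · exact h
  set y := act (r ^ i)⁻¹ z with hy
  have hy0 : y ≠ 0 := by
    intro h
    apply hz0
    rw [← act_act_inv (r ^ i) z, ← hy, h]
    simp [act]
  have hyz : xp ⬝ᵥ y = Xv i ⬝ᵥ z := by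
    rw [hy, ← act_dot (pow_mem r_mem i), act_act_inv, Xv]
  have hD : (1 : ℝ) ≤ 25 ^ (2 * i) := one_le_pow₀ (by norm_num)
  have hyn : ‖y‖ ≤ 25 ^ (2 * i) * ‖xp ⬝ᵥ y‖ := by
    rw [hyz]
    calc ‖y‖ ≤ 25 ^ i * ‖z‖ := norm_act_r_inv_pow i z
      _ ≤ 25 ^ i * (25 ^ i * ‖Xv i ⬝ᵥ z‖) := mul_le_mul_of_nonneg_left hz (by positivity)
      _ = _ := by rw [← mul_assoc, ← pow_add, two_mul]
  obtain ⟨c1, hc1, e1, h1, he1⟩ := step_inv y hy0 _ hD m hyn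
  -- the middle vector
  set u := act (η ^ k) (xm + e1) with hu
  have he1' : C * ‖e1‖ < 1 := by
    have : C * ‖e1‖ ≤ C * (25 ^ (2 * i) * (5 ^ m)⁻¹) :=
      mul_le_mul_of_nonneg_left he1 (by linarith)
    refine this.trans_lt ?_
    rw [← mul_assoc, ← div_eq_mul_inv, div_lt_one h5]
    exact hm
  have he1'' : ‖e1‖ < 1 := by
    have := norm_nonneg e1
    nlinarith
  have hue : ‖xm ⬝ᵥ act (η ^ k) e1‖ < ‖q‖ := by
    calc ‖xm ⬝ᵥ act (η ^ k) e1‖ ≤ ‖xm‖ * ‖act (η ^ k) e1‖ := norm_dot_le _ _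
      _ = ‖act (η ^ k) e1‖ := by rw [norm_xm, one_mul]
      _ ≤ C * ‖q‖ * ‖e1‖ := hq e1
      _ = ‖q‖ * (C * ‖e1‖) := by ring
      _ < ‖q‖ * 1 := mul_lt_mul_of_pos_left he1' hq0
      _ = ‖q‖ := mul_one _
  have huq : ‖xm ⬝ᵥ u‖ = ‖q‖ := by
    rw [hu, act_add, dotProduct_add, ← hqdef,
      IsUltrametricDist.norm_add_eq_max_of_norm_ne_norm hue.ne', max_eq_left hue.le]
  have hun : ‖u‖ ≤ C * ‖xm ⬝ᵥ u‖ := by
    rw [huq]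
    refine (hq _).trans ?_
    have : ‖xm + e1‖ ≤ 1 :=
      (IsUltrametricDist.norm_add_le_max _ _).trans (max_le norm_xm.le he1''.le)
    calc C * ‖q‖ * ‖xm + e1‖ ≤ C * ‖q‖ * 1 := mul_le_mul_of_nonneg_left this (by positivity)
      _ = _ := mul_one _
  have hu0 : u ≠ 0 := by
    intro h; rw [h, dotProduct_zero, norm_zero] at huq; linarith
  obtain ⟨c2, hc2, e2, h2, he2⟩ := step_pow u hu0 C hC m hun
  refine ⟨c1 * c2, mul_ne_zero hc1 hc2, act (r ^ i) e2, ?_, ?_⟩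
  · rw [gen_zpow, act_mul, act_mul, act_mul, _root_.mul_inv_rev, act_mul, ← hy, h1, act_smul,
      ← hu, act_smul, h2, act_smul, act_smul, smul_smul, act_add, Xv]
  · have h3 := norm_act_r_pow i e2
    have h25 : (0 : ℝ) < 25 ^ i := by positivity
    calc ‖act (r ^ i) e2‖ * 25 ^ i ≤ (25 ^ i * ‖e2‖) * 25 ^ i :=
          mul_le_mul_of_nonneg_right h3 h25.le
      _ ≤ (25 ^ i * (C * (5 ^ m)⁻¹)) * 25 ^ i :=
          mul_le_mul_of_nonneg_right (mul_le_mul_of_nonneg_left he2 h25.le) h25.le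
      _ = (C * 25 ^ (2 * i)) / 5 ^ m := by rw [two_mul, pow_add]; ring
      _ < 1 := by rw [div_lt_one h5]; exact hm

theorem xp_mem_U0 : xp ∈ U 0 := ⟨1, one_ne_zero, 0, by simp [Xv_zero], by simp⟩

theorem xp_notMem_U {i : ℕ} (hi : i ≠ 0) : xp ∉ U i := by
  intro h
  have := (sep hi h).2
  rw [Xv_zero, xp_dot_xp, norm_zero, mul_zero, norm_xp] at this
  linarith

theorem smul_mem_U {i : ℕ} {c : ℚ_[5]} (hc : c ≠ 0) {w : V} (h : c • w ∈ U i) : w ∈ U i := by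
  obtain ⟨d, hd, e, he, he'⟩ := h
  refine ⟨c⁻¹ * d, mul_ne_zero (inv_ne_zero hc) hd, e, ?_, he'⟩
  rw [mul_smul, ← he, smul_smul, inv_mul_cancel₀ hc, one_smul]

/-- **Main ping-pong statement.** If `η i` is `C i`-good for all `i ≥ 1`, and `m i` is large
enough, the group generated by the `gen (η i) i (m i)` meets the cyclic group of `t` trivially. -/
theorem t_pow_notMem (η : ℕ → GL (Fin 5) ℚ) (C : ℕ → ℝ) (m : ℕ → ℕ)
    (hη : ∀ i, Good (η i) (C i)) (hm : ∀ i, C i * 25 ^ (2 * (i + 1)) < 5 ^ m i)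
    (k : ℕ) (hk : t ^ k ∈ Subgroup.closure (Set.range fun i => gen (η i) (i + 1) (m i)))
    (hk1 : t ^ k ≠ 1) : False := by
  have key := pingpong act act_mul (fun i => gen (η i) (i + 1) (m i)) (fun i => U (i + 1)) xp
    (fun i k hk => gen_step _ _ (hη i) _ _ (hm i) k hk xp (sep (Nat.succ_ne_zero i).symm xp_mem_U0).1
      (sep (Nat.succ_ne_zero i).symm xp_mem_U0).2)
    (fun i k hk j hj x hx => gen_step _ _ (hη i) _ _ (hm i) k hk x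
      (sep (by omega : j + 1 ≠ i + 1) hx).1 (sep (by omega : j + 1 ≠ i + 1) hx).2)
    (t ^ k) hk
  rcases key with h | ⟨i, hi⟩
  · exact hk1 h
  · rw [act_pow_eigen t xp _ act_t_xp] at hi
    exact xp_notMem_U (Nat.succ_ne_zero i) (smul_mem_U (pow_ne_zero k lam_ne) hi)

end Pool.Agent.TH16.WC
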