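import Mathlib
import Pool.Agent.TH16.WC.Mat

set_option autoImplicit false

/-! Spectral decomposition of rational orthogonal matrices over an algebraically closed field. -/

namespace Pool.Agent.TH16.WC

open Matrix Polynomial

theorem eq_zero_of_transpose_mul_self (A : Matrix (Fin 5) (Fin 5) ℚ) (h : Aᵀ * A = 0) : A = 0 := by
  ext i j
  have h1 := congrFun (congrFun h j) j
  rw [Matrix.mul_apply] at h1
  simp only [Matrix.transpose_apply, Matrix.zero_apply] at h1
  have h2 := (Finset.sum_eq_zero_iff_of_nonneg (fun k _ => mul_self_nonneg (A k j))).1 h1 i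
    (Finset.mem_univ i)
  simpa using h2

theorem aeval_transpose {R : Type*} [CommRing R] (A : Matrix (Fin 5) (Fin 5) R) (f : R[X]) :
    (aeval A f)ᵀ = aeval Aᵀ f := by
  induction f using Polynomial.induction_on' with
  | add p q hp hq => simp only [map_add, Matrix.transpose_add, hp, hq]
  | monomial n a =>
    simp only [aeval_monomial, Matrix.transpose_mul, Matrix.transpose_pow]
    rw [Matrix.algebraMap_eq_diagonal]
    simp only [Matrix.diagonal_transpose]
    rw [← Matrix.algebraMap_eq_diagonal, Algebra.commutes]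

theorem commute_aeval {R A : Type*} [CommRing R] [Ring A] [Algebra R A] {a b : A}
    (h : Commute a b) (f : R[X]) : Commute a (aeval b f) := by
  induction f using Polynomial.induction_on' with
  | add p q hp hq => rw [map_add]; exact hp.add_right hq
  | monomial n c =>
    rw [aeval_monomial]
    have h1 : Commute a (algebraMap R A c) := (Algebra.commutes c a).symm
    exact h1.mul_right (h.pow_right n)

theorem squarefree_minpoly (G : Matrix (Fin 5) (Fin 5) ℚ) (hG : G * Gᵀ = 1) :
    Squarefree (minpoly ℚ G) := by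
  have hG' : Gᵀ * G = 1 := mul_eq_one_comm.1 hG
  have hint : IsIntegral ℚ G := Matrix.isIntegral G
  have hne := minpoly.ne_zero hint
  rintro p ⟨q, hq⟩
  have hpq0 : p * q ≠ 0 := by
    intro h; apply hne; rw [hq, mul_assoc, h, mul_zero]
  set N := aeval G (p * q) with hN
  have hcomm : Commute Gᵀ G := by rw [Commute, SemiconjBy, hG, hG']
  have hNT : Nᵀ = aeval Gᵀ (p * q) := aeval_transpose G (p * q)
  have hc : Commute Nᵀ N := by
    rw [hNT, hN]
    exact (commute_aeval (commute_aeval hcomm.symm (p * q)).symm (p * q))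
  have hNN : N * N = 0 := by
    rw [hN, ← map_mul, show p * q * (p * q) = minpoly ℚ G * q by rw [hq]; ring, map_mul,
      minpoly.aeval, zero_mul]
  have hM : Nᵀ * N = 0 := by
    apply eq_zero_of_transpose_mul_self
    rw [Matrix.transpose_mul, Matrix.transpose_transpose]
    calc Nᵀ * N * (Nᵀ * N) = Nᵀ * (N * Nᵀ) * N := by simp only [Matrix.mul_assoc]
      _ = Nᵀ * (Nᵀ * N) * N := by rw [hc.eq]
      _ = Nᵀ * Nᵀ * (N * N) := by simp only [Matrix.mul_assoc]
      _ = 0 := by rw [hNN, Matrix.mul_zero]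
  have hN0 : N = 0 := eq_zero_of_transpose_mul_self N hM
  have hdvd : minpoly ℚ G ∣ p * q := minpoly.dvd ℚ G hN0
  rw [hq] at hdvd
  obtain ⟨w, hw⟩ := hdvd
  have : p * w = 1 := by
    have h3 : p * q * (p * w) = p * q * 1 := by rw [mul_one]; conv_rhs => rw [hw]
                                                ring
    exact mul_left_cancel₀ hpq0 h3
  exact IsUnit.of_mul_eq_one w this

variable {L : Type*} [Field L]

open Classical in
/-- Spectral data for an orthogonal matrix. -/
structure SpecData (A : Matrix (Fin 5) (Fin 5) L) where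
  s : Finset L
  P : L → Matrix (Fin 5) (Fin 5) L
  key : ∀ f : L[X], aeval A f = ∑ μ ∈ s, f.eval μ • P μ
  b : L → L[X]
  hb : ∀ μ, aeval A (b μ) = P μ
  hbe : ∀ μ ∈ s, ∀ ν ∈ s, (b μ).eval ν = if μ = ν then 1 else 0

theorem exists_specData [Algebra ℚ L] [IsAlgClosed L] (G : Matrix (Fin 5) (Fin 5) ℚ)
    (hG : G * Gᵀ = 1) : Nonempty (SpecData (G.map (algebraMap ℚ L))) := by
  classical
  set A := G.map (algebraMap ℚ L) with hA
  set m := (minpoly ℚ G).map (algebraMap ℚ L) with hm
  have hint : IsIntegral ℚ G := Matrix.isIntegral G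
  have hmonic : m.Monic := (minpoly.monic hint).map _
  have hsep : m.Separable := by
    rw [hm, Polynomial.separable_map]
    exact (PerfectField.separable_iff_squarefree).2 (squarefree_minpoly G hG)
  have hnod := Polynomial.nodup_roots hsep
  have hsplit : m.Splits := IsAlgClosed.splits m
  set s := m.roots.toFinset with hs
  have hprod : m = ∏ μ ∈ s, (X - C μ) := by
    have h1 := hsplit.eq_prod_roots_of_monic hmonic
    rw [Finset.prod_eq_multiset_prod, hs, Multiset.toFinset_val, hnod.dedup]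
    exact h1
  have hkill : aeval A m = 0 := by
    rw [hm, Polynomial.aeval_map_algebraMap]
    have h2 : A = (Algebra.ofId ℚ L).mapMatrix G := by
      ext i j; simp [hA, Algebra.ofId_apply]
    rw [h2, Polynomial.aeval_algHom_apply, minpoly.aeval, map_zero]
  let b : L → L[X] := fun μ => Lagrange.basis s id μ
  have hbe : ∀ μ ∈ s, ∀ ν ∈ s, (b μ).eval ν = if μ = ν then 1 else 0 := by
    intro μ hμ ν hν
    by_cases h : μ = ν
    · subst h
      simpa using Lagrange.eval_basis_self (s := s) (v := id) Function.injective_id.injOn hμ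
    · rw [if_neg h]
      exact Lagrange.eval_basis_of_ne (v := id) h hν
  refine ⟨⟨s, fun μ => aeval A (b μ), ?_, b, fun μ => rfl, hbe⟩⟩
  intro f
  have hdvd : m ∣ f - ∑ μ ∈ s, f.eval μ • b μ := by
    rw [hprod]
    apply Finset.prod_dvd_of_coprime
    · intro μ _ ν _ hμν
      exact Polynomial.isCoprime_X_sub_C_of_isUnit_sub (sub_ne_zero.2 hμν).isUnit
    · intro ν hν
      rw [Polynomial.dvd_iff_isRoot, Polynomial.IsRoot.def, Polynomial.eval_sub,
        Polynomial.eval_finsetSum, Finset.sum_eq_single ν]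
      · rw [Polynomial.eval_smul, hbe ν hν ν hν, if_pos rfl]; simp
      · intro μ hμ hne
        rw [Polynomial.eval_smul, hbe μ hμ ν hν, if_neg hne]; simp
      · intro h; exact absurd hν h
  obtain ⟨q, hq⟩ := hdvd
  have h3 : aeval A (f - ∑ μ ∈ s, f.eval μ • b μ) = 0 := by
    rw [hq, map_mul, hkill, zero_mul]
  rw [map_sub, sub_eq_zero, map_sum] at h3
  rw [h3]
  refine Finset.sum_congr rfl fun μ _ => ?_
  rw [map_smul]

namespace SpecData

variable {A : Matrix (Fin 5) (Fin 5) L} (D : SpecData A)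

theorem mul_same {μ : L} (hμ : μ ∈ D.s) : D.P μ * D.P μ = D.P μ := by
  classical
  rw [← D.hb μ, ← map_mul, D.key, Finset.sum_eq_single μ]
  · rw [eval_mul, D.hbe μ hμ μ hμ]; simp [D.hb]
  · intro ν hν hne
    rw [eval_mul, D.hbe μ hμ ν hν, if_neg (Ne.symm hne)]; simp
  · intro h; exact absurd hμ h

theorem mul_ne {μ ν : L} (hμ : μ ∈ D.s) (hν : ν ∈ D.s) (h : μ ≠ ν) : D.P μ * D.P ν = 0 := by
  classical
  rw [← D.hb μ, ← D.hb ν, ← map_mul, D.key]
  refine Finset.sum_eq_zero fun κ hκ => ?_
  rw [eval_mul, D.hbe μ hμ κ hκ, D.hbe ν hν κ hκ]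
  by_cases h1 : μ = κ
  · subst h1; rw [if_neg (Ne.symm h)]; simp
  · rw [if_neg h1]; simp

theorem sum_P : ∑ μ ∈ D.s, D.P μ = 1 := by
  have := D.key 1
  simp only [map_one, eval_one, one_smul] at this
  exact this.symm

theorem pow_eq (n : ℕ) : A ^ n = ∑ μ ∈ D.s, μ ^ n • D.P μ := by
  have := D.key (X ^ n)
  simpa using this

/-- a vector fixed by `A` is killed by `P μ` and its transpose, `μ ≠ 1` -/
theorem aeval_fix (w : Fin 5 → L) (hw : A.mulVec w = w) (f : L[X]) :
    (aeval A f).mulVec w = f.eval 1 • w := by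
  induction f using Polynomial.induction_on' with
  | add p q hp hq => rw [map_add, Matrix.add_mulVec, hp, hq, eval_add, add_smul]
  | monomial n a =>
    have h1 : (A ^ n).mulVec w = w := by
      induction n with
      | zero => simp
      | succ n ih => rw [pow_succ, ← Matrix.mulVec_mulVec, hw, ih]
    rw [aeval_monomial, ← Matrix.mulVec_mulVec, h1, Matrix.algebraMap_eq_diagonal]
    ext i
    simp [Matrix.mulVec_diagonal]

theorem one_mem (w : Fin 5 → L) (hw : A.mulVec w = w) (hw0 : w ≠ 0) : (1 : L) ∈ D.s := by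
  by_contra h1
  have h2 : (aeval A (∏ μ ∈ D.s, (X - C μ))).mulVec w = 0 := by
    rw [D.key]
    rw [Finset.sum_eq_zero]
    · simp
    · intro μ hμ
      rw [eval_prod, Finset.prod_eq_zero hμ]
      · simp
      · simp
  rw [aeval_fix w hw, eval_prod] at h2
  rcases smul_eq_zero.1 h2 with h | h
  · rw [Finset.prod_eq_zero_iff] at h
    obtain ⟨μ, hμ, h⟩ := h
    apply h1
    have : (1 : L) = μ := by simpa [sub_eq_zero] using h
    rwa [this]
  · exact hw0 h

theorem P_fix (w : Fin 5 → L) (hw : A.mulVec w = w) (hw0 : w ≠ 0) {μ : L} (hμ : μ ∈ D.s)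
    (h1 : μ ≠ 1) : (D.P μ).mulVec w = 0 := by
  rw [← D.hb μ, aeval_fix w hw, D.hbe μ hμ 1 (D.one_mem w hw hw0), if_neg h1, zero_smul]

theorem P_fix_transpose (w : Fin 5 → L) (hw : A.mulVec w = w) (hw' : Aᵀ.mulVec w = w)
    (hw0 : w ≠ 0) {μ : L} (hμ : μ ∈ D.s)
    (h1 : μ ≠ 1) : (D.P μ)ᵀ.mulVec w = 0 := by
  rw [← D.hb μ, aeval_transpose, aeval_fix w hw', D.hbe μ hμ 1 (D.one_mem w hw hw0), if_neg h1,
    zero_smul]

/-- **Key algebraic lemma.** For a nonempty set `J` of eigenvalues `≠ 1` with nonzero projections,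
the quadratic form of `∑ P μ` is not a multiple of the standard one. -/
theorem exists_isotropic [CharZero L] (io : L) (hio : io * io = -1)
    (J : Finset L) (hJ : J ⊆ D.s) (hJ1 : ∀ μ ∈ J, μ ≠ 1) (hJ0 : ∃ μ ∈ J, D.P μ ≠ 0)
    (w : Fin 5 → L) (hw : A.mulVec w = w) (hw' : Aᵀ.mulVec w = w) (hw0 : w ≠ 0) :
    ∃ a b : Fin 5, a ≠ b ∧ ∃ ε : ℤ, (ε = 1 ∨ ε = -1) ∧
      (Pi.single a 1 + (ε * io) • Pi.single b 1 : Fin 5 → L) ⬝ᵥ
        (∑ μ ∈ J, D.P μ).mulVec (Pi.single a 1 + (ε * io) • Pi.single b 1) ≠ 0 := by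
  classical
  set Q := ∑ μ ∈ J, D.P μ with hQ
  have hval : ∀ a b : Fin 5, ∀ ε : L, (ε * ε = 1) →
      (Pi.single a 1 + (ε * io) • Pi.single b 1 : Fin 5 → L) ⬝ᵥ
        Q.mulVec (Pi.single a 1 + (ε * io) • Pi.single b 1)
        = Q a a - Q b b + ε * io * (Q a b + Q b a) := by
    intro a b ε hε
    have e : ε * io * (ε * io) = -1 := by
      calc ε * io * (ε * io) = (ε * ε) * (io * io) := by ring
        _ = -1 := by rw [hε, hio, one_mul]
    simp only [Matrix.mulVec_add, Matrix.mulVec_smul, Matrix.mulVec_single_one,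
      dotProduct_add, add_dotProduct, smul_dotProduct, dotProduct_smul, smul_eq_mul,
      single_one_dotProduct, Matrix.col_apply]
    linear_combination (Q b b) * e
  by_contra hcon
  push Not at hcon
  have h1 : ∀ a b : Fin 5, a ≠ b → Q a a - Q b b + io * (Q a b + Q b a) = 0 := by
    intro a b hab
    have := hcon a b hab 1 (Or.inl rfl)
    rw [Int.cast_one, hval a b 1 (by ring)] at this
    simpa using this
  have h2 : ∀ a b : Fin 5, a ≠ b → Q a a - Q b b - io * (Q a b + Q b a) = 0 := by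
    intro a b hab
    have := hcon a b hab (-1) (Or.inr rfl)
    rw [Int.cast_neg, Int.cast_one, hval a b (-1) (by ring)] at this
    linear_combination this
  have hio0 : io ≠ 0 := by rintro rfl; simp at hio
  have h3 : ∀ a b : Fin 5, a ≠ b → Q a b + Q b a = 0 := by
    intro a b hab
    have h : io * (Q a b + Q b a) * 2 = 0 := by linear_combination h1 a b hab - h2 a b hab
    have h' : io * (Q a b + Q b a) = 0 := by
      rcases mul_eq_zero.1 h with h | h
      · exact h
      · exact absurd h two_ne_zero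
    rcases mul_eq_zero.1 h' with h | h
    · exact absurd h hio0
    · exact h
  have h4 : ∀ a b : Fin 5, Q a a = Q b b := by
    intro a b
    by_cases hab : a = b
    · rw [hab]
    · have := h1 a b hab
      rw [h3 a b hab, mul_zero, add_zero] at this
      exact sub_eq_zero.1 this
  have hsym : Q + Qᵀ = (2 * Q 0 0) • (1 : Matrix (Fin 5) (Fin 5) L) := by
    ext a b
    rw [Matrix.add_apply, Matrix.transpose_apply, Matrix.smul_apply]
    by_cases hab : a = b
    · subst hab
      rw [Matrix.one_apply_eq, h4 a 0, smul_eq_mul]; ring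
    · rw [Matrix.one_apply_ne hab, smul_zero, h3 a b hab]
  have hQw : Q.mulVec w = 0 := by
    rw [hQ, Matrix.sum_mulVec]
    exact Finset.sum_eq_zero fun μ hμ => D.P_fix w hw hw0 (hJ hμ) (hJ1 μ hμ)
  have hQw' : Qᵀ.mulVec w = 0 := by
    rw [hQ, Matrix.transpose_sum, Matrix.sum_mulVec]
    exact Finset.sum_eq_zero fun μ hμ => D.P_fix_transpose w hw hw' hw0 (hJ hμ) (hJ1 μ hμ)
  have hκ : (2 * Q 0 0) • w = 0 := by
    have : (Q + Qᵀ).mulVec w = (2 * Q 0 0) • w := by
      rw [hsym, Matrix.smul_mulVec, Matrix.one_mulVec]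
    rw [← this, Matrix.add_mulVec, hQw, hQw', add_zero]
  have hκ0 : 2 * Q 0 0 = 0 := (smul_eq_zero.1 hκ).resolve_right hw0
  rw [hκ0, zero_smul] at hsym
  have hQT : Qᵀ = -Q := by
    rw [eq_neg_iff_add_eq_zero, add_comm]; exact hsym
  have hPQ : ∀ μ ∈ J, D.P μ * Q = D.P μ := by
    intro μ hμ
    rw [hQ, Finset.mul_sum, Finset.sum_eq_single μ]
    · exact D.mul_same (hJ hμ)
    · intro ν hν hne
      exact D.mul_ne (hJ hμ) (hJ hν) (Ne.symm hne)
    · intro h; exact absurd hμ h
  have hQQ : Q * Q = Q := by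
    conv_lhs => rw [hQ]
    rw [Finset.sum_mul, ← hQ]
    conv_rhs => rw [hQ]
    exact Finset.sum_congr rfl hPQ
  have hQ0 : Q = 0 := by
    have e1 : (Q * Q)ᵀ = Q := by
      rw [Matrix.transpose_mul, hQT, neg_mul_neg, hQQ]
    rw [hQQ, hQT] at e1
    ext a b
    have e2 := congrFun (congrFun e1 a) b
    rw [Matrix.neg_apply] at e2
    have e3 : Q a b * 2 = 0 := by linear_combination -e2
    rcases mul_eq_zero.1 e3 with h | h
    · exact h
    · exact absurd h two_ne_zero
  obtain ⟨μ, hμ, hne⟩ := hJ0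
  apply hne
  rw [← hPQ μ hμ, hQ0, mul_zero]

end SpecData

end Pool.Agent.TH16.WC
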