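import Mathlib
import Pool.Agent.TH16.WC.Spec
import Pool.Agent.TH16.WC.PP

set_option autoImplicit false

/-! `5`-adic growth of the powers of a rational orthogonal matrix. -/

namespace Pool.Agent.TH16.WC

open Matrix Polynomial

/-- An algebraic closure of `ℚ₅`. -/
abbrev L5 := PadicAlgCl 5

theorem unit_pow (u : L5) (hu : ‖u‖ = 1) (δ : ℝ) (hδ : 0 < δ) :
    ∃ N : ℕ, 0 < N ∧ ‖u ^ N - 1‖ < δ := by
  let E : Submodule ℚ_[5] L5 := Subalgebra.toSubmodule (Algebra.adjoin ℚ_[5] {u})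
  have hint : IsIntegral ℚ_[5] u := (Algebra.IsAlgebraic.isAlgebraic u).isIntegral
  have : FiniteDimensional ℚ_[5] E := Module.Finite.iff_fg.2 hint.fg_adjoin_singleton
  have : ProperSpace E := FiniteDimensional.proper ℚ_[5] E
  let x : ℕ → E := fun n => ⟨u ^ n, Subalgebra.pow_mem _ (Algebra.self_mem_adjoin_singleton _ u) n⟩
  have hx : ∀ n, x n ∈ Metric.closedBall (0 : E) 1 := by
    intro n
    rw [mem_closedBall_zero_iff]
    change ‖u ^ n‖ ≤ 1
    rw [norm_pow, hu, one_pow]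
  obtain ⟨a, -, φ, hφ, hlim⟩ := (isCompact_closedBall (0 : E) 1).tendsto_subseq hx
  have hc := hlim.cauchySeq
  rw [Metric.cauchySeq_iff'] at hc
  obtain ⟨n, hn⟩ := hc δ hδ
  have h1 := hn (n + 1) (Nat.le_succ n)
  have hlt : φ n < φ (n + 1) := hφ (Nat.lt_succ_self n)
  refine ⟨φ (n + 1) - φ n, Nat.sub_pos_of_lt hlt, ?_⟩
  have h2 : dist (x (φ (n + 1))) (x (φ n)) = ‖u ^ φ (n + 1) - u ^ φ n‖ := by
    rw [dist_eq_norm]; rfl
  have h3 : u ^ φ (n + 1) - u ^ φ n = u ^ φ n * (u ^ (φ (n + 1) - φ n) - 1) := by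
    rw [mul_sub, ← pow_add, Nat.add_sub_cancel' hlt.le, mul_one]
  change dist (x (φ (n + 1))) (x (φ n)) < δ at h1
  rw [h2, h3, norm_mul, norm_pow, hu, one_pow, one_mul] at h1
  exact h1

section generic

variable {L : Type*} [NormedField L] [IsUltrametricDist L]

theorem unit_pow_mul (u : L) (hu : ‖u‖ = 1) (δ : ℝ) (N k : ℕ) (h : ‖u ^ N - 1‖ < δ) :
    ‖u ^ (N * k) - 1‖ < δ := by
  have hδ : 0 < δ := (norm_nonneg _).trans_lt h
  induction k with
  | zero => simpa using hδ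
  | succ k ih =>
    have e : u ^ (N * (k + 1)) - 1 = u ^ (N * k) * (u ^ N - 1) + (u ^ (N * k) - 1) := by
      rw [Nat.mul_succ, pow_add]; ring
    rw [e]
    refine (IsUltrametricDist.norm_add_le_max _ _).trans_lt (max_lt ?_ ih)
    rw [norm_mul, norm_pow, hu, one_pow, one_mul]; exact h

/-- dominated sums of exponentials -/
theorem exp_sum (hup : ∀ u : L, ‖u‖ = 1 → ∀ δ : ℝ, 0 < δ → ∃ N : ℕ, 0 < N ∧ ‖u ^ N - 1‖ < δ)
    (S J : Finset L) (hJS : J ⊆ S) (c : L → L) (R : ℝ) (hR : 0 < R)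
    (hJ : ∀ μ ∈ J, ‖μ‖ = R) (hS : ∀ μ ∈ S, μ ∉ J → ‖μ‖ < R) (hJn : J.Nonempty)
    (hc : ∑ μ ∈ J, c μ ≠ 0) :
    ∃ N : ℕ, 0 < N ∧ ∀ k : ℕ, k ≠ 0 →
      ‖∑ μ ∈ S, μ ^ (N * k) * c μ‖ = ‖∑ μ ∈ J, c μ‖ * R ^ (N * k) := by
  classical
  obtain ⟨μ₀, hμ₀⟩ := hJn
  have hn0 : ‖μ₀‖ = R := hJ μ₀ hμ₀
  have hμ₀0 : μ₀ ≠ 0 := by intro h; rw [h, norm_zero] at hn0; linarith
  set cJ := ‖∑ μ ∈ J, c μ‖ with hcJ
  have hcJ0 : 0 < cJ := norm_pos_iff.2 hc
  set T : ℝ := 1 + ∑ μ ∈ S, ‖c μ‖ with hT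
  have hT0 : 0 < T := by
    have : 0 ≤ ∑ μ ∈ S, ‖c μ‖ := Finset.sum_nonneg fun _ _ => norm_nonneg _
    linarith
  have hcT : ∀ μ ∈ S, ‖c μ‖ < T := by
    intro μ hμ
    have := Finset.single_le_sum (f := fun μ => ‖c μ‖) (fun i _ => norm_nonneg (c i)) hμ
    linarith
  set δ := cJ / T with hδ
  have hδ0 : 0 < δ := div_pos hcJ0 hT0
  have hex : ∀ μ : L, ∃ N : ℕ, 0 < N ∧ (μ ∈ S → ∀ k : ℕ, k ≠ 0 →
      ‖(μ / μ₀) ^ (N * k) - (if μ ∈ J then 1 else 0)‖ < δ) := by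
    intro μ
    by_cases hμJ : μ ∈ J
    · have hu : ‖μ / μ₀‖ = 1 := by rw [norm_div, hJ μ hμJ, hn0, div_self hR.ne']
      obtain ⟨N, hN, h⟩ := hup _ hu δ hδ0
      refine ⟨N, hN, fun _ k _ => ?_⟩
      rw [if_pos hμJ]
      exact unit_pow_mul _ hu δ N k h
    · by_cases hμS : μ ∈ S
      · have hu : ‖μ / μ₀‖ < 1 := by
          rw [norm_div, hn0, div_lt_one hR]; exact hS μ hμS hμJ
        obtain ⟨N, hN⟩ := exists_pow_lt_of_lt_one hδ0 hu
        refine ⟨N + 1, Nat.succ_pos N, fun _ k hk => ?_⟩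
        rw [if_neg hμJ, sub_zero, norm_pow]
        refine lt_of_le_of_lt (pow_le_pow_of_le_one (norm_nonneg _) hu.le ?_) hN
        calc N ≤ (N + 1) * 1 := by omega
          _ ≤ (N + 1) * k := Nat.mul_le_mul_left _ (Nat.one_le_iff_ne_zero.2 hk)
      · exact ⟨1, one_pos, fun h => absurd h hμS⟩
  choose Nf hNf hNf' using hex
  set N := ∏ μ ∈ S, Nf μ with hN
  refine ⟨N, Finset.prod_pos fun μ _ => hNf μ, fun k hk => ?_⟩
  have hterm : ∀ μ ∈ S, ‖(μ / μ₀) ^ (N * k) - (if μ ∈ J then 1 else 0)‖ < δ := by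
    intro μ hμ
    obtain ⟨q, hq⟩ := Finset.dvd_prod_of_mem Nf hμ
    have hq' : N = Nf μ * q := hq
    have hq0 : q ≠ 0 := by
      rintro rfl
      rw [mul_zero] at hq'
      exact absurd hq' (Finset.prod_pos fun μ _ => hNf μ).ne'
    rw [hq', mul_assoc]
    exact hNf' μ hμ (q * k) (mul_ne_zero hq0 hk)
  have hsum : ∑ μ ∈ S, μ ^ (N * k) * c μ = μ₀ ^ (N * k) * (∑ μ ∈ J, c μ +
      ∑ μ ∈ S, ((μ / μ₀) ^ (N * k) - (if μ ∈ J then 1 else 0)) * c μ) := by
    have e1 : ∑ μ ∈ J, c μ = ∑ μ ∈ S, (if μ ∈ J then 1 else 0) * c μ := by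
      rw [← Finset.sum_subset hJS]
      · exact Finset.sum_congr rfl fun μ hμ => by rw [if_pos hμ, one_mul]
      · intro μ _ hμ; rw [if_neg hμ, zero_mul]
    rw [e1, ← Finset.sum_add_distrib, Finset.mul_sum]
    refine Finset.sum_congr rfl fun μ _ => ?_
    rw [← add_mul, add_sub_cancel, div_pow, ← mul_assoc, mul_div_cancel₀]
    exact pow_ne_zero _ hμ₀0
  have hsmall : ‖∑ μ ∈ S, ((μ / μ₀) ^ (N * k) - (if μ ∈ J then 1 else 0)) * c μ‖ < cJ := by
    have hS0 : S.Nonempty := ⟨μ₀, hJS hμ₀⟩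
    obtain ⟨ν, hν, hle⟩ := IsUltrametricDist.exists_norm_finsetSum_le_of_nonempty hS0
      (fun μ => ((μ / μ₀) ^ (N * k) - (if μ ∈ J then 1 else 0)) * c μ)
    refine hle.trans_lt ?_
    rw [norm_mul]
    calc ‖(ν / μ₀) ^ (N * k) - (if ν ∈ J then 1 else 0)‖ * ‖c ν‖
        ≤ δ * ‖c ν‖ := mul_le_mul_of_nonneg_right (hterm ν hν).le (norm_nonneg _)
      _ < δ * T := mul_lt_mul_of_pos_left (hcT ν hν) hδ0
      _ = cJ := div_mul_cancel₀ _ hT0.ne'
  rw [hsum, norm_mul, norm_pow, hn0, IsUltrametricDist.norm_add_eq_max_of_norm_ne_norm,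
    max_eq_left hsmall.le, mul_comm]
  exact hsmall.ne'

end generic

/-- signed permutation matrices -/
theorem exists_sp (a b : Fin 5) (hab : a ≠ b) (ε : ℤ) (hε : ε = 1 ∨ ε = -1) :
    ∃ σ ∈ SOG ℚ, (∀ i j, ∃ z : ℤ, (σ : Matrix (Fin 5) (Fin 5) ℚ) i j = z) ∧
      act σ (Pi.single a 1 + ((ε : ℚ_[5]) * io) • Pi.single b 1) = xm := by
  classical
  have hεε : ε * ε = 1 := by rcases hε with h | h <;> simp [h]
  set c := Equiv.swap 0 a 1 with hc
  have hca : c ≠ a := by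
    intro h
    rw [hc] at h
    have h2 : Equiv.swap 0 a 1 = Equiv.swap 0 a 0 := by rw [h, Equiv.swap_apply_left]
    exact absurd ((Equiv.swap 0 a).injective h2) (by decide)
  let π : Equiv.Perm (Fin 5) := Equiv.swap b c * Equiv.swap 0 a
  have hπ0 : π 0 = a := by
    simp only [π, Equiv.Perm.mul_apply, Equiv.swap_apply_left]
    exact Equiv.swap_apply_of_ne_of_ne hab (Ne.symm hca)
  have hπ1 : π 1 = b := by
    simp only [π, Equiv.Perm.mul_apply, ← hc, Equiv.swap_apply_right]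
  let d : Fin 5 → ℚ := ![1, ε, 1, 1, ε * ((Equiv.Perm.sign π : ℤˣ) : ℤ)]
  have hsgn : (((Equiv.Perm.sign π : ℤˣ) : ℤ) : ℚ) * ((Equiv.Perm.sign π : ℤˣ) : ℤ) = 1 := by
    rcases Int.units_eq_one_or (Equiv.Perm.sign π) with h | h <;> simp [h]
  have hεq : (ε : ℚ) * ε = 1 := by exact_mod_cast hεε
  have hd2 : ∀ i, d i * d i = 1 := by
    intro i
    fin_cases i <;> simp [d]
    · exact hεq
    · linear_combination ((ε : ℚ) * ε) * hsgn + hεq
  let M : Matrix (Fin 5) (Fin 5) ℚ := Matrix.diagonal d * π.permMatrix ℚ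
  have hM : M * Mᵀ = 1 := by
    have h1 : π.permMatrix ℚ * (π.permMatrix ℚ)ᵀ = 1 := by
      have e : (π.permMatrix ℚ)ᵀ = π⁻¹.permMatrix ℚ := by
        simp [Equiv.Perm.permMatrix, ← PEquiv.toMatrix_symm, Equiv.toPEquiv_symm]
        rfl
      rw [e, ← Matrix.permMatrix_mul, inv_mul_cancel]
      simp [Equiv.Perm.permMatrix]
    have : M * Mᵀ = Matrix.diagonal d * (π.permMatrix ℚ * (π.permMatrix ℚ)ᵀ)
        * Matrix.diagonal d := by
      simp only [M, Matrix.transpose_mul, Matrix.diagonal_transpose, Matrix.mul_assoc]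
    rw [this, h1, Matrix.mul_one, Matrix.diagonal_mul_diagonal]
    simp only [hd2]
    exact Matrix.diagonal_one
  have hdet : M.det = 1 := by
    simp only [M, Matrix.det_mul, Matrix.det_diagonal, Matrix.det_permutation,
      Fin.prod_univ_five, d]
    simp
    linear_combination ((ε : ℚ) * ε) * hsgn + hεq
  have hMz : ∀ i j, M i j = d i * (if π i = j then 1 else 0) := by
    intro i j
    simp only [M, Matrix.diagonal_mul]
    congr 1
    simp [Equiv.Perm.permMatrix, PEquiv.toMatrix_apply, eq_comm]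
  refine ⟨mkG M hM, mkG_mem M hM hdet, ?_, ?_⟩
  · intro i j
    change ∃ z : ℤ, M i j = z
    rw [hMz]
    have : ∃ z : ℤ, d i = z := by
      fin_cases i <;> simp only [d]
      · exact ⟨1, by simp⟩
      · exact ⟨ε, by simp⟩
      · exact ⟨1, by simp⟩
      · exact ⟨1, by simp⟩
      · exact ⟨ε * ((Equiv.Perm.sign π : ℤˣ) : ℤ), by simp⟩
    obtain ⟨z, hz⟩ := this
    by_cases h : π i = j
    · exact ⟨z, by rw [if_pos h, hz]; simp⟩
    · exact ⟨0, by rw [if_neg h]; simp⟩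
  · ext i
    have hact : ∀ v : V, act (mkG M hM) v i = (d i : ℚ_[5]) * v (π i) := by
      intro v
      simp only [act, mkG, Matrix.mulVec, dotProduct, Matrix.map_apply, hMz, eq_ratCast,
        Rat.cast_mul]
      rw [Finset.sum_eq_single (π i)]
      · simp
      · intro j _ hj; rw [if_neg (Ne.symm hj)]; simp
      · intro h; exact absurd (Finset.mem_univ _) h
    rw [hact]
    have hεp : (ε : ℚ_[5]) * ε = 1 := by exact_mod_cast hεε
    have hne : ∀ j : Fin 5, j ≠ 0 → j ≠ 1 → π j ≠ a ∧ π j ≠ b := by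
      intro j h0 h1
      constructor
      · intro h; rw [← hπ0] at h; exact h0 (π.injective h)
      · intro h; rw [← hπ1] at h; exact h1 (π.injective h)
    fin_cases i
    · simp [d, xm, hπ0, hab]
    · simp [d, xm, hπ1, hab.symm]
      linear_combination io * hεp
    · obtain ⟨h1, h2⟩ := hne 2 (by decide) (by decide)
      simp [d, xm, h1, h2]
    · obtain ⟨h1, h2⟩ := hne 3 (by decide) (by decide)
      simp [d, xm, h1, h2]
    · obtain ⟨h1, h2⟩ := hne 4 (by decide) (by decide)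
      simp [d, xm, h1, h2]

theorem exists_fixed {L : Type*} [Field L] [CharZero L] (A : Matrix (Fin 5) (Fin 5) L)
    (hA : A * Aᵀ = 1) (hd : A.det = 1) : ∃ w : Fin 5 → L, w ≠ 0 ∧ A.mulVec w = w ∧
      Aᵀ.mulVec w = w := by
  have h1 : (A - 1).det = 0 := by
    have e1 : A - 1 = A * (1 - A)ᵀ := by
      rw [Matrix.transpose_sub, Matrix.transpose_one, Matrix.mul_sub, hA, Matrix.mul_one]
    have e2 : (A - 1).det = (1 - A).det := by
      conv_lhs => rw [e1, Matrix.det_mul, hd, one_mul, Matrix.det_transpose]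
    have e3 : (1 - A).det = -(A - 1).det := by
      rw [← neg_sub A 1, Matrix.det_neg]
      simp only [Fintype.card_fin]; ring
    have e4 : (A - 1).det * 2 = 0 := by linear_combination e2 + e3
    rcases mul_eq_zero.1 e4 with h | h
    · exact h
    · exact absurd h two_ne_zero
  obtain ⟨w, hw0, hw⟩ := Matrix.exists_mulVec_eq_zero_iff.2 h1
  rw [Matrix.sub_mulVec, Matrix.one_mulVec, sub_eq_zero] at hw
  refine ⟨w, hw0, hw, ?_⟩
  conv_lhs => rw [← hw]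
  rw [Matrix.mulVec_mulVec, mul_eq_one_comm.1 hA, Matrix.one_mulVec]

end Pool.Agent.TH16.WC
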