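import Mathlib
import Pool.Agent.TH16.WC.Dyn

set_option autoImplicit false

/-! Every unbounded rational rotation has a power conjugate to a good one. -/

namespace Pool.Agent.TH16.WC

open Matrix Polynomial

variable {L5 : Type*} [NormedField L5] [IsUltrametricDist L5] [NormedAlgebra ℚ_[5] L5]
  [CharZero L5]

omit [IsUltrametricDist L5] [CharZero L5] in
theorem norm_algMap (x : ℚ_[5]) : ‖algebraMap ℚ_[5] L5 x‖ = ‖x‖ := norm_algebraMap' L5 x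

omit [IsUltrametricDist L5] in
/-- the entries of a power, over `L5` -/
theorem map_pow_apply (γ : GL (Fin 5) ℚ) (n : ℕ) (a b : Fin 5) :
    algebraMap ℚ_[5] L5 (((γ ^ n : GL (Fin 5) ℚ) : Matrix (Fin 5) (Fin 5) ℚ) a b : ℚ) =
      (((γ : Matrix (Fin 5) (Fin 5) ℚ).map (algebraMap ℚ L5)) ^ n) a b := by
  have h : ((γ : Matrix (Fin 5) (Fin 5) ℚ).map (algebraMap ℚ L5)) ^ n =
      ((γ : Matrix (Fin 5) (Fin 5) ℚ) ^ n).map (algebraMap ℚ L5) := by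
    have := map_pow (algebraMap ℚ L5).mapMatrix (γ : Matrix (Fin 5) (Fin 5) ℚ) n
    simpa [RingHom.mapMatrix_apply] using this.symm
  rw [h, Matrix.map_apply, Units.val_pow_eq_pow_val]
  simp

theorem exists_good_aux [IsAlgClosed L5]
    (hup : ∀ u : L5, ‖u‖ = 1 → ∀ δ : ℝ, 0 < δ → ∃ N : ℕ, 0 < N ∧ ‖u ^ N - 1‖ < δ)
    (γ : GL (Fin 5) ℚ) (hγ : γ ∈ SOG ℚ)
    (hunb : ∀ B : ℝ, ∃ n : ℕ, ∃ a b,
      B < ‖((((γ ^ n : GL (Fin 5) ℚ) : Matrix (Fin 5) (Fin 5) ℚ) a b : ℚ) : ℚ_[5])‖) :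
    ∃ σ ∈ SOG ℚ, (∀ i j, ∃ z : ℤ, (σ : Matrix (Fin 5) (Fin 5) ℚ) i j = z) ∧
      ∃ N : ℕ, 0 < N ∧ ∃ C : ℝ, Good (σ * γ ^ N * σ⁻¹) C := by
  classical
  set A : Matrix (Fin 5) (Fin 5) L5 := (γ : Matrix (Fin 5) (Fin 5) ℚ).map (algebraMap ℚ L5) with hA
  obtain ⟨D⟩ := exists_specData (L := L5) (γ : Matrix (Fin 5) (Fin 5) ℚ) hγ.1
  set S := D.s.filter (fun μ => D.P μ ≠ 0) with hS
  have hpow : ∀ n : ℕ, A ^ n = ∑ μ ∈ S, μ ^ n • D.P μ := by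
    intro n
    rw [hA, D.pow_eq, hS, Finset.sum_filter_of_ne]
    intro μ _ h h0
    apply h; rw [h0, smul_zero]
  have hSn : S.Nonempty := by
    by_contra h
    rw [Finset.not_nonempty_iff_eq_empty] at h
    have := hpow 0
    rw [h, Finset.sum_empty, pow_zero] at this
    exact one_ne_zero this
  obtain ⟨μ₁, hμ₁, hmax⟩ := S.exists_max_image (fun μ => ‖μ‖) hSn
  set R := ‖μ₁‖ with hR
  set B : ℝ := ∑ μ ∈ S, ∑ a, ∑ b, ‖D.P μ a b‖ with hB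
  have hentry : ∀ μ ∈ S, ∀ a b, ‖D.P μ a b‖ ≤ B := by
    intro μ hμ a b
    calc ‖D.P μ a b‖ ≤ ∑ b, ‖D.P μ a b‖ :=
          Finset.single_le_sum (f := fun b => ‖D.P μ a b‖) (fun _ _ => norm_nonneg _) (Finset.mem_univ b)
      _ ≤ ∑ a, ∑ b, ‖D.P μ a b‖ :=
          Finset.single_le_sum (f := fun a => ∑ b, ‖D.P μ a b‖)
            (fun _ _ => Finset.sum_nonneg fun _ _ => norm_nonneg _) (Finset.mem_univ a)
      _ ≤ B := Finset.single_le_sum (f := fun μ => ∑ a, ∑ b, ‖D.P μ a b‖)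
            (fun _ _ => Finset.sum_nonneg fun _ _ => Finset.sum_nonneg fun _ _ => norm_nonneg _) hμ
  have hB0 : 0 ≤ B := Finset.sum_nonneg fun _ _ => Finset.sum_nonneg fun _ _ =>
    Finset.sum_nonneg fun _ _ => norm_nonneg _
  have hbound : ∀ n : ℕ, ∀ a b, ‖(A ^ n) a b‖ ≤ B * R ^ n := by
    intro n a b
    rw [hpow, Matrix.sum_apply]
    refine IsUltrametricDist.norm_sum_le_of_forall_le_of_nonneg (by positivity) ?_
    intro μ hμ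
    rw [Matrix.smul_apply, smul_eq_mul, norm_mul, norm_pow, mul_comm]
    exact mul_le_mul (hentry μ hμ a b) (pow_le_pow_left₀ (norm_nonneg _) (hmax μ hμ) n)
      (by positivity) hB0
  have hnormentry : ∀ n : ℕ, ∀ a b,
      ‖((((γ ^ n : GL (Fin 5) ℚ) : Matrix (Fin 5) (Fin 5) ℚ) a b : ℚ) : ℚ_[5])‖ = ‖(A ^ n) a b‖ := by
    intro n a b
    rw [hA, ← map_pow_apply, norm_algMap]
  have hR1 : 1 < R := by
    by_contra h
    push Not at h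
    obtain ⟨n, a, b, hn⟩ := hunb B
    rw [hnormentry] at hn
    have h1 := hbound n a b
    have h2 : R ^ n ≤ 1 := pow_le_one₀ (norm_nonneg _) h
    nlinarith
  have hR0 : 0 < R := by linarith
  set J := S.filter (fun μ => ‖μ‖ = R) with hJ
  have hJS : J ⊆ S := Finset.filter_subset _ _
  have hμ₁J : μ₁ ∈ J := Finset.mem_filter.2 ⟨hμ₁, rfl⟩
  have hJn : ∀ μ ∈ J, ‖μ‖ = R := fun μ hμ => (Finset.mem_filter.1 hμ).2
  have hSJ : ∀ μ ∈ S, μ ∉ J → ‖μ‖ < R := by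
    intro μ hμ hμJ
    refine lt_of_le_of_ne (hmax μ hμ) fun h => hμJ (Finset.mem_filter.2 ⟨hμ, h⟩)
  have hAA : A * Aᵀ = 1 := by
    rw [hA, ← Matrix.transpose_map, ← Matrix.map_mul, hγ.1]; simp
  have hAd : A.det = 1 := by
    have := RingHom.map_det (algebraMap ℚ L5) (γ : Matrix (Fin 5) (Fin 5) ℚ)
    rw [hγ.2, map_one] at this
    rw [hA]; exact this.symm
  obtain ⟨w, hw0, hw, hw'⟩ := exists_fixed A hAA hAd
  obtain ⟨a, b, hab, ε, hε, hne⟩ := D.exists_isotropic (algebraMap ℚ_[5] L5 io)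
    (by rw [← map_mul, io_mul, map_neg, map_one]) J
    (fun μ hμ => (Finset.mem_filter.1 (hJS hμ)).1)
    (fun μ hμ h1 => by have := hJn μ hμ; rw [h1, norm_one] at this; linarith)
    ⟨μ₁, hμ₁J, (Finset.mem_filter.1 hμ₁).2⟩ w hw hw' hw0
  set y : V := Pi.single a 1 + ((ε : ℚ_[5]) * io) • Pi.single b 1 with hy
  set yL : Fin 5 → L5 := Pi.single a 1 + ((ε : L5) * algebraMap ℚ_[5] L5 io) • Pi.single b 1 with hyL
  have hyy : ∀ i, algebraMap ℚ_[5] L5 (y i) = yL i := by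
    intro i
    simp only [hy, hyL, Pi.add_apply, Pi.smul_apply, smul_eq_mul, map_add, map_mul, map_intCast]
    congr 1
    · by_cases h : i = a
      · subst h; simp
      · simp [h]
    · by_cases h : i = b
      · subst h; simp
      · simp [h]
  obtain ⟨σ, hσ, hσz, hσy⟩ := exists_sp a b hab ε hε
  -- the quadratic form on powers
  have hquad : ∀ n : ℕ, algebraMap ℚ_[5] L5 (y ⬝ᵥ act (γ ^ n) y) =
      ∑ μ ∈ S, μ ^ n * (yL ⬝ᵥ (D.P μ).mulVec yL) := by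
    intro n
    have e1 : algebraMap ℚ_[5] L5 (y ⬝ᵥ act (γ ^ n) y) = yL ⬝ᵥ (A ^ n).mulVec yL := by
      simp only [dotProduct, act, Matrix.mulVec, map_sum, map_mul, Matrix.map_apply]
      refine Finset.sum_congr rfl fun i _ => ?_
      rw [hyy]
      congr 1
      refine Finset.sum_congr rfl fun j _ => ?_
      rw [hyy, hA, ← map_pow_apply]
      simp
    rw [e1, hpow, Matrix.sum_mulVec, dotProduct_sum]
    refine Finset.sum_congr rfl fun μ _ => ?_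
    rw [Matrix.smul_mulVec, dotProduct_smul, smul_eq_mul]
  have hcJ : ∑ μ ∈ J, (yL ⬝ᵥ (D.P μ).mulVec yL) ≠ 0 := by
    rw [← dotProduct_sum, ← Matrix.sum_mulVec]
    exact hne
  obtain ⟨N, hN, hNk⟩ := exp_sum hup S J hJS (fun μ => yL ⬝ᵥ (D.P μ).mulVec yL) R hR0 hJn hSJ
    ⟨μ₁, hμ₁J⟩ hcJ
  set cJ := ‖∑ μ ∈ J, (yL ⬝ᵥ (D.P μ).mulVec yL)‖ with hcJd
  have hcJ0 : 0 < cJ := norm_pos_iff.2 hcJ
  have hσn : ∀ v, ‖act σ v‖ ≤ ‖v‖ := by
    intro v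
    have := norm_mulVec_le ((σ : Matrix (Fin 5) (Fin 5) ℚ).map (algebraMap ℚ ℚ_[5])) 1 (by
      intro i j
      obtain ⟨z, hz⟩ := hσz i j
      rw [Matrix.map_apply, hz]
      simpa using Padic.norm_int_le_one (p := 5) z) v
    simpa [act] using this
  have hσn' : ∀ v, ‖act σ⁻¹ v‖ ≤ ‖v‖ := by
    intro v
    have := norm_mulVec_le (((σ⁻¹ : GL (Fin 5) ℚ) : Matrix (Fin 5) (Fin 5) ℚ).map
      (algebraMap ℚ ℚ_[5])) 1 (by
      intro i j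
      obtain ⟨z, hz⟩ := hσz j i
      rw [Matrix.map_apply, SOG_inv hσ, Matrix.transpose_apply, hz]
      simpa using Padic.norm_int_le_one (p := 5) z) v
    simpa [act] using this
  have hσinv : act σ⁻¹ xm = y := by rw [← hσy, act_inv_act]
  refine ⟨σ, hσ, hσz, N, hN, max 1 (B / cJ), le_max_left _ _, ?_⟩
  intro k hk v
  -- reduce to natural exponents
  have hnat : ∀ n : ℕ, n ≠ 0 → ∀ v : V,
      ‖act (γ ^ (N * n)) v‖ ≤ (B / cJ) * ‖y ⬝ᵥ act (γ ^ (N * n)) y‖ * ‖v‖ ∧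
      ‖act (γ ^ (N * n))⁻¹ v‖ ≤ (B / cJ) * ‖y ⬝ᵥ act (γ ^ (N * n)) y‖ * ‖v‖ := by
    intro n hn v
    have hq : ‖y ⬝ᵥ act (γ ^ (N * n)) y‖ = cJ * R ^ (N * n) := by
      rw [← norm_algMap (L5 := L5), hquad, hNk n hn]
    have e : (B / cJ) * ‖y ⬝ᵥ act (γ ^ (N * n)) y‖ = B * R ^ (N * n) := by
      rw [hq]; field_simp
    rw [e]
    constructor
    · refine norm_mulVec_le _ _ (fun i j => ?_) v
      rw [Matrix.map_apply]
      have := hbound (N * n) i j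
      rw [← hnormentry] at this
      simpa using this
    · refine norm_mulVec_le _ _ (fun i j => ?_) v
      rw [Matrix.map_apply, SOG_inv (pow_mem hγ _), Matrix.transpose_apply]
      have := hbound (N * n) j i
      rw [← hnormentry] at this
      simpa using this
  have hconj : ∀ v, act ((σ * γ ^ N * σ⁻¹) ^ k) v = act σ (act ((γ ^ N) ^ k) (act σ⁻¹ v)) := by
    intro v
    rw [conj_zpow, act_mul, act_mul]
  have hxm : xm ⬝ᵥ act ((σ * γ ^ N * σ⁻¹) ^ k) xm = y ⬝ᵥ act ((γ ^ N) ^ k) y := by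
    rw [hconj, hσinv]
    conv_lhs => rw [← hσy]
    rw [act_dot hσ]
  rw [hconj, hxm]
  have hmain : ‖act ((γ ^ N) ^ k) (act σ⁻¹ v)‖ ≤
      (B / cJ) * ‖y ⬝ᵥ act ((γ ^ N) ^ k) y‖ * ‖act σ⁻¹ v‖ := by
    rcases Int.eq_nat_or_neg k with ⟨n, rfl | rfl⟩
    · have hn : n ≠ 0 := by rintro rfl; exact hk rfl
      rw [zpow_natCast, ← pow_mul]
      exact (hnat n hn _).1
    · have hn : n ≠ 0 := by rintro rfl; exact hk rfl
      rw [_root_.zpow_neg, zpow_natCast, ← pow_mul]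
      have h1 := (hnat n hn (act σ⁻¹ v)).2
      have h2 : y ⬝ᵥ act (γ ^ (N * n))⁻¹ y = y ⬝ᵥ act (γ ^ (N * n)) y := by
        rw [← act_dot (pow_mem hγ (N * n)), act_act_inv, dotProduct_comm]
      rw [h2]; exact h1
  calc ‖act σ (act ((γ ^ N) ^ k) (act σ⁻¹ v))‖ ≤ ‖act ((γ ^ N) ^ k) (act σ⁻¹ v)‖ := hσn _
    _ ≤ (B / cJ) * ‖y ⬝ᵥ act ((γ ^ N) ^ k) y‖ * ‖act σ⁻¹ v‖ := hmain
    _ ≤ max 1 (B / cJ) * ‖y ⬝ᵥ act ((γ ^ N) ^ k) y‖ * ‖v‖ := by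
        apply mul_le_mul _ (hσn' v) (norm_nonneg _) (by positivity)
        exact mul_le_mul_of_nonneg_right (le_max_right _ _) (norm_nonneg _)

theorem exists_good (γ : GL (Fin 5) ℚ) (hγ : γ ∈ SOG ℚ)
    (hunb : ∀ B : ℝ, ∃ n : ℕ, ∃ a b,
      B < ‖((((γ ^ n : GL (Fin 5) ℚ) : Matrix (Fin 5) (Fin 5) ℚ) a b : ℚ) : ℚ_[5])‖) :
    ∃ σ ∈ SOG ℚ, (∀ i j, ∃ z : ℤ, (σ : Matrix (Fin 5) (Fin 5) ℚ) i j = z) ∧
      ∃ N : ℕ, 0 < N ∧ ∃ C : ℝ, Good (σ * γ ^ N * σ⁻¹) C :=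
  exists_good_aux unit_pow γ hγ hunb

end Pool.Agent.TH16.WC
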