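import Mathlib
import Pool.Agent.TH16.WC.Mat

set_option autoImplicit false

/-! `SO₅(ℂ)` is generated by the rotations in the coordinate planes. -/

namespace Pool.Agent.TH16.WC

open Matrix

/-- the projection to a coordinate plane -/
def PP (a b : Fin 5) : Matrix (Fin 5) (Fin 5) ℂ := Matrix.single a a 1 + Matrix.single b b 1

/-- the quarter turn of a coordinate plane (zero on the complement) -/
def JJ (a b : Fin 5) : Matrix (Fin 5) (Fin 5) ℂ := Matrix.single b a 1 - Matrix.single a b 1

theorem PP_sq {a b : Fin 5} (h : a ≠ b) : PP a b * PP a b = PP a b := by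
  simp [PP, Matrix.mul_add, Matrix.add_mul, h, h.symm]

theorem PP_JJ {a b : Fin 5} (h : a ≠ b) : PP a b * JJ a b = JJ a b := by
  simp [PP, JJ, Matrix.mul_sub, Matrix.add_mul, h, h.symm]

theorem JJ_PP {a b : Fin 5} (h : a ≠ b) : JJ a b * PP a b = JJ a b := by
  simp [PP, JJ, Matrix.mul_add, Matrix.sub_mul, h, h.symm]
  abel

theorem JJ_sq {a b : Fin 5} (h : a ≠ b) : JJ a b * JJ a b = -PP a b := by
  simp [PP, JJ, Matrix.mul_sub, Matrix.sub_mul, h, h.symm]
  abel

theorem PP_transpose (a b : Fin 5) : (PP a b)ᵀ = PP a b := by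
  simp [PP, Matrix.transpose_single]

theorem JJ_transpose (a b : Fin 5) : (JJ a b)ᵀ = -JJ a b := by
  simp [JJ, Matrix.transpose_single]

/-- rotation by the complex angle `z` in the plane `a, b` -/
noncomputable def rotM (a b : Fin 5) (z : ℂ) : Matrix (Fin 5) (Fin 5) ℂ :=
  1 + (Complex.cos z - 1) • PP a b + Complex.sin z • JJ a b

theorem rotM_mul {a b : Fin 5} (h : a ≠ b) (z w : ℂ) :
    rotM a b z * rotM a b w = rotM a b (z + w) := by
  simp only [rotM, Matrix.mul_add, Matrix.add_mul, Matrix.mul_one, Matrix.one_mul,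
    Matrix.smul_mul, Matrix.mul_smul, PP_sq h, PP_JJ h, JJ_PP h, JJ_sq h, smul_neg, smul_smul,
    Complex.cos_add, Complex.sin_add]
  module

theorem rotM_zero (a b : Fin 5) : rotM a b 0 = 1 := by simp [rotM]

theorem rotM_transpose (a b : Fin 5) (z : ℂ) : (rotM a b z)ᵀ = rotM a b (-z) := by
  simp [rotM, PP_transpose, JJ_transpose, Matrix.transpose_smul]

theorem rotM_orth {a b : Fin 5} (h : a ≠ b) (z : ℂ) : rotM a b z * (rotM a b z)ᵀ = 1 := by
  rw [rotM_transpose, rotM_mul h, add_neg_cancel, rotM_zero]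

theorem rotM_det {a b : Fin 5} (h : a ≠ b) (z : ℂ) : (rotM a b z).det = 1 := by
  have h1 : rotM a b z = rotM a b (z / 2) * rotM a b (z / 2) := by
    rw [rotM_mul h, add_halves]
  have h2 : (rotM a b (z / 2)).det * (rotM a b (z / 2)).det = 1 := by
    have := congrArg Matrix.det (rotM_orth h (z / 2))
    rwa [Matrix.det_mul, Matrix.det_transpose, Matrix.det_one] at this
  rw [h1, Matrix.det_mul, h2]

/-- the rotation as an element of `GL₅(ℂ)` -/
noncomputable def rot {a b : Fin 5} (h : a ≠ b) (z : ℂ) : GL (Fin 5) ℂ :=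
  mkG (rotM a b z) (rotM_orth h z)

theorem rot_coe {a b : Fin 5} (h : a ≠ b) (z : ℂ) :
    ((rot h z : GL (Fin 5) ℂ) : Matrix (Fin 5) (Fin 5) ℂ) = rotM a b z := rfl

theorem rot_mem {a b : Fin 5} (h : a ≠ b) (z : ℂ) : rot h z ∈ SOG ℂ :=
  mkG_mem _ _ (rotM_det h z)

theorem rot_mul {a b : Fin 5} (h : a ≠ b) (z w : ℂ) : rot h z * rot h w = rot h (z + w) := by
  ext1; simp only [Units.val_mul, rot_coe, rotM_mul h]

theorem rot_zero {a b : Fin 5} (h : a ≠ b) : rot h 0 = 1 := by
  ext1; simp only [rot_coe, rotM_zero, Units.val_one]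

theorem rot_inv {a b : Fin 5} (h : a ≠ b) (z : ℂ) : (rot h z)⁻¹ = rot h (-z) := by
  rw [inv_eq_iff_mul_eq_one, rot_mul, add_neg_cancel, rot_zero]

/-- The set of rotations in the coordinate planes with indices `≥ m`. -/
def rots (m : ℕ) : Set (GL (Fin 5) ℂ) :=
  {g | ∃ (a b : Fin 5) (h : a ≠ b) (z : ℂ), m ≤ a ∧ m ≤ b ∧ g = rot h z}

theorem rotM_mulVec {a b : Fin 5} (z : ℂ) (u : Fin 5 → ℂ) :
    (rotM a b z).mulVec u = u + ((Complex.cos z - 1) * u a - Complex.sin z * u b) • Pi.single a 1
      + ((Complex.cos z - 1) * u b + Complex.sin z * u a) • Pi.single b 1 := by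
  have hs : ∀ (i j : Fin 5), (Matrix.single i j (1 : ℂ)).mulVec u = u j • Pi.single i 1 := by
    intro i j
    ext k
    simp only [Matrix.mulVec, dotProduct, Pi.smul_apply, smul_eq_mul]
    rw [Finset.sum_eq_single j]
    · by_cases hk : i = k
      · subst hk; simp
      · simp [Matrix.single_apply, hk, Pi.single_apply, Ne.symm hk]
    · intro l _ hl
      simp [Matrix.single_apply, hl.symm]
    · intro h; exact absurd (Finset.mem_univ _) h
  simp only [rotM, PP, JJ, Matrix.add_mulVec, Matrix.smul_mulVec, Matrix.sub_mulVec,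
    Matrix.one_mulVec, hs]
  module

theorem exists_angle (c s : ℂ) (h : c ^ 2 + s ^ 2 = 1) :
    ∃ z : ℂ, Complex.cos z = c ∧ Complex.sin z = s := by
  obtain ⟨z, hz⟩ := Complex.cos_surjective c
  have h1 := Complex.sin_sq_add_cos_sq z
  have h2 : (Complex.sin z - s) * (Complex.sin z + s) = 0 := by
    rw [hz] at h1; linear_combination h1 - h
  rcases mul_eq_zero.1 h2 with h3 | h3
  · exact ⟨z, hz, sub_eq_zero.1 h3⟩
  · refine ⟨-z, by rw [Complex.cos_neg, hz], ?_⟩
    rw [Complex.sin_neg]; linear_combination -h3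

theorem rot_dot {a b : Fin 5} (h : a ≠ b) (z : ℂ) (u v : Fin 5 → ℂ) :
    (rotM a b z).mulVec u ⬝ᵥ (rotM a b z).mulVec v = u ⬝ᵥ v := by
  rw [Matrix.dotProduct_mulVec, ← Matrix.mulVec_transpose, Matrix.mulVec_mulVec,
    mul_eq_one_comm.1 (rotM_orth h z), Matrix.one_mulVec]

theorem rotM_mulVec_a {a b : Fin 5} (h : a ≠ b) (z : ℂ) (u : Fin 5 → ℂ) :
    (rotM a b z).mulVec u a = Complex.cos z * u a - Complex.sin z * u b := by
  rw [rotM_mulVec]; simp [h]; ring

theorem rotM_mulVec_b {a b : Fin 5} (h : a ≠ b) (z : ℂ) (u : Fin 5 → ℂ) :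
    (rotM a b z).mulVec u b = Complex.cos z * u b + Complex.sin z * u a := by
  rw [rotM_mulVec]; simp [h.symm]; ring

theorem rotM_mulVec_ne {a b i : Fin 5} (ha : i ≠ a) (hb : i ≠ b) (z : ℂ) (u : Fin 5 → ℂ) :
    (rotM a b z).mulVec u i = u i := by
  rw [rotM_mulVec]; simp [ha, hb]

theorem trans_unit (m : ℕ) (hm : m ≤ 3) (n : ℕ) : ∀ u : Fin 5 → ℂ,
    (∀ i : Fin 5, (i : ℕ) < m → u i = 0) → u ⬝ᵥ u = 1 →
    (Finset.univ.filter fun i => u i ≠ 0).card = n →
    ∃ k ∈ Subgroup.closure (rots m), (k : Matrix (Fin 5) (Fin 5) ℂ).mulVec u =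
      Pi.single (⟨m, by omega⟩ : Fin 5) 1 := by
  classical
  induction n using Nat.strong_induction_on with
  | _ n ih =>
    intro u hu huu hn
    by_cases hex : ∃ a b : Fin 5, a ≠ b ∧ u a ≠ 0 ∧ u b ≠ 0 ∧ u a ^ 2 + u b ^ 2 ≠ 0
    · obtain ⟨a, b, hab, ha, hb, hsum⟩ := hex
      obtain ⟨ρ, hρ⟩ := IsAlgClosed.exists_pow_nat_eq (u a ^ 2 + u b ^ 2) (n := 2) (by norm_num)
      have hρ0 : ρ ≠ 0 := by
        rintro rfl; apply hsum; rw [← hρ]; simp
      obtain ⟨z, hc, hs⟩ := exists_angle (u a / ρ) (-u b / ρ) (by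
        field_simp; rw [hρ])
      set u' := (rotM a b z).mulVec u with hu'
      have h1 : u' b = 0 := by
        rw [hu', rotM_mulVec_b hab, hc, hs]; ring
      have hma : m ≤ a := by
        by_contra h; exact ha (hu a (not_le.1 h))
      have hmb : m ≤ b := by
        by_contra h; exact hb (hu b (not_le.1 h))
      have hcard : (Finset.univ.filter fun i => u' i ≠ 0).card < n := by
        rw [← hn]
        apply Finset.card_lt_card
        rw [Finset.ssubset_iff_of_subset]
        · refine ⟨b, ?_, ?_⟩
          · simpa using hb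
          · simpa using h1
        · intro i hi
          simp only [Finset.mem_filter, Finset.mem_univ, true_and] at hi ⊢
          by_cases hia : i = a
          · rw [hia]; exact ha
          · have hib : i ≠ b := by rintro rfl; exact hi h1
            rwa [hu', rotM_mulVec_ne hia hib] at hi
      obtain ⟨k, hk, hku⟩ := ih _ hcard u' (by
        intro i hi
        have hia : i ≠ a := by rintro rfl; omega
        have hib : i ≠ b := by rintro rfl; omega
        rw [hu', rotM_mulVec_ne hia hib, hu i hi]) (by rw [hu', rot_dot hab, huu]) rfl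
      refine ⟨k * rot hab z, mul_mem hk (Subgroup.subset_closure ⟨a, b, hab, z, hma, hmb, rfl⟩), ?_⟩
      rw [Units.val_mul, rot_coe, ← Matrix.mulVec_mulVec, ← hu', hku]
    · push Not at hex
      -- at most one nonzero coordinate
      have huniq : ∀ a b : Fin 5, a ≠ b → u a ≠ 0 → u b = 0 := by
        intro a b hab ha
        by_contra hb
        have h1 := hex a b hab ha hb
        have h2 : ∀ c, c ≠ a → c ≠ b → u c = 0 := by
          intro c hca hcb
          by_contra hc
          have h3 := hex a c hca.symm ha hc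
          have h4 := hex b c hcb.symm hb hc
          apply ha
          have : u a ^ 2 * 2 = 0 := by linear_combination h1 + h3 - h4
          have := (mul_eq_zero.1 this).resolve_right two_ne_zero
          exact pow_eq_zero_iff (two_ne_zero) |>.1 this
        have h5 : u ⬝ᵥ u = u a ^ 2 + u b ^ 2 := by
          rw [dotProduct, ← Finset.add_sum_erase _ _ (Finset.mem_univ a),
            ← Finset.add_sum_erase _ _ (Finset.mem_erase.2 ⟨hab.symm, Finset.mem_univ b⟩),
            Finset.sum_eq_zero, add_zero]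
          · ring
          · intro c hc
            simp only [Finset.mem_erase, Finset.mem_univ, and_true] at hc
            rw [h2 c hc.2 hc.1, mul_zero]
        rw [h5, h1] at huu
        exact zero_ne_one huu
      have hex2 : ∃ a, u a ≠ 0 := by
        by_contra h
        push Not at h
        rw [dotProduct, Finset.sum_eq_zero] at huu
        · exact zero_ne_one huu
        · intro i _; rw [h i, mul_zero]
      obtain ⟨a, ha⟩ := hex2
      have hua : u = Pi.single a (u a) := by
        ext i
        by_cases hi : i = a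
        · subst hi; simp
        · rw [huniq a i (Ne.symm hi) ha]; simp [hi]
      have huaa : u a * u a = 1 := by
        rw [hua] at huu; simpa using huu
      have hma : m ≤ a := by
        by_contra h; exact ha (hu a (not_le.1 h))
      set M : Fin 5 := ⟨m, by omega⟩ with hM
      by_cases haM : a = M
      · rcases mul_self_eq_one_iff.1 huaa with h1 | h1
        · refine ⟨1, one_mem _, ?_⟩
          rw [Units.val_one, Matrix.one_mulVec, hua, haM.symm, h1]
        · set M' : Fin 5 := ⟨m + 1, by omega⟩ with hM'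
          have hMM : M ≠ M' := by simp [hM, hM']
          refine ⟨rot hMM Real.pi, Subgroup.subset_closure ⟨M, M', hMM, _, le_refl _, by simp [hM'],
            rfl⟩, ?_⟩
          rw [rot_coe]
          ext i
          by_cases hi : i = M
          · rw [hi, rotM_mulVec_a hMM, ← haM, h1]; simp
          · by_cases hi' : i = M'
            · rw [hi', rotM_mulVec_b hMM, huniq a M' (by rw [haM]; exact hMM) ha]
              simp [hMM.symm]
            · rw [rotM_mulVec_ne hi hi', huniq a i (by rw [haM]; exact Ne.symm hi) ha]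
              simp [hi]
      · obtain ⟨z, hc, hs⟩ := exists_angle 0 (-u a) (by linear_combination huaa)
        have hMa : M ≠ a := Ne.symm haM
        refine ⟨rot hMa z, Subgroup.subset_closure ⟨M, a, hMa, z, le_refl _, hma, rfl⟩, ?_⟩
        rw [rot_coe]
        ext i
        by_cases hi : i = M
        · rw [hi, rotM_mulVec_a hMa, hc, hs]; simp; linear_combination huaa
        · by_cases hi' : i = a
          · rw [hi', rotM_mulVec_b hMa, hc, hs, huniq a M haM ha]; simp [haM]
          · rw [rotM_mulVec_ne hi hi', huniq a i (Ne.symm hi') ha]; simp [hi]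

theorem rots_anti {m n : ℕ} (h : m ≤ n) : rots n ⊆ rots m := by
  rintro g ⟨a, b, hab, z, ha, hb, rfl⟩
  exact ⟨a, b, hab, z, h.trans ha, h.trans hb, rfl⟩

/-- elements of the group generated by `rots m` fix the first `m` basis vectors -/
theorem fix_of_mem (m : ℕ) (k : GL (Fin 5) ℂ) (hk : k ∈ Subgroup.closure (rots m)) (i : Fin 5)
    (hi : (i : ℕ) < m) : (k : Matrix (Fin 5) (Fin 5) ℂ).mulVec (Pi.single i 1) = Pi.single i 1 := by
  induction hk using Subgroup.closure_induction with
  | mem x hx =>
    obtain ⟨a, b, hab, z, ha, hb, rfl⟩ := hx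
    have hia : i ≠ a := by rintro rfl; omega
    have hib : i ≠ b := by rintro rfl; omega
    rw [rot_coe, rotM_mulVec]
    simp [hia.symm, hib.symm]
  | one => rw [Units.val_one, Matrix.one_mulVec]
  | mul x y _ _ hx hy => rw [Units.val_mul, ← Matrix.mulVec_mulVec, hy, hx]
  | inv x _ hx =>
    conv_lhs => rw [← hx]
    rw [Matrix.mulVec_mulVec, ← Units.val_mul, inv_mul_cancel, Units.val_one, Matrix.one_mulVec]

theorem rots_le_SOG (m : ℕ) : Subgroup.closure (rots m) ≤ SOG ℂ := by
  rw [Subgroup.closure_le]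
  rintro g ⟨a, b, hab, z, _, _, rfl⟩
  exact rot_mem hab z

/-- descending induction -/
theorem mem_closure_rots (d : ℕ) (hd : d ≤ 4) : ∀ g ∈ SOG ℂ,
    (∀ i : Fin 5, (i : ℕ) < 4 - d → (g : Matrix (Fin 5) (Fin 5) ℂ).mulVec (Pi.single i 1)
      = Pi.single i 1) → g ∈ Subgroup.closure (rots 0) := by
  induction d with
  | zero =>
    intro g hg hfix
    -- `g` fixes the first four basis vectors
    have hcol : ∀ i : Fin 5, (i : ℕ) < 4 → ∀ j, (g : Matrix (Fin 5) (Fin 5) ℂ) j i
        = if j = i then 1 else 0 := by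
      intro i hi j
      have := congrFun (hfix i (by omega)) j
      simpa [Pi.single_apply] using this
    have hg' := mul_eq_one_comm.1 hg.1
    have h4 : ∀ j : Fin 5, (j : ℕ) < 4 → (g : Matrix (Fin 5) (Fin 5) ℂ) j 4 = 0 := by
      intro j hj
      have := congrFun (congrFun hg' j) 4
      rw [Matrix.mul_apply, Finset.sum_eq_single j] at this
      · rw [Matrix.transpose_apply, hcol j hj j, if_pos rfl, one_mul] at this
        rw [this, Matrix.one_apply_ne]
        rintro rfl; simp at hj
      · intro k _ hk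
        rw [Matrix.transpose_apply, hcol j hj k, if_neg hk, zero_mul]
      · intro h; exact absurd (Finset.mem_univ _) h
    have hM : (g : Matrix (Fin 5) (Fin 5) ℂ) = Matrix.diagonal
        ![1, 1, 1, 1, (g : Matrix (Fin 5) (Fin 5) ℂ) 4 4] := by
      ext i j
      fin_cases j
      · rw [show (⟨0, _⟩ : Fin 5) = 0 from rfl, hcol 0 (by norm_num)]
        fin_cases i <;> simp [Matrix.diagonal]
      · simp only [Fin.mk_one]
        rw [hcol 1 (by norm_num)]
        fin_cases i <;> simp [Matrix.diagonal]
      · simp only [Fin.reduceFinMk]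
        rw [hcol 2 (by norm_num)]
        fin_cases i <;> simp [Matrix.diagonal]
      · simp only [Fin.reduceFinMk]
        rw [hcol 3 (by norm_num)]
        fin_cases i <;> simp [Matrix.diagonal]
      · simp only [Fin.reduceFinMk]
        fin_cases i
        · simpa [Matrix.diagonal] using h4 0 (by norm_num)
        · simpa [Matrix.diagonal] using h4 1 (by norm_num)
        · simpa [Matrix.diagonal] using h4 2 (by norm_num)
        · simpa [Matrix.diagonal] using h4 3 (by norm_num)
        · simp [Matrix.diagonal]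
    have h44 : (g : Matrix (Fin 5) (Fin 5) ℂ) 4 4 = 1 := by
      have := hg.2
      rw [hM, Matrix.det_diagonal] at this
      simpa [Fin.prod_univ_five] using this
    have : g = 1 := by
      ext1
      rw [hM, h44, Units.val_one]
      ext i j
      fin_cases i <;> fin_cases j <;> simp [Matrix.diagonal]
    rw [this]; exact one_mem _
  | succ d ih =>
    intro g hg hfix
    set m := 4 - (d + 1) with hm
    set M : Fin 5 := ⟨m, by omega⟩ with hM
    set u := (g : Matrix (Fin 5) (Fin 5) ℂ).mulVec (Pi.single M 1) with hu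
    have hdot : ∀ v w : Fin 5 → ℂ, (g : Matrix (Fin 5) (Fin 5) ℂ).mulVec v ⬝ᵥ
        (g : Matrix (Fin 5) (Fin 5) ℂ).mulVec w = v ⬝ᵥ w := by
      intro v w
      rw [Matrix.dotProduct_mulVec, ← Matrix.mulVec_transpose, Matrix.mulVec_mulVec,
        mul_eq_one_comm.1 hg.1, Matrix.one_mulVec]
    obtain ⟨k, hk, hku⟩ := trans_unit m (by omega) _ u (by
      intro i hi
      have h1 := hdot (Pi.single i 1) (Pi.single M 1)
      rw [hfix i (by omega), ← hu] at h1
      have hne : i ≠ M := by rintro rfl; simp [hM] at hi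
      simpa [hne] using h1) (by rw [hu, hdot]; simp) rfl
    have hk0 : k ∈ Subgroup.closure (rots 0) :=
      Subgroup.closure_mono (rots_anti (Nat.zero_le m)) hk
    have hkg : k * g ∈ Subgroup.closure (rots 0) := by
      apply ih (by omega) _ (mul_mem (rots_le_SOG m hk) hg)
      intro i hi
      rw [Units.val_mul, ← Matrix.mulVec_mulVec]
      by_cases him : (i : ℕ) < m
      · rw [hfix i (by omega), fix_of_mem m k hk i him]
      · have hiM : i = M := by
          apply Fin.ext
          simp only [hM]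
          omega
        rw [hiM, ← hu, hku]
    have : g = k⁻¹ * (k * g) := by group
    rw [this]
    exact mul_mem (inv_mem hk0) hkg

/-- `SO₅(ℂ)` is generated by the rotations in the coordinate planes. -/
theorem closure_rots : Subgroup.closure (rots 0) = SOG ℂ := by
  apply le_antisymm (rots_le_SOG 0)
  intro g hg
  exact mem_closure_rots 4 le_rfl g hg (by intro i hi; omega)

end Pool.Agent.TH16.WC
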