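import Mathlib
import Pool.Agent.TH16.WC.Rot
import Pool.Agent.TH16.WC.Gens

set_option autoImplicit false

/-! Zariski density via invariant derivations. -/

namespace Pool.Agent.TH16.WC

open Matrix MvPolynomial

/-- polynomial functions on `5 × 5` matrices -/
abbrev Pol := MvPolynomial (Fin 5 × Fin 5) ℂ

/-- evaluation at a matrix -/
noncomputable def evM (M : Matrix (Fin 5) (Fin 5) ℂ) : Pol →ₐ[ℂ] ℂ :=
  MvPolynomial.aeval (fun p => M p.1 p.2)

theorem evM_X (M : Matrix (Fin 5) (Fin 5) ℂ) (p : Fin 5 × Fin 5) : evM M (X p) = M p.1 p.2 := by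
  simp [evM]

/-- the left invariant derivation attached to `Y` -/
noncomputable def D (Y : Matrix (Fin 5) (Fin 5) ℂ) : Derivation ℂ Pol Pol :=
  MvPolynomial.mkDerivation ℂ (fun p => ∑ c, C (Y c p.2) * X (p.1, c))

theorem D_X (Y : Matrix (Fin 5) (Fin 5) ℂ) (p : Fin 5 × Fin 5) :
    D Y (X p) = ∑ c, C (Y c p.2) * X (p.1, c) := by
  simp [D, MvPolynomial.mkDerivation_X]

theorem evM_D_X (M Y : Matrix (Fin 5) (Fin 5) ℂ) (p : Fin 5 × Fin 5) :
    evM M (D Y (X p)) = (M * Y) p.1 p.2 := by
  rw [D_X, map_sum, Matrix.mul_apply]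
  refine Finset.sum_congr rfl fun c _ => ?_
  rw [map_mul, evM_X, mul_comm]
  simp [evM]

theorem D_add (Y Z : Matrix (Fin 5) (Fin 5) ℂ) : D (Y + Z) = D Y + D Z := by
  apply MvPolynomial.derivation_ext
  intro p
  rw [Derivation.add_apply, D_X, D_X, D_X, ← Finset.sum_add_distrib]
  refine Finset.sum_congr rfl fun c _ => ?_
  rw [Matrix.add_apply, map_add, add_mul]

theorem D_smul (a : ℂ) (Y : Matrix (Fin 5) (Fin 5) ℂ) : D (a • Y) = a • D Y := by
  apply MvPolynomial.derivation_ext
  intro p
  rw [Derivation.smul_apply, D_X, D_X, Finset.smul_sum]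
  refine Finset.sum_congr rfl fun c _ => ?_
  rw [Matrix.smul_apply, smul_eq_mul, map_mul, mul_assoc, MvPolynomial.smul_eq_C_mul]

theorem D_bracket (Y Z : Matrix (Fin 5) (Fin 5) ℂ) : D (Y * Z - Z * Y) = ⁅D Y, D Z⁆ := by
  apply MvPolynomial.derivation_ext
  intro p
  rw [Derivation.commutator_apply, D_X, D_X, D_X, map_sum, map_sum]
  have h : ∀ (Y Z : Matrix (Fin 5) (Fin 5) ℂ),
      ∑ c, D Y (C (Z c p.2) * X (p.1, c)) = ∑ c, C ((Y * Z) c p.2) * X (p.1, c) := by
    intro Y Z
    have h1 : ∀ c, D Y (C (Z c p.2) * X (p.1, c)) =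
        ∑ d, C (Y d c * Z c p.2) * X (p.1, d) := by
      intro c
      rw [Derivation.leibniz, MvPolynomial.derivation_C, smul_zero, add_zero, D_X, smul_eq_mul,
        Finset.mul_sum]
      refine Finset.sum_congr rfl fun d _ => ?_
      rw [map_mul]; ring
    simp only [h1]
    rw [Finset.sum_comm]
    refine Finset.sum_congr rfl fun d _ => ?_
    rw [Matrix.mul_apply, map_sum, Finset.sum_mul]
  rw [h, h, ← Finset.sum_sub_distrib]
  refine Finset.sum_congr rfl fun c _ => ?_
  rw [Matrix.sub_apply, map_sub, sub_mul]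

theorem hasDerivAt_evM (γ : ℂ → Matrix (Fin 5) (Fin 5) ℂ) (Y : Matrix (Fin 5) (Fin 5) ℂ) (z : ℂ)
    (hγ : ∀ a b, HasDerivAt (fun w => γ w a b) ((γ z * Y) a b) z) (f : Pol) :
    HasDerivAt (fun w => evM (γ w) f) (evM (γ z) (D Y f)) z := by
  induction f using MvPolynomial.induction_on with
  | C a =>
    have h1 : ∀ w, evM (γ w) (C a) = a := fun w => by simp [evM]
    simp only [h1, MvPolynomial.derivation_C, map_zero]
    exact hasDerivAt_const _ _
  | add p q hp hq =>
    simp only [map_add]
    exact hp.add hq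
  | mul_X p i hp =>
    have h2 := hγ i.1 i.2
    simp only [map_mul, evM_X, Derivation.leibniz, smul_eq_mul, map_add, evM_D_X]
    exact (hp.mul h2).congr_deriv (by ring)

/-- polynomials vanishing on a subgroup -/
def van (Δ : Subgroup (GL (Fin 5) ℂ)) : Set Pol :=
  {f | ∀ g ∈ Δ, evM (g : Matrix (Fin 5) (Fin 5) ℂ) f = 0}

/-- the Lie algebra of the Zariski closure -/
def hh (Δ : Subgroup (GL (Fin 5) ℂ)) : Submodule ℂ (Matrix (Fin 5) (Fin 5) ℂ) where
  carrier := {Y | ∀ f ∈ van Δ, D Y f ∈ van Δ}
  add_mem' := by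
    intro Y Z hY hZ f hf g hg
    rw [D_add, Derivation.add_apply, map_add, hY f hf g hg, hZ f hf g hg, add_zero]
  zero_mem' := by
    intro f hf g hg
    have : D 0 = 0 := by
      have := D_smul 0 0
      simpa using this
    rw [this]; simp
  smul_mem' := by
    intro a Y hY f hf g hg
    rw [D_smul, Derivation.smul_apply, map_smul, hY f hf g hg, smul_zero]

theorem hh_bracket {Δ : Subgroup (GL (Fin 5) ℂ)} {Y Z : Matrix (Fin 5) (Fin 5) ℂ}
    (hY : Y ∈ hh Δ) (hZ : Z ∈ hh Δ) : Y * Z - Z * Y ∈ hh Δ := by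
  intro f hf g hg
  rw [D_bracket, Derivation.commutator_apply, map_sub, hY _ (hZ f hf) g hg, hZ _ (hY f hf) g hg,
    sub_zero]

/-- derivative of the rotation -/
theorem hasDerivAt_rotM {a b : Fin 5} (h : a ≠ b) (A B E : Matrix (Fin 5) (Fin 5) ℂ) (z : ℂ)
    (hBA : B * E = 1) (i j : Fin 5) :
    HasDerivAt (fun w => (A * rotM a b w * B) i j) ((A * rotM a b z * B * (E * JJ a b * B)) i j) z := by
  have e1 : A * rotM a b z * B * (E * JJ a b * B) = -Complex.sin z • (A * PP a b * B)
      + Complex.cos z • (A * JJ a b * B) := by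
    have : A * rotM a b z * B * (E * JJ a b * B) = A * (rotM a b z * JJ a b) * B := by
      calc A * rotM a b z * B * (E * JJ a b * B) = A * rotM a b z * (B * E) * JJ a b * B := by
            simp only [Matrix.mul_assoc]
        _ = _ := by rw [hBA, Matrix.mul_one]; simp only [Matrix.mul_assoc]
    rw [this]
    have h2 : rotM a b z * JJ a b = -Complex.sin z • PP a b + Complex.cos z • JJ a b := by
      simp only [rotM, Matrix.add_mul, Matrix.one_mul, Matrix.smul_mul, PP_JJ h, JJ_sq h]
      module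
    rw [h2, Matrix.mul_add, Matrix.add_mul, Matrix.mul_smul, Matrix.smul_mul, Matrix.mul_smul,
      Matrix.smul_mul]
  have e2 : ∀ w, (A * rotM a b w * B) i j = (A * B) i j + (Complex.cos w - 1) * (A * PP a b * B) i j
      + Complex.sin w * (A * JJ a b * B) i j := by
    intro w
    simp only [rotM, Matrix.mul_add, Matrix.add_mul, Matrix.mul_one, Matrix.mul_smul,
      Matrix.smul_mul, Matrix.add_apply, Matrix.smul_apply, smul_eq_mul]
  simp only [e2]
  rw [e1]
  simp only [Matrix.add_apply, Matrix.smul_apply, smul_eq_mul]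
  have hc := ((Complex.hasDerivAt_cos z).sub_const 1).mul_const ((A * PP a b * B) i j)
  have hs := (Complex.hasDerivAt_sin z).mul_const ((A * JJ a b * B) i j)
  exact (hc.const_add ((A * B) i j)).add hs

/-- If all `JJ a b` belong to the Lie algebra, the subgroup is Zariski dense. -/
theorem dense_of_JJ (Δ : Subgroup (GL (Fin 5) ℂ))
    (h : ∀ a b : Fin 5, a ≠ b → JJ a b ∈ hh Δ) (f : Pol) (hf : f ∈ van Δ) :
    ∀ g ∈ SOG ℂ, evM (g : Matrix (Fin 5) (Fin 5) ℂ) f = 0 := by
  have key : ∀ g ∈ Subgroup.closure (rots 0), ∀ f ∈ van Δ,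
      evM (g : Matrix (Fin 5) (Fin 5) ℂ) f = 0 := by
    have step : ∀ g : GL (Fin 5) ℂ, (∀ f ∈ van Δ, evM (g : Matrix (Fin 5) (Fin 5) ℂ) f = 0) →
        ∀ (a b : Fin 5) (hab : a ≠ b) (z : ℂ), ∀ f ∈ van Δ,
        evM ((g * rot hab z : GL (Fin 5) ℂ) : Matrix (Fin 5) (Fin 5) ℂ) f = 0 := by
      intro g hg a b hab z f hf
      set A : Matrix (Fin 5) (Fin 5) ℂ := (g : Matrix (Fin 5) (Fin 5) ℂ) with hA
      let γ : ℂ → Matrix (Fin 5) (Fin 5) ℂ := fun w => A * rotM a b w
      have hγ : ∀ w i j, HasDerivAt (fun w => γ w i j) ((γ w * JJ a b) i j) w := by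
        intro w i j
        have e1 : γ w * JJ a b = A * (-Complex.sin w • PP a b + Complex.cos w • JJ a b) := by
          have h2 : rotM a b w * JJ a b = -Complex.sin w • PP a b + Complex.cos w • JJ a b := by
            simp only [rotM, Matrix.add_mul, Matrix.one_mul, Matrix.smul_mul, PP_JJ hab, JJ_sq hab]
            module
          simp only [γ, Matrix.mul_assoc, h2]
        have e2 : ∀ w, γ w i j = A i j + (Complex.cos w - 1) * (A * PP a b) i j
            + Complex.sin w * (A * JJ a b) i j := by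
          intro w
          simp only [γ, rotM, Matrix.mul_add, Matrix.mul_one, Matrix.mul_smul,
            Matrix.add_apply, Matrix.smul_apply, smul_eq_mul]
        simp only [e2]
        rw [e1]
        simp only [Matrix.mul_add, Matrix.mul_smul, Matrix.add_apply, Matrix.smul_apply,
          smul_eq_mul]
        have hc := ((Complex.hasDerivAt_cos w).sub_const 1).mul_const ((A * PP a b) i j)
        have hs := (Complex.hasDerivAt_sin w).mul_const ((A * JJ a b) i j)
        exact (hc.const_add (A i j)).add hs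
      have hd : ∀ f : Pol, ∀ w, HasDerivAt (fun w => evM (γ w) f) (evM (γ w) (D (JJ a b) f)) w :=
        fun f w => hasDerivAt_evM γ (JJ a b) w (hγ w) f
      have hit : ∀ n : ℕ, ∀ f ∈ van Δ, iteratedDeriv n (fun w => evM (γ w) f) 0 = 0 := by
        intro n
        induction n with
        | zero =>
          intro f hf
          rw [iteratedDeriv_zero]
          simp only [γ, rotM_zero, Matrix.mul_one]
          exact hg f hf
        | succ n ih =>
          intro f hf
          rw [iteratedDeriv_succ']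
          have : deriv (fun w => evM (γ w) f) = fun w => evM (γ w) (D (JJ a b) f) := by
            ext w; exact (hd f w).deriv
          rw [this]
          exact ih _ (h a b hab f hf)
      have hdiff : Differentiable ℂ (fun w => evM (γ w) f) := fun w => (hd f w).differentiableAt
      have hsum := Complex.hasSum_taylorSeries_of_entire hdiff 0 z
      have hz : (fun n : ℕ => ((n.factorial : ℂ))⁻¹ • (z - 0) ^ n •
          iteratedDeriv n (fun w => evM (γ w) f) 0) = fun _ => 0 := by
        ext n; rw [hit n f hf]; simp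
      rw [hz] at hsum
      have := hsum.unique hasSum_zero
      rw [Units.val_mul, rot_coe]
      exact this
    intro g hg
    induction hg using Subgroup.closure_induction_right with
    | one => intro f hf; exact hf 1 (one_mem _)
    | mul_right x _ y hy ih =>
      obtain ⟨a, b, hab, z, -, -, rfl⟩ := hy
      exact step _ ih a b hab z
    | mul_inv_cancel x _ y hy ih =>
      obtain ⟨a, b, hab, z, -, -, rfl⟩ := hy
      rw [rot_inv]
      exact step _ ih a b hab (-z)
  intro g hg
  rw [← closure_rots] at hg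
  exact key g hg f hf

end Pool.Agent.TH16.WC
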