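import Mathlib
import Pool.Agent.TH16.WC.Zar

set_option autoImplicit false

/-! Lie algebra elements from powers of rotations. -/

namespace Pool.Agent.TH16.WC

open Matrix

/-- the map `GL₅(ℚ) → GL₅(ℂ)` -/
noncomputable def cmap : GL (Fin 5) ℚ →* GL (Fin 5) ℂ :=
  Matrix.GeneralLinearGroup.map (algebraMap ℚ ℂ)

theorem cmap_coe (g : GL (Fin 5) ℚ) :
    ((cmap g : GL (Fin 5) ℂ) : Matrix (Fin 5) (Fin 5) ℂ)
      = (g : Matrix (Fin 5) (Fin 5) ℚ).map (algebraMap ℚ ℂ) := rfl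

theorem cmap_mem {g : GL (Fin 5) ℚ} (hg : g ∈ SOG ℚ) : cmap g ∈ SOG ℂ := by
  constructor
  · rw [cmap_coe, ← Matrix.transpose_map, ← Matrix.map_mul, hg.1]; simp
  · have := RingHom.map_det (algebraMap ℚ ℂ) (g : Matrix (Fin 5) (Fin 5) ℚ)
    rw [hg.2, map_one] at this
    rw [cmap_coe]; exact this.symm

theorem cmap_injective : Function.Injective cmap := by
  intro g h hgh
  ext i j
  have := congrArg (fun x : GL (Fin 5) ℂ => (x : Matrix (Fin 5) (Fin 5) ℂ) i j) hgh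
  simpa [cmap_coe] using this

/-- rotation with eigenvalue `w` -/
noncomputable def RL (a b : Fin 5) (w : ℂ) : Matrix (Fin 5) (Fin 5) ℂ :=
  1 + ((w + w⁻¹) / 2 - 1) • PP a b + ((w - w⁻¹) / (2 * Complex.I)) • JJ a b

theorem RL_mul {a b : Fin 5} (h : a ≠ b) {w w' : ℂ} (hw : w ≠ 0) (hw' : w' ≠ 0) :
    RL a b w * RL a b w' = RL a b (w * w') := by
  simp only [RL, Matrix.mul_add, Matrix.add_mul, Matrix.mul_one, Matrix.one_mul,
    Matrix.smul_mul, Matrix.mul_smul, PP_sq h, PP_JJ h, JJ_PP h, JJ_sq h, smul_neg]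
  have hI := Complex.I_mul_I
  have hI0 := Complex.I_ne_zero
  have e1 : (w * w' + (w * w')⁻¹) / 2 = ((w + w⁻¹) / 2) * ((w' + w'⁻¹) / 2) -
      ((w - w⁻¹) / (2 * Complex.I)) * ((w' - w'⁻¹) / (2 * Complex.I)) := by
    field_simp
    rw [Complex.I_sq]; ring
  have e2 : (w * w' - (w * w')⁻¹) / (2 * Complex.I) =
      ((w + w⁻¹) / 2) * ((w' - w'⁻¹) / (2 * Complex.I)) +
      ((w - w⁻¹) / (2 * Complex.I)) * ((w' + w'⁻¹) / 2) := by
    field_simp
    ring
  rw [e1, e2]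
  module

theorem RL_one (a b : Fin 5) : RL a b 1 = 1 := by simp [RL]

theorem RL_exp (a b : Fin 5) (z : ℂ) : RL a b (Complex.exp (z * Complex.I)) = rotM a b z := by
  have h1 : (Complex.exp (z * Complex.I) + (Complex.exp (z * Complex.I))⁻¹) / 2 = Complex.cos z := by
    rw [← Complex.exp_neg, Complex.cos, neg_mul]
  have h2 : (Complex.exp (z * Complex.I) - (Complex.exp (z * Complex.I))⁻¹) / (2 * Complex.I)
      = Complex.sin z := by
    rw [← Complex.exp_neg, Complex.sin, neg_mul]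
    field_simp
    rw [Complex.I_sq]; ring
  rw [RL, rotM, h1, h2]

/-- the eigenvalue of `s` -/
noncomputable def w0 : ℂ := (3 + 4 * Complex.I) / 5

theorem w0_inv : w0⁻¹ = (3 - 4 * Complex.I) / 5 := by
  apply inv_eq_of_mul_eq_one_right
  rw [w0]; linear_combination (-16 / 25) * Complex.I_mul_I

theorem w0_ne : w0 ≠ 0 := by
  intro h
  have := w0_inv
  rw [h, _root_.inv_zero] at this
  have h2 := congrArg Complex.re this
  simp at h2
  norm_num at h2

theorem s_map : (s : Matrix (Fin 5) (Fin 5) ℚ).map (algebraMap ℚ ℂ) = RL 0 2 w0 := by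
  have h1 : (w0 + w0⁻¹) / 2 = 3 / 5 := by rw [w0_inv, w0]; ring
  have h2 : (w0 - w0⁻¹) / (2 * Complex.I) = 4 / 5 := by
    rw [w0_inv, w0]; field_simp; ring
  rw [RL, h1, h2]
  ext i j
  simp only [s, mkG, ofInt, Matrix.map_apply, PP, JJ, Matrix.add_apply, Matrix.smul_apply,
    Matrix.sub_apply, Matrix.single_apply, Matrix.one_apply, sZ]
  fin_cases i <;> fin_cases j <;> simp [Fin.ext_iff] <;> norm_num

theorem s_pow_map (k : ℕ) : ((cmap (s ^ k) : GL (Fin 5) ℂ) : Matrix (Fin 5) (Fin 5) ℂ)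
    = RL 0 2 (w0 ^ k) := by
  induction k with
  | zero => simp [RL_one]
  | succ k ih =>
    rw [pow_succ, map_mul, Units.val_mul, ih, pow_succ, ← RL_mul (by decide) (pow_ne_zero k w0_ne)
      w0_ne]
    congr 1
    exact s_map

/-- eigenvectors of `s` -/
noncomputable def up : V := ![1, 0, -io, 0, 0]
noncomputable def um : V := ![1, 0, io, 0, 0]

theorem act_s_up : act s up = lam • up := by
  ext a
  rw [act_s]
  simp only [sZ, Fin.sum_univ_five, up, lam]
  fin_cases a <;> simp <;> first | ring1 | linear_combination (4 / 5) * io_mul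

theorem act_s_um : act s um = lam⁻¹ • um := by
  rw [lam_inv]
  ext a
  rw [act_s]
  simp only [sZ, Fin.sum_univ_five, um]
  fin_cases a <;> simp <;> first | ring1 | linear_combination (4 / 5) * io_mul

theorem lam_pow_injective : Function.Injective (fun k : ℕ => lam ^ k) := by
  intro k l h
  have h1 := congrArg norm h
  simp only [norm_pow, norm_lam] at h1
  exact pow_right_injective₀ (by norm_num : (0 : ℝ) < 5) (by norm_num) h1

theorem w0_pow_injective : Function.Injective (fun k : ℕ => w0 ^ k) := by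
  intro k l h
  simp only at h
  have h1 : cmap (s ^ k) = cmap (s ^ l) := by
    ext1; rw [s_pow_map, s_pow_map, h]
  have h2 := cmap_injective h1
  have h3 : act (s ^ k) up = act (s ^ l) up := by rw [h2]
  rw [act_pow_eigen s up _ act_s_up, act_pow_eigen s up _ act_s_up] at h3
  have h4 := congrFun h3 0
  simp only [up, Pi.smul_apply, smul_eq_mul] at h4
  simp only [Matrix.cons_val_zero, mul_one] at h4
  exact lam_pow_injective h4

/-- Laurent polynomial expansions -/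
theorem laurent (A0 A1 A2 : Matrix (Fin 5) (Fin 5) ℂ) (f : Pol) :
    ∃ (d : ℕ) (G : Polynomial ℂ), ∀ w : ℂ, w ≠ 0 →
      evM (A0 + w • A1 + w⁻¹ • A2) f * w ^ d = G.eval w := by
  induction f using MvPolynomial.induction_on with
  | C a => exact ⟨0, Polynomial.C a, fun w _ => by simp [evM]⟩
  | add p q hp hq =>
    obtain ⟨d1, G1, h1⟩ := hp
    obtain ⟨d2, G2, h2⟩ := hq
    refine ⟨d1 + d2, G1 * Polynomial.X ^ d2 + G2 * Polynomial.X ^ d1, fun w hw => ?_⟩
    rw [map_add, Polynomial.eval_add, Polynomial.eval_mul, Polynomial.eval_mul, ← h1 w hw,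
      ← h2 w hw]
    simp only [Polynomial.eval_pow, Polynomial.eval_X]
    ring
  | mul_X p i hp =>
    obtain ⟨d, G, h⟩ := hp
    refine ⟨d + 1, G * (Polynomial.C (A0 i.1 i.2) * Polynomial.X + Polynomial.C (A1 i.1 i.2) *
      Polynomial.X ^ 2 + Polynomial.C (A2 i.1 i.2)), fun w hw => ?_⟩
    rw [map_mul, evM_X, Polynomial.eval_mul, ← h w hw]
    simp only [Polynomial.eval_add, Polynomial.eval_mul, Polynomial.eval_C, Polynomial.eval_X,
      Polynomial.eval_pow, Matrix.add_apply, Matrix.smul_apply, smul_eq_mul]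
    field_simp
    ring

theorem eq_zero_of_laurent (A0 A1 A2 : Matrix (Fin 5) (Fin 5) ℂ) (f : Pol) (e : ℕ) (he : 0 < e)
    (h : ∀ k : ℕ, evM (A0 + (w0 ^ (e * k)) • A1 + (w0 ^ (e * k))⁻¹ • A2) f = 0) (w : ℂ)
    (hw : w ≠ 0) : evM (A0 + w • A1 + w⁻¹ • A2) f = 0 := by
  obtain ⟨d, G, hG⟩ := laurent A0 A1 A2 f
  have hG0 : G = 0 := by
    apply Polynomial.eq_zero_of_infinite_isRoot
    apply Set.infinite_of_injective_forall_mem (f := fun k : ℕ => w0 ^ (e * k))
    · intro k l hkl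
      have := w0_pow_injective hkl
      exact Nat.eq_of_mul_eq_mul_left he this
    · intro k
      have h1 := hG (w0 ^ (e * k)) (pow_ne_zero _ w0_ne)
      rw [h k, zero_mul] at h1
      exact h1.symm
  have h2 := hG w hw
  rw [hG0, Polynomial.eval_zero] at h2
  exact (mul_eq_zero.1 h2).resolve_right (pow_ne_zero _ hw)

/-- **From powers of rotations to the Lie algebra.** -/
theorem JJ_mem_hh (Δ : Subgroup (GL (Fin 5) ℂ)) (h : GL (Fin 5) ℂ) (e : ℕ) (he : 0 < e)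
    (hΔ : h * cmap (s ^ e) * h⁻¹ ∈ Δ) :
    (h : Matrix (Fin 5) (Fin 5) ℂ) * JJ 0 2 * ((h⁻¹ : GL (Fin 5) ℂ) : Matrix (Fin 5) (Fin 5) ℂ)
      ∈ hh Δ := by
  intro f hf g hg
  set A : Matrix (Fin 5) (Fin 5) ℂ := (g : Matrix (Fin 5) (Fin 5) ℂ) * h with hA
  set B : Matrix (Fin 5) (Fin 5) ℂ := ((h⁻¹ : GL (Fin 5) ℂ) : Matrix (Fin 5) (Fin 5) ℂ) with hB
  -- the Laurent family
  have hfam : ∀ w : ℂ, A * RL 0 2 w * B = (A * (1 - PP 0 2) * B) +
      w • (A * ((2 : ℂ)⁻¹ • PP 0 2 + (2 * Complex.I)⁻¹ • JJ 0 2) * B) +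
      w⁻¹ • (A * ((2 : ℂ)⁻¹ • PP 0 2 - (2 * Complex.I)⁻¹ • JJ 0 2) * B) := by
    intro w
    have e1 : RL 0 2 w = (1 - PP 0 2) + w • ((2 : ℂ)⁻¹ • PP 0 2 + (2 * Complex.I)⁻¹ • JJ 0 2) +
        w⁻¹ • ((2 : ℂ)⁻¹ • PP 0 2 - (2 * Complex.I)⁻¹ • JJ 0 2) := by
      rw [RL]; module
    rw [e1]
    simp only [Matrix.mul_add, Matrix.add_mul, Matrix.mul_smul, Matrix.smul_mul, Matrix.mul_sub,
      Matrix.sub_mul]
  have hzero : ∀ w : ℂ, w ≠ 0 → evM (A * RL 0 2 w * B) f = 0 := by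
    intro w hw
    rw [hfam]
    apply eq_zero_of_laurent _ _ _ f e he _ w hw
    intro k
    rw [← hfam]
    have hk : g * (h * cmap (s ^ e) * h⁻¹) ^ k ∈ Δ := mul_mem hg (pow_mem hΔ k)
    have := hf _ hk
    rw [conj_pow, ← map_pow, ← pow_mul, Units.val_mul, Units.val_mul, Units.val_mul, s_pow_map,
      ← Matrix.mul_assoc, ← Matrix.mul_assoc] at this
    exact this
  have hrot : ∀ z : ℂ, evM (A * rotM 0 2 z * B) f = 0 := by
    intro z
    rw [← RL_exp]
    exact hzero _ (Complex.exp_ne_zero _)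
  have hBE : B * (h : Matrix (Fin 5) (Fin 5) ℂ) = 1 := by
    rw [hB, ← Units.val_mul, inv_mul_cancel, Units.val_one]
  have hd := hasDerivAt_evM (fun w => A * rotM 0 2 w * B)
    ((h : Matrix (Fin 5) (Fin 5) ℂ) * JJ 0 2 * B) 0
    (fun i j => hasDerivAt_rotM (by decide) A B _ 0 hBE i j) f
  have h0 : (fun w => evM (A * rotM 0 2 w * B) f) = fun _ => 0 := by
    ext z; exact hrot z
  rw [h0] at hd
  have h1 := hd.unique (hasDerivAt_const (0 : ℂ) (0 : ℂ))
  have h2 : A * rotM 0 2 0 * B = (g : Matrix (Fin 5) (Fin 5) ℂ) := by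
    rw [rotM_zero, Matrix.mul_one, hA, Matrix.mul_assoc, hB, ← Units.val_mul h, mul_inv_cancel,
      Units.val_one, Matrix.mul_one]
  rw [h2] at h1
  exact h1

end Pool.Agent.TH16.WC
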