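import Mathlib
import Pool.Agent.TH16.WC.Zar2

set_option autoImplicit false

/-! The translates of the plane `(0,2)` span enough directions. -/

namespace Pool.Agent.TH16.WC

open Matrix

theorem norm_two_inv : ‖(2⁻¹ : ℚ_[5])‖ = 1 := by rw [norm_inv, norm_two, inv_one]

/-- dominance of the growing term -/
theorem norm_dom (A B : ℚ_[5]) (n : ℕ) (h : ‖B‖ < ‖A‖ * 5 ^ n) :
    ‖A * lam ^ n + B * lam⁻¹ ^ n‖ = ‖A‖ * 5 ^ n := by
  have h1 : ‖A * lam ^ n‖ = ‖A‖ * 5 ^ n := by rw [norm_mul, norm_pow, norm_lam]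
  have h2 : ‖B * lam⁻¹ ^ n‖ ≤ ‖B‖ := by
    rw [norm_mul, norm_pow, norm_inv, norm_lam]
    have : (5⁻¹ : ℝ) ^ n ≤ 1 := pow_le_one₀ (by norm_num) (by norm_num)
    exact mul_le_of_le_one_right (norm_nonneg _) this
  rw [IsUltrametricDist.norm_add_eq_max_of_norm_ne_norm, h1, max_eq_left (by linarith)]
  rw [h1]; linarith

theorem norm_sum_lam (m : ℕ) (hm : 1 ≤ m) : ‖lam ^ m + lam⁻¹ ^ m‖ = 5 ^ m := by
  have := norm_dom 1 1 m (by
    rw [norm_one, one_mul]; exact one_lt_pow₀ (by norm_num) (by omega))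
  simpa using this

theorem norm_diff_lam (m : ℕ) (hm : 1 ≤ m) : ‖lam ^ m - lam⁻¹ ^ m‖ = 5 ^ m := by
  have := norm_dom 1 (-1) m (by
    rw [norm_neg, norm_one, one_mul]; exact one_lt_pow₀ (by norm_num) (by omega))
  simpa [sub_eq_add_neg] using this

/-- the rational numbers contain no square root of `-1` -/
theorem rat_io {x y : ℚ} (h : (x : ℚ_[5]) - io * y = 0) : x = 0 ∧ y = 0 := by
  have h1 : (x : ℚ_[5]) ^ 2 + y ^ 2 = 0 := by
    have : (x : ℚ_[5]) = io * y := by linear_combination h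
    rw [this]; linear_combination (y : ℚ_[5]) ^ 2 * io_mul
  have h2 : x ^ 2 + y ^ 2 = 0 := by exact_mod_cast h1
  constructor
  · nlinarith [sq_nonneg x, sq_nonneg y]
  · nlinarith [sq_nonneg x, sq_nonneg y]

/-- the first basis vector of `ℚ₅⁵` -/
noncomputable def e0 : V := ![1, 0, 0, 0, 0]

theorem e0_eq : e0 = (2⁻¹ : ℚ_[5]) • (xp + xm) := by
  ext a
  fin_cases a <;> simp [e0, xp, xm] <;> norm_num

theorem xm_decomp : xm = (2⁻¹ : ℚ_[5]) • (pp + pm) + (io * 2⁻¹) • (qp + qm) := by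
  ext a
  fin_cases a <;> simp [xm, pp, pm, qp, qm]
  · norm_num
  · ring

theorem act_h_e0 (n m : ℕ) : act (r ^ n * t ^ m) e0 =
    (2⁻¹ * 2⁻¹ * (lam ^ m + lam⁻¹ ^ m)) • (lam ^ n • pp + lam⁻¹ ^ n • pm) +
    (-io * 2⁻¹ * 2⁻¹ * (lam ^ m - lam⁻¹ ^ m)) • ((lam ^ 2) ^ n • qp + (lam⁻¹ ^ 2) ^ n • qm) := by
  have h1 := act_pow_eigen r pp _ act_r_pp n
  have h2 := act_pow_eigen r pm _ act_r_pm n
  have h3 := act_pow_eigen r qp _ act_r_qp n
  have h4 := act_pow_eigen r qm _ act_r_qm n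
  have h5 := act_pow_eigen t xp _ act_t_xp m
  have h6 := act_pow_eigen t xm _ act_t_xm m
  rw [act_mul, e0_eq, act_smul, act_add, h5, h6, act_smul, act_add, act_smul, act_smul,
    xp_decomp, xm_decomp]
  simp only [act_add, act_smul, h1, h2, h3, h4]
  module

theorem act_e0 (g : GL (Fin 5) ℚ) (a : Fin 5) :
    act g e0 a = (((g : Matrix (Fin 5) (Fin 5) ℚ) a 0 : ℚ) : ℚ_[5]) := by
  simp [act, e0, Matrix.mulVec, dotProduct, Fin.sum_univ_five]

theorem span_eq (φ : Fin 5 → ℚ) (n m : ℕ)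
    (h : ∑ a, φ a * ((r ^ n * t ^ m : GL (Fin 5) ℚ) : Matrix (Fin 5) (Fin 5) ℚ) a 0 = 0) :
    (lam ^ m + lam⁻¹ ^ m) * (((φ 0 : ℚ_[5]) - io * φ 3) * lam ^ n +
      ((φ 0 : ℚ_[5]) + io * φ 3) * lam⁻¹ ^ n) =
    io * (lam ^ m - lam⁻¹ ^ m) * (((φ 1 : ℚ_[5]) - io * φ 4) * lam ^ (2 * n) +
      ((φ 1 : ℚ_[5]) + io * φ 4) * lam⁻¹ ^ (2 * n)) := by
  have h1 : (∑ a, (φ a : ℚ_[5]) * act (r ^ n * t ^ m) e0 a) = 0 := by
    simp only [act_e0]
    exact_mod_cast congrArg (fun q : ℚ => (q : ℚ_[5])) h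
  rw [act_h_e0] at h1
  simp only [Fin.sum_univ_five, Pi.add_apply, Pi.smul_apply, smul_eq_mul, pp, pm, qp, qm] at h1
  simp at h1
  have h2 : (2⁻¹ : ℚ_[5]) ≠ 0 := by norm_num
  have e1 : lam ^ (2 * n) = (lam ^ 2) ^ n := pow_mul _ _ _
  have e2 : lam⁻¹ ^ (2 * n) = (lam⁻¹ ^ 2) ^ n := pow_mul _ _ _
  rw [e1, e2]
  have h3 : (4 : ℚ_[5]) ≠ 0 := by norm_num
  simp only [inv_pow] at h1 ⊢
  linear_combination 4 * h1

/-- The vectors `r^n t^m e₀` for unboundedly many `n` and `m ≥ 1` span `e₂^⊥`. -/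
theorem span_aux (φ : Fin 5 → ℚ) (n m : ℕ → ℕ) (hn : ∀ N, ∃ i, N ≤ n i) (hm : ∀ i, 1 ≤ m i)
    (h : ∀ i, ∑ a, φ a * ((r ^ n i * t ^ m i : GL (Fin 5) ℚ) : Matrix (Fin 5) (Fin 5) ℚ) a 0 = 0) :
    φ 0 = 0 ∧ φ 1 = 0 ∧ φ 3 = 0 ∧ φ 4 = 0 := by
  set Ap : ℚ_[5] := (φ 0 : ℚ_[5]) - io * φ 3 with hAp
  set Am : ℚ_[5] := (φ 0 : ℚ_[5]) + io * φ 3 with hAm
  set Bp : ℚ_[5] := (φ 1 : ℚ_[5]) - io * φ 4 with hBp
  set Bm : ℚ_[5] := (φ 1 : ℚ_[5]) + io * φ 4 with hBm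
  have key : ∀ i, ‖Ap * lam ^ n i + Am * lam⁻¹ ^ n i‖
      = ‖Bp * lam ^ (2 * n i) + Bm * lam⁻¹ ^ (2 * n i)‖ := by
    intro i
    have h1 := congrArg norm (span_eq φ (n i) (m i) (h i))
    rw [norm_mul, norm_mul, norm_mul, norm_io, norm_sum_lam _ (hm i), norm_diff_lam _ (hm i),
      one_mul] at h1
    exact mul_left_cancel₀ (by positivity) h1
  have big : ∀ x : ℝ, ∃ N : ℕ, ∀ k, N ≤ k → x < 5 ^ k := by
    intro x
    obtain ⟨N, hN⟩ := pow_unbounded_of_one_lt x (by norm_num : (1 : ℝ) < 5)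
    exact ⟨N, fun k hk => hN.trans_le (pow_le_pow_right₀ (by norm_num) hk)⟩
  have domA : Ap ≠ 0 → ∃ N, ∀ i, N ≤ n i →
      ‖Ap * lam ^ n i + Am * lam⁻¹ ^ n i‖ = ‖Ap‖ * 5 ^ n i := by
    intro hA
    have hpos : 0 < ‖Ap‖ := norm_pos_iff.2 hA
    obtain ⟨N, hN⟩ := big (‖Am‖ / ‖Ap‖)
    refine ⟨N, fun i hi => norm_dom _ _ _ ?_⟩
    have := hN (n i) hi
    rwa [div_lt_iff₀ hpos, mul_comm] at this
  have domB : Bp ≠ 0 → ∃ N, ∀ i, N ≤ n i →
      ‖Bp * lam ^ (2 * n i) + Bm * lam⁻¹ ^ (2 * n i)‖ = ‖Bp‖ * 5 ^ (2 * n i) := by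
    intro hB
    have hpos : 0 < ‖Bp‖ := norm_pos_iff.2 hB
    obtain ⟨N, hN⟩ := big (‖Bm‖ / ‖Bp‖)
    refine ⟨N, fun i hi => norm_dom _ _ _ ?_⟩
    have := hN (2 * n i) (by omega)
    rwa [div_lt_iff₀ hpos, mul_comm] at this
  by_cases hA : Ap = 0
  · obtain ⟨h0, h3⟩ := rat_io hA
    by_cases hB : Bp = 0
    · obtain ⟨h1, h4⟩ := rat_io hB
      exact ⟨h0, h1, h3, h4⟩
    · exfalso
      obtain ⟨N, hN⟩ := domB hB
      obtain ⟨i, hi⟩ := hn N
      have h1 := key i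
      rw [hN i hi, hA, hAm, h0, h3] at h1
      simp at h1
      exact hB h1
  · exfalso
    obtain ⟨N, hN⟩ := domA hA
    by_cases hB : Bp = 0
    · obtain ⟨h1, h4⟩ := rat_io hB
      obtain ⟨i, hi⟩ := hn N
      have h2 := key i
      rw [hN i hi, hB, hBm, h1, h4] at h2
      simp at h2
      exact hA h2
    · obtain ⟨N', hN'⟩ := domB hB
      have hpos : 0 < ‖Bp‖ := norm_pos_iff.2 hB
      obtain ⟨N'', hN''⟩ := big (‖Ap‖ / ‖Bp‖)
      obtain ⟨i, hi⟩ := hn (N + N' + N'')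
      have h2 := key i
      rw [hN i (by omega), hN' i (by omega)] at h2
      have h3 := hN'' (n i) (by omega)
      rw [div_lt_iff₀ hpos, mul_comm] at h3
      have h5 : (0 : ℝ) < 5 ^ n i := by positivity
      have h6 : (5 : ℝ) ^ (2 * n i) = 5 ^ n i * 5 ^ n i := by rw [two_mul, pow_add]
      rw [h6] at h2
      have h7 : ‖Ap‖ = ‖Bp‖ * 5 ^ n i := by
        apply mul_right_cancel₀ h5.ne'
        rw [h2]; ring
      linarith

/-- the map `v ↦ e₂ vᵀ - v e₂ᵀ` -/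
noncomputable def Psi (v : Fin 5 → ℂ) : Matrix (Fin 5) (Fin 5) ℂ :=
  Matrix.vecMulVec (Pi.single 2 1) v - Matrix.vecMulVec v (Pi.single 2 1)

theorem Psi_apply (v : Fin 5 → ℂ) (i j : Fin 5) :
    Psi v i j = (if i = 2 then v j else 0) - (if j = 2 then v i else 0) := by
  simp only [Psi, Matrix.sub_apply, Matrix.vecMulVec_apply, Pi.single_apply]
  split_ifs <;> simp

theorem Psi_single {a : Fin 5} (ha : a ≠ 2) : Psi (Pi.single a 1) = JJ a 2 := by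
  ext i j
  simp only [Psi_apply, JJ, Matrix.sub_apply, Matrix.single_apply, Pi.single_apply]
  by_cases h1 : i = 2 <;> by_cases h2 : j = a <;> by_cases h3 : j = 2 <;> by_cases h4 : i = a <;>
    simp_all [eq_comm]

theorem JJ_bracket {a b : Fin 5} (ha : a ≠ 2) (hb : b ≠ 2) (hab : a ≠ b) :
    JJ a 2 * JJ b 2 - JJ b 2 * JJ a 2 = JJ a b := by
  have e : ∀ a b : Fin 5, a ≠ 2 → b ≠ 2 → a ≠ b → JJ a 2 * JJ b 2 = -Matrix.single a b 1 := by
    intro a b ha hb hab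
    simp only [JJ, Matrix.mul_sub, Matrix.sub_mul, Matrix.single_mul_single_same, mul_one]
    rw [Matrix.single_mul_single_of_ne _ _ _ _ ha, Matrix.single_mul_single_of_ne _ _ _ _ hab,
      Matrix.single_mul_single_of_ne _ _ _ _ hb.symm]
    simp
  rw [e a b ha hb hab, e b a hb ha hab.symm, JJ]
  abel

/-- conjugates of `JJ 0 2` -/
theorem conj_JJ {h : GL (Fin 5) ℚ} (hh : h ∈ SOG ℚ)
    (h2 : ∀ a, (h : Matrix (Fin 5) (Fin 5) ℚ) a 2 = if a = 2 then 1 else 0) :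
    ((cmap h : GL (Fin 5) ℂ) : Matrix (Fin 5) (Fin 5) ℂ) * JJ 0 2 *
      (((cmap h)⁻¹ : GL (Fin 5) ℂ) : Matrix (Fin 5) (Fin 5) ℂ)
    = Psi (fun a => (((h : Matrix (Fin 5) (Fin 5) ℚ) a 0 : ℚ) : ℂ)) := by
  rw [SOG_inv (cmap_mem hh), cmap_coe]
  ext i j
  rw [Psi_apply]
  simp only [JJ, Matrix.mul_sub, Matrix.sub_mul, Matrix.sub_apply]
  rw [Matrix.mul_apply, Matrix.mul_apply, Finset.sum_eq_single 0, Finset.sum_eq_single 2]
  · simp only [Matrix.mul_single_apply_same, Matrix.transpose_apply, Matrix.map_apply, mul_one,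
      eq_ratCast, h2]
    split_ifs <;> simp
  · intro b _ hb
    rw [Matrix.mul_single_apply_of_ne _ _ _ _ _ hb, zero_mul]
  · simp
  · intro b _ hb
    rw [Matrix.mul_single_apply_of_ne _ _ _ _ _ hb, zero_mul]
  · simp

theorem h_col2 (n m : ℕ) (a : Fin 5) :
    ((r ^ n * t ^ m : GL (Fin 5) ℚ) : Matrix (Fin 5) (Fin 5) ℚ) a 2 = if a = 2 then 1 else 0 := by
  have e : ∀ g : GL (Fin 5) ℚ, (g : Matrix (Fin 5) (Fin 5) ℚ).mulVec (Pi.single 2 1)
      = Pi.single 2 1 → ∀ k : ℕ, ((g ^ k : GL (Fin 5) ℚ) : Matrix (Fin 5) (Fin 5) ℚ).mulVec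
        (Pi.single 2 1) = Pi.single 2 1 := by
    intro g hg k
    induction k with
    | zero => rw [pow_zero, Units.val_one, Matrix.one_mulVec]
    | succ k ih => rw [pow_succ, Units.val_mul, ← Matrix.mulVec_mulVec, hg, ih]
  have ht : (t : Matrix (Fin 5) (Fin 5) ℚ).mulVec (Pi.single 2 1) = Pi.single 2 1 := by
    rw [Matrix.mulVec_single_one]
    ext a
    simp only [Matrix.col_apply, t, mkG, ofInt, tZ, Pi.single_apply]
    fin_cases a <;> simp [Fin.ext_iff]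
  have hr : (r : Matrix (Fin 5) (Fin 5) ℚ).mulVec (Pi.single 2 1) = Pi.single 2 1 := by
    rw [Matrix.mulVec_single_one]
    ext a
    simp only [Matrix.col_apply, r, mkG, ofInt, rZ, Pi.single_apply]
    fin_cases a <;> simp [Fin.ext_iff] <;> norm_num
  have h1 : ((r ^ n * t ^ m : GL (Fin 5) ℚ) : Matrix (Fin 5) (Fin 5) ℚ).mulVec (Pi.single 2 1)
      = Pi.single 2 1 := by
    rw [Units.val_mul, ← Matrix.mulVec_mulVec, e t ht m, e r hr n]
  rw [Matrix.mulVec_single_one] at h1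
  have := congrFun h1 a
  simpa [Pi.single_apply] using this

/-- **Density theorem.** -/
theorem dense_of_gens (Δ : Subgroup (GL (Fin 5) ℂ)) (n m e : ℕ → ℕ) (hn : ∀ N, ∃ i, N ≤ n i)
    (hm : ∀ i, 1 ≤ m i) (he : ∀ i, 0 < e i)
    (hΔ : ∀ i, cmap ((r ^ n i * t ^ m i) * s ^ e i * (r ^ n i * t ^ m i)⁻¹) ∈ Δ) (f : Pol)
    (hf : f ∈ van Δ) : ∀ g ∈ SOG ℂ, evM (g : Matrix (Fin 5) (Fin 5) ℂ) f = 0 := by
  -- the rational vectors whose image lies in the Lie algebra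
  let W : Submodule ℚ (Fin 5 → ℚ) :=
    { carrier := {q | Psi (fun a => ((q a : ℚ) : ℂ)) ∈ hh Δ}
      add_mem' := by
        intro p q hp hq
        have : Psi (fun a => (((p + q) a : ℚ) : ℂ)) = Psi (fun a => ((p a : ℚ) : ℂ)) +
            Psi (fun a => ((q a : ℚ) : ℂ)) := by
          ext i j
          simp only [Psi_apply, Matrix.add_apply, Pi.add_apply, Rat.cast_add]
          split_ifs <;> ring
        rw [Set.mem_ofPred_eq, this]
        exact add_mem hp hq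
      zero_mem' := by
        have : Psi (fun a => (((0 : Fin 5 → ℚ) a : ℚ) : ℂ)) = 0 := by
          ext i j
          simp [Psi_apply]
        rw [Set.mem_ofPred_eq, this]
        exact zero_mem _
      smul_mem' := by
        intro c q hq
        have : Psi (fun a => (((c • q) a : ℚ) : ℂ)) = (c : ℂ) • Psi (fun a => ((q a : ℚ) : ℂ)) := by
          ext i j
          simp only [Psi_apply, Matrix.smul_apply, Pi.smul_apply, smul_eq_mul, Rat.cast_mul]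
          split_ifs <;> ring
        rw [Set.mem_ofPred_eq, this]
        exact Submodule.smul_mem _ _ hq }
  have hW : ∀ i, (fun a => ((r ^ n i * t ^ m i : GL (Fin 5) ℚ) : Matrix (Fin 5) (Fin 5) ℚ) a 0)
      ∈ W := by
    intro i
    have h1 := JJ_mem_hh Δ (cmap (r ^ n i * t ^ m i)) (e i) (he i) (by
      rw [← map_mul, ← map_inv, ← map_mul]; exact hΔ i)
    rw [conj_JJ (mul_mem (pow_mem r_mem _) (pow_mem t_mem _)) (h_col2 _ _)] at h1
    exact h1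
  have hsingle : ∀ a : Fin 5, a ≠ 2 → (Pi.single a 1 : Fin 5 → ℚ) ∈ W := by
    intro a ha
    by_contra hcon
    obtain ⟨φ, hφ1, hφ2⟩ := Submodule.exists_le_ker_of_notMem hcon
    let ψ : Fin 5 → ℚ := fun b => φ (Pi.single b 1)
    have hψ : ∀ q : Fin 5 → ℚ, φ q = ∑ b, ψ b * q b := by
      intro q
      rw [LinearMap.pi_apply_eq_sum_univ φ q]
      refine Finset.sum_congr rfl fun b _ => ?_
      rw [smul_eq_mul, mul_comm]
      congr 2
      ext c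
      simp [Pi.single_apply, eq_comm]
    have := span_aux ψ n m hn hm (fun i => by
      have := hφ2 (hW i)
      rw [LinearMap.mem_ker, hψ] at this
      exact this)
    obtain ⟨h0, h1, h3, h4⟩ := this
    apply hφ1
    fin_cases a
    · exact h0
    · exact h1
    · exact absurd rfl ha
    · exact h3
    · exact h4
  have hJ2 : ∀ a : Fin 5, a ≠ 2 → JJ a 2 ∈ hh Δ := by
    intro a ha
    have h1 : Psi (fun b => (((Pi.single a 1 : Fin 5 → ℚ) b : ℚ) : ℂ)) ∈ hh Δ := hsingle a ha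
    have h2 : (fun b => (((Pi.single a 1 : Fin 5 → ℚ) b : ℚ) : ℂ)) = Pi.single a 1 := by
      ext b; simp only [Pi.single_apply]; split_ifs <;> simp
    rw [h2, Psi_single ha] at h1
    exact h1
  have hneg : ∀ a b : Fin 5, JJ a b = -JJ b a := by intro a b; simp [JJ]
  apply dense_of_JJ Δ _ f hf
  intro a b hab
  by_cases ha : a = 2
  · subst ha
    rw [hneg]
    exact neg_mem (hJ2 b hab.symm)
  · by_cases hb : b = 2
    · subst hb
      exact hJ2 a ha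
    · rw [← JJ_bracket ha hb hab]
      exact hh_bracket (hJ2 a ha) (hJ2 b hb)

end Pool.Agent.TH16.WC
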