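import Mathlib
import Pool.Agent.TH16.WC.PP
import Pool.Agent.TH16.WC.Span
import Pool.Agent.TH16.WC.GoodEx

set_option autoImplicit false

/-! The arithmetic group `SO₅(ℤ[1/5])` and the family of generators. -/

namespace Pool.Agent.TH16.WC

open Matrix

/-- The ring `ℤ[1/5]`. -/
def Z5 : Subring ℚ where
  carrier := {q | ∃ (z : ℤ) (k : ℕ), q = z / 5 ^ k}
  mul_mem' := by
    rintro _ _ ⟨z, k, rfl⟩ ⟨z', k', rfl⟩
    refine ⟨z * z', k + k', ?_⟩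
    push_cast; rw [pow_add]; field_simp
  one_mem' := ⟨1, 0, by simp⟩
  add_mem' := by
    rintro _ _ ⟨z, k, rfl⟩ ⟨z', k', rfl⟩
    refine ⟨z * 5 ^ k' + z' * 5 ^ k, k + k', ?_⟩
    push_cast; rw [pow_add]; field_simp
  zero_mem' := ⟨0, 0, by simp⟩
  neg_mem' := by
    rintro _ ⟨z, k, rfl⟩
    exact ⟨-z, k, by push_cast; ring⟩

/-- The group `SO₅(ℤ[1/5])`. -/
def Gam : Subgroup (GL (Fin 5) ℚ) where
  carrier := {g | g ∈ SOG ℚ ∧ ∀ i j, (g : Matrix (Fin 5) (Fin 5) ℚ) i j ∈ Z5}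
  mul_mem' := by
    rintro a b ⟨ha, ha'⟩ ⟨hb, hb'⟩
    refine ⟨mul_mem ha hb, fun i j => ?_⟩
    rw [Units.val_mul, Matrix.mul_apply]
    exact sum_mem fun k _ => mul_mem (ha' _ _) (hb' _ _)
  one_mem' := by
    refine ⟨one_mem _, fun i j => ?_⟩
    rw [Units.val_one, Matrix.one_apply]
    split_ifs
    · exact one_mem _
    · exact zero_mem _
  inv_mem' := by
    rintro a ⟨ha, ha'⟩
    refine ⟨inv_mem ha, fun i j => ?_⟩
    rw [SOG_inv ha, Matrix.transpose_apply]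
    exact ha' _ _

theorem mem_Gam {g : GL (Fin 5) ℚ} :
    g ∈ Gam ↔ g ∈ SOG ℚ ∧ ∀ i j, (g : Matrix (Fin 5) (Fin 5) ℚ) i j ∈ Z5 := Iff.rfl

theorem ofInt_mem (Z : Matrix (Fin 5) (Fin 5) ℤ) (d : ℕ) (i j : Fin 5) : ofInt Z d i j ∈ Z5 :=
  ⟨Z i j, d, rfl⟩

theorem t_memG : t ∈ Gam := ⟨t_mem, fun i j => ofInt_mem tZ 1 i j⟩
theorem r_memG : r ∈ Gam := ⟨r_mem, fun i j => ofInt_mem rZ 2 i j⟩
theorem s_memG : s ∈ Gam := ⟨s_mem, fun i j => ofInt_mem sZ 1 i j⟩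

/-! ### `s` is good -/

theorem norm_act_s (v : V) : ‖act s v‖ ≤ 5 * ‖v‖ := by
  refine norm_mulVec_le _ 5 (fun a b => ?_) v
  have := norm_ofInt sZ 1 a b
  rw [pow_one] at this
  exact this

theorem norm_act_s_inv (v : V) : ‖act s⁻¹ v‖ ≤ 5 * ‖v‖ := by
  refine norm_mulVec_le _ 5 (fun a b => ?_) v
  have := norm_ofInt sZ 1 b a
  rw [pow_one] at this
  exact this

theorem norm_act_s_pow (i : ℕ) (v : V) : ‖act (s ^ i) v‖ ≤ 5 ^ i * ‖v‖ := by
  induction i with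
  | zero => simp [act_one]
  | succ i ih =>
    rw [pow_succ', act_mul]
    refine (norm_act_s _).trans ?_
    rw [pow_succ', mul_assoc]
    exact mul_le_mul_of_nonneg_left ih (by norm_num)

theorem norm_act_s_inv_pow (i : ℕ) (v : V) : ‖act (s ^ i)⁻¹ v‖ ≤ 5 ^ i * ‖v‖ := by
  induction i with
  | zero => simp [act_one]
  | succ i ih =>
    rw [pow_succ, _root_.mul_inv_rev, act_mul]
    refine (norm_act_s_inv _).trans ?_
    rw [pow_succ', mul_assoc]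
    exact mul_le_mul_of_nonneg_left ih (by norm_num)

/-- the second basis vector -/
noncomputable def e1 : V := ![0, 1, 0, 0, 0]

theorem act_s_e1 : act s e1 = (1 : ℚ_[5]) • e1 := by
  ext a
  rw [act_s]
  simp only [sZ, Fin.sum_univ_five, e1]
  fin_cases a <;> simp

theorem xm_eq : xm = (2⁻¹ : ℚ_[5]) • (up + um) + io • e1 := by
  ext a
  fin_cases a <;> simp [xm, up, um, e1]
  norm_num

theorem xm_dot_s (k : ℕ) : xm ⬝ᵥ act (s ^ k) xm = 2⁻¹ * (lam ^ k + lam⁻¹ ^ k) - 1 := by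
  have h1 := act_pow_eigen s up _ act_s_up k
  have h2 := act_pow_eigen s um _ act_s_um k
  have h3 := act_pow_eigen s e1 _ act_s_e1 k
  have e : act (s ^ k) xm = (2⁻¹ : ℚ_[5]) • (lam ^ k • up + lam⁻¹ ^ k • um) + io • e1 := by
    rw [xm_eq]
    simp only [act_add, act_smul, h1, h2, h3, one_pow, one_smul]
  have d1 : xm ⬝ᵥ up = 1 := by simp [dotProduct, Fin.sum_univ_five, xm, up]
  have d2 : xm ⬝ᵥ um = 1 := by simp [dotProduct, Fin.sum_univ_five, xm, um]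
  have d3 : xm ⬝ᵥ e1 = io := by simp [dotProduct, Fin.sum_univ_five, xm, e1]
  rw [e]
  simp only [dotProduct_add, dotProduct_smul, smul_eq_mul, d1, d2, d3]
  linear_combination io_mul

theorem norm_xm_dot_s (k : ℕ) (hk : k ≠ 0) : ‖xm ⬝ᵥ act (s ^ k) xm‖ = 5 ^ k := by
  have h5 : (1 : ℝ) < 5 ^ k := one_lt_pow₀ (by norm_num) hk
  have h1 : ‖(2⁻¹ : ℚ_[5]) * (lam ^ k + lam⁻¹ ^ k)‖ = 5 ^ k := by
    rw [norm_mul, norm_two_inv, one_mul, norm_sum_lam k (Nat.one_le_iff_ne_zero.2 hk)]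
  rw [xm_dot_s, sub_eq_add_neg, IsUltrametricDist.norm_add_eq_max_of_norm_ne_norm, h1, norm_neg,
    norm_one, max_eq_left h5.le]
  rw [h1, norm_neg, norm_one]
  exact h5.ne'

theorem good_s : Good s 1 := by
  refine ⟨le_rfl, fun k hk v => ?_⟩
  rw [one_mul]
  rcases Int.natAbs_eq k with h | h
  · rw [h, zpow_natCast, norm_xm_dot_s _ (Int.natAbs_ne_zero.2 hk)]
    exact norm_act_s_pow _ _
  · rw [h, _root_.zpow_neg, zpow_natCast]
    have : xm ⬝ᵥ act (s ^ k.natAbs)⁻¹ xm = xm ⬝ᵥ act (s ^ k.natAbs) xm := by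
      rw [← act_dot (pow_mem s_mem k.natAbs), act_act_inv, dotProduct_comm]
    rw [this, norm_xm_dot_s _ (Int.natAbs_ne_zero.2 hk)]
    exact norm_act_s_inv_pow _ _

/-! ### elements of infinite order are unbounded -/

theorem int_of_norm_le {q : ℚ} (hq : q ∈ Z5) (h : ‖(q : ℚ_[5])‖ ≤ 1) : ∃ z : ℤ, q = z := by
  obtain ⟨z, k, rfl⟩ := hq
  have h1 : ‖(z : ℚ_[5])‖ ≤ ((5 : ℕ) : ℝ) ^ (-(k : ℤ)) := by
    have h2 : (z : ℚ_[5]) = (((z : ℚ) / 5 ^ k : ℚ) : ℚ_[5]) * 5 ^ k := by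
      push_cast
      field_simp
    rw [h2, norm_mul, norm_pow, norm_five, _root_.zpow_neg, zpow_natCast]
    have h3 : (0 : ℝ) < (1 / 5) ^ k := by positivity
    calc ‖(((z : ℚ) / 5 ^ k : ℚ) : ℚ_[5])‖ * (1 / 5) ^ k ≤ 1 * (1 / 5) ^ k :=
          mul_le_mul_of_nonneg_right h h3.le
      _ = _ := by rw [one_mul, one_div, inv_pow]; norm_num
  rw [Padic.norm_int_le_pow_iff_dvd] at h1
  obtain ⟨w, hw⟩ := h1
  refine ⟨w, ?_⟩
  rw [hw]
  push_cast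
  field_simp

theorem abs_entry_le {g : GL (Fin 5) ℚ} (hg : g ∈ SOG ℚ) (i j : Fin 5) :
    |(g : Matrix (Fin 5) (Fin 5) ℚ) i j| ≤ 1 := by
  have h1 := congrFun (congrFun hg.1 i) i
  rw [Matrix.mul_apply, Matrix.one_apply_eq] at h1
  simp only [Matrix.transpose_apply] at h1
  have h2 : (g : Matrix (Fin 5) (Fin 5) ℚ) i j * (g : Matrix (Fin 5) (Fin 5) ℚ) i j ≤ 1 := by
    rw [← h1]
    exact Finset.single_le_sum (f := fun k => (g : Matrix (Fin 5) (Fin 5) ℚ) i k *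
      (g : Matrix (Fin 5) (Fin 5) ℚ) i k) (fun k _ => mul_self_nonneg _) (Finset.mem_univ j)
  rw [abs_le]
  constructor <;> nlinarith

theorem unbounded_of_infinite {γ : GL (Fin 5) ℚ} (hγ : γ ∈ Gam) (h : ¬ IsOfFinOrder γ) (B : ℝ) :
    ∃ n : ℕ, ∃ a b, B < ‖((((γ ^ n : GL (Fin 5) ℚ) : Matrix (Fin 5) (Fin 5) ℚ) a b : ℚ) : ℚ_[5])‖ := by
  by_contra hcon
  push Not at hcon
  apply h
  obtain ⟨k, hk⟩ := pow_unbounded_of_one_lt B (by norm_num : (1 : ℝ) < 5)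
  -- `5^k` times the entries are integers in a bounded range
  have hz : ∀ (n : ℕ) (p : Fin 5 × Fin 5), ∃ z : Set.Icc (-(5 : ℤ) ^ k) (5 ^ k),
      5 ^ k * ((γ ^ n : GL (Fin 5) ℚ) : Matrix (Fin 5) (Fin 5) ℚ) p.1 p.2 = ((z : ℤ) : ℚ) := by
    intro n p
    have hmem := pow_mem hγ n
    have h1 : 5 ^ k * ((γ ^ n : GL (Fin 5) ℚ) : Matrix (Fin 5) (Fin 5) ℚ) p.1 p.2 ∈ Z5 :=
      mul_mem ⟨5 ^ k, 0, by simp⟩ (hmem.2 _ _)
    have h2 : ‖((5 ^ k * ((γ ^ n : GL (Fin 5) ℚ) : Matrix (Fin 5) (Fin 5) ℚ) p.1 p.2 : ℚ)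
        : ℚ_[5])‖ ≤ 1 := by
      push_cast
      rw [norm_mul, norm_pow, norm_five]
      have h3 := (hcon n p.1 p.2).trans hk.le
      calc (1 / 5 : ℝ) ^ k * _ ≤ (1 / 5) ^ k * 5 ^ k := by
            apply mul_le_mul_of_nonneg_left _ (by positivity)
            exact_mod_cast h3
        _ = 1 := by rw [← mul_pow]; norm_num
    obtain ⟨z, hz⟩ := int_of_norm_le h1 h2
    have h3 := abs_entry_le hmem.1 p.1 p.2
    have h4 : |(z : ℚ)| ≤ 5 ^ k := by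
      rw [← hz, abs_mul, abs_of_pos (by positivity : (0 : ℚ) < 5 ^ k)]
      exact mul_le_of_le_one_right (by positivity) h3
    have h5 : |z| ≤ 5 ^ k := by exact_mod_cast h4
    rw [abs_le] at h5
    exact ⟨⟨z, h5⟩, hz⟩
  choose F hF using hz
  have hfin : Finite (Fin 5 × Fin 5 → Set.Icc (-(5 : ℤ) ^ k) (5 ^ k)) := inferInstance
  obtain ⟨n, m, hnm, he⟩ := Finite.exists_ne_map_eq_of_infinite F
  have heq : γ ^ n = γ ^ m := by
    ext i j
    have h1 := hF n (i, j)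
    have h2 := hF m (i, j)
    rw [he, ← h2] at h1
    exact mul_left_cancel₀ (by positivity) h1
  rcases lt_or_gt_of_ne hnm with hlt | hlt
  · rw [isOfFinOrder_iff_pow_eq_one]
    refine ⟨m - n, by omega, ?_⟩
    have : γ ^ n * γ ^ (m - n) = γ ^ n := by rw [← pow_add, heq]; congr 1; omega
    simpa using this
  · rw [isOfFinOrder_iff_pow_eq_one]
    refine ⟨n - m, by omega, ?_⟩
    have : γ ^ m * γ ^ (n - m) = γ ^ m := by rw [← pow_add, ← heq]; congr 1; omega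
    simpa using this

theorem t_pow_ne {k : ℕ} (hk : k ≠ 0) : t ^ k ≠ 1 := by
  intro h
  have h1 := act_pow_eigen t xp _ act_t_xp k
  rw [h, act_one] at h1
  have h2 := congrFun h1 0
  simp only [xp, Pi.smul_apply, smul_eq_mul, Matrix.cons_val_zero, mul_one] at h2
  have h3 := congrArg norm h2
  rw [norm_one, norm_pow, norm_lam] at h3
  have := one_lt_pow₀ (by norm_num : (1 : ℝ) < 5) hk
  linarith

theorem t_infinite : ¬ IsOfFinOrder t := by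
  rw [isOfFinOrder_iff_pow_eq_one]
  rintro ⟨n, hn, h⟩
  exact t_pow_ne hn.ne' h

theorem gen_mem {η : GL (Fin 5) ℚ} (hη : η ∈ Gam) (i m : ℕ) : gen η i m ∈ Gam :=
  mul_mem (mul_mem (mul_mem (pow_mem r_memG _) (pow_mem t_memG _)) hη)
    (inv_mem (mul_mem (pow_mem r_memG _) (pow_mem t_memG _)))

/-- **The group.** -/
theorem exists_Gam2 : ∃ Γ : Subgroup (GL (Fin 5) ℚ), Γ ≤ Gam ∧
    (∀ k : ℕ, 0 < k → t ^ k ∉ Γ) ∧
    (∀ γ ∈ Gam, ¬ IsOfFinOrder γ → ∃ g ∈ SOG ℚ, ∃ N : ℕ, 0 < N ∧ g * γ ^ N * g⁻¹ ∈ Γ) ∧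
    ∃ n m : ℕ → ℕ, (∀ N, ∃ i, N ≤ n i) ∧ (∀ i, 1 ≤ m i) ∧
      ∀ i, (r ^ n i * t ^ m i) * s * (r ^ n i * t ^ m i)⁻¹ ∈ Γ := by
  have hcM : Countable (Matrix (Fin 5) (Fin 5) ℚ) :=
    inferInstanceAs (Countable (Fin 5 → Fin 5 → ℚ))
  have hcG : Countable (GL (Fin 5) ℚ) :=
    (Units.val_injective : Function.Injective
      (fun g : GL (Fin 5) ℚ => (g : Matrix (Fin 5) (Fin 5) ℚ))).countable
  let I : Type := {γ : GL (Fin 5) ℚ // γ ∈ Gam ∧ ¬ IsOfFinOrder γ}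
  have hne : Nonempty I := ⟨⟨t, t_memG, t_infinite⟩⟩
  obtain ⟨enum, henum⟩ := exists_surjective_nat I
  -- good conjugates of powers
  have hgood : ∀ γ : I, ∃ σ ∈ Gam, ∃ N : ℕ, 0 < N ∧ ∃ C : ℝ, Good (σ * γ.1 ^ N * σ⁻¹) C := by
    intro γ
    obtain ⟨σ, hσ, hσi, N, hN, C, hC⟩ := exists_good γ.1 γ.2.1.1
      (unbounded_of_infinite γ.2.1 γ.2.2)
    refine ⟨σ, ⟨hσ, fun i j => ?_⟩, N, hN, C, hC⟩
    obtain ⟨z, hz⟩ := hσi i j
    exact ⟨z, 0, by rw [hz]; simp⟩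
  choose σ hσ N hN C hC using hgood
  let η : ℕ → GL (Fin 5) ℚ := fun i =>
    if i % 2 = 0 then σ (enum (i / 2)) * (enum (i / 2)).1 ^ N (enum (i / 2)) * (σ (enum (i / 2)))⁻¹
    else s
  let C' : ℕ → ℝ := fun i => if i % 2 = 0 then C (enum (i / 2)) else 1
  have hη : ∀ i, Good (η i) (C' i) := by
    intro i
    by_cases hi : i % 2 = 0
    · simp only [η, C', hi, if_true]
      exact hC _
    · simp only [η, C', hi, if_false]
      exact good_s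
  have hηG : ∀ i, η i ∈ Gam := by
    intro i
    by_cases hi : i % 2 = 0
    · simp only [η, hi, if_true]
      exact mul_mem (mul_mem (hσ _) (pow_mem (enum (i / 2)).2.1 _)) (inv_mem (hσ _))
    · simp only [η, hi, if_false]
      exact s_memG
  have hm : ∀ i, ∃ m : ℕ, C' i * 25 ^ (2 * (i + 1)) < 5 ^ m := fun i =>
    pow_unbounded_of_one_lt _ (by norm_num)
  choose m hm using hm
  have hm1 : ∀ i, 1 ≤ m i := by
    intro i
    by_contra hcon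
    have h0 : m i = 0 := by omega
    have h1 := hm i
    rw [h0, pow_zero] at h1
    have h2 := (hη i).1
    have h3 : (1 : ℝ) ≤ 25 ^ (2 * (i + 1)) := one_le_pow₀ (by norm_num)
    nlinarith
  refine ⟨Subgroup.closure (Set.range fun i => gen (η i) (i + 1) (m i)), ?_, ?_, ?_,
    fun i => 2 * i + 1 + 1, fun i => m (2 * i + 1), ?_, ?_, ?_⟩
  · rw [Subgroup.closure_le]
    rintro _ ⟨i, rfl⟩
    exact gen_mem (hηG i) _ _
  · intro k hk hkm
    exact t_pow_notMem η C' m hη hm k hkm (t_pow_ne hk.ne')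
  · intro γ hγ hγ'
    obtain ⟨j, hj⟩ := henum ⟨γ, hγ, hγ'⟩
    refine ⟨(r ^ (2 * j + 1) * t ^ m (2 * j)) * σ (enum j), ?_, N (enum j), hN _, ?_⟩
    · exact mul_mem (mul_mem (pow_mem r_mem _) (pow_mem t_mem _)) (hσ _).1
    · apply Subgroup.subset_closure
      refine ⟨2 * j, ?_⟩
      have h1 : 2 * j / 2 = j := by omega
      have h2 : 2 * j % 2 = 0 := by omega
      simp only [η, gen, h1, h2, if_true, hj]
      group
  · intro N
    exact ⟨N, by simp only; omega⟩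
  · intro i; exact hm1 _
  · intro i
    apply Subgroup.subset_closure
    refine ⟨2 * i + 1, ?_⟩
    have h2 : ¬ ((2 * i + 1) % 2 = 0) := by omega
    simp only [η, gen, h2, if_false]

end Pool.Agent.TH16.WC
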