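import Mathlib
import Pool.Agent.TH16.WC.Dyn

set_option autoImplicit false

/-! Real rotations of `ℝ⁵` in block form. -/

namespace Pool.Agent.TH16.WC

open Matrix

abbrev M5 := Matrix (Fin 5) (Fin 5) ℝ

theorem dot_mulVec_left (A : M5) (x y : Fin 5 → ℝ) :
    A.mulVec x ⬝ᵥ y = x ⬝ᵥ Aᵀ.mulVec y := by
  rw [Matrix.dotProduct_mulVec, Matrix.vecMul_transpose]

theorem iso_dot {γ : M5} (h : γ * γᵀ = 1) (x y : Fin 5 → ℝ) :
    γ.mulVec x ⬝ᵥ γ.mulVec y = x ⬝ᵥ y := by
  rw [dot_mulVec_left, Matrix.mulVec_mulVec, mul_eq_one_comm.1 h, Matrix.one_mulVec]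

theorem exists_unit {x : Fin 5 → ℝ} (hx : x ≠ 0) : ∃ c : ℝ, (c • x) ⬝ᵥ (c • x) = 1 := by
  have hpos : 0 < x ⬝ᵥ x := by
    have h0 : 0 ≤ x ⬝ᵥ x := Finset.sum_nonneg fun i _ => mul_self_nonneg _
    rcases h0.lt_or_eq with h | h
    · exact h
    · exact absurd (dotProduct_self_eq_zero.1 h.symm) hx
  refine ⟨(Real.sqrt (x ⬝ᵥ x))⁻¹, ?_⟩
  rw [smul_dotProduct, dotProduct_smul, smul_eq_mul, smul_eq_mul]
  have h1 : Real.sqrt (x ⬝ᵥ x) ≠ 0 := (Real.sqrt_pos.2 hpos).ne'
  field_simp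
  rw [Real.sq_sqrt hpos.le]

theorem det_eq_zero_of {B : M5} (hB : B * Bᵀ = 1) (hd : B.det = -1) : (B + 1).det = 0 := by
  have e1 : B + 1 = B * (1 + B)ᵀ := by
    rw [Matrix.transpose_add, Matrix.transpose_one, Matrix.mul_add, hB, Matrix.mul_one]
  have e2 : (B + 1).det = -(B + 1).det := by
    conv_lhs => rw [e1, Matrix.det_mul, hd, Matrix.det_transpose, add_comm]
    ring
  linarith

/-- the reflection in a unit vector -/
theorem refl_props (v : Fin 5 → ℝ) (hv : v ⬝ᵥ v = 1) :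
    (1 - (2 : ℝ) • Matrix.vecMulVec v v : M5) * (1 - (2 : ℝ) • Matrix.vecMulVec v v : M5)ᵀ = 1 ∧
    (1 - (2 : ℝ) • Matrix.vecMulVec v v : M5).det = -1 ∧
    ∀ x : Fin 5 → ℝ, (1 - (2 : ℝ) • Matrix.vecMulVec v v : M5).mulVec x = x - (2 * (v ⬝ᵥ x)) • v := by
  have h3 : ∀ x : Fin 5 → ℝ, (1 - (2 : ℝ) • Matrix.vecMulVec v v : M5).mulVec x
      = x - (2 * (v ⬝ᵥ x)) • v := by
    intro x
    rw [Matrix.sub_mulVec, Matrix.one_mulVec, Matrix.smul_mulVec]
    congr 1
    ext i
    simp only [Pi.smul_apply, smul_eq_mul, Matrix.mulVec, dotProduct, Matrix.vecMulVec_apply]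
    rw [Finset.mul_sum, Finset.mul_sum, Finset.sum_mul]
    refine Finset.sum_congr rfl fun j _ => ?_
    ring
  have hT : (1 - (2 : ℝ) • Matrix.vecMulVec v v : M5)ᵀ = 1 - (2 : ℝ) • Matrix.vecMulVec v v := by
    ext i j
    simp only [Matrix.transpose_apply, Matrix.sub_apply, Matrix.smul_apply, Matrix.vecMulVec_apply,
      smul_eq_mul, Matrix.one_apply, eq_comm]
    ring
  refine ⟨?_, ?_, h3⟩
  · rw [hT]
    apply Matrix.ext_of_mulVec_single
    intro j
    rw [← Matrix.mulVec_mulVec, h3, h3, dotProduct_sub, dotProduct_smul, hv, Matrix.one_mulVec]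
    simp only [smul_eq_mul]
    module
  · have e1 : (1 - (2 : ℝ) • Matrix.vecMulVec v v : M5) =
        1 + Matrix.replicateCol Unit ((-2 : ℝ) • v) * Matrix.replicateRow Unit v := by
      ext i j
      simp only [Matrix.sub_apply, Matrix.add_apply, Matrix.smul_apply, Matrix.vecMulVec_apply,
        smul_eq_mul, Matrix.mul_apply, Matrix.replicateCol_apply, Matrix.replicateRow_apply,
        Finset.univ_unique, Finset.sum_singleton, Pi.smul_apply]
      ring
    rw [e1, Matrix.det_one_add_replicateCol_mul_replicateRow, dotProduct_smul, hv]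
    norm_num

/-- **Existence of an invariant oriented plane.** -/
theorem exists_plane (γ : M5) (h1 : γ * γᵀ = 1) (hd : γ.det = 1) :
    ∃ v v' w : Fin 5 → ℝ, v ⬝ᵥ v = 1 ∧ v' ⬝ᵥ v' = 1 ∧ w ⬝ᵥ w = 1 ∧ v ⬝ᵥ v' = 0 ∧ v ⬝ᵥ w = 0 ∧
      v' ⬝ᵥ w = 0 ∧ ∃ c s : ℝ, c ^ 2 + s ^ 2 = 1 ∧ γ.mulVec v = c • v + s • v' ∧
      γ.mulVec v' = (-s) • v + c • v' ∧ γ.mulVec w = w := by
  have h1' : γᵀ * γ = 1 := mul_eq_one_comm.1 h1
  set A : M5 := γ + γᵀ with hA
  have hAH : A.IsHermitian := by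
    rw [Matrix.IsHermitian, hA, Matrix.conjTranspose_eq_transpose_of_trivial,
      Matrix.transpose_add, Matrix.transpose_transpose, add_comm]
  have hAT : Aᵀ = A := by rw [hA, Matrix.transpose_add, Matrix.transpose_transpose, add_comm]
  by_cases hall : ∀ i, hAH.eigenvalues i = 2
  · -- then `γ = 1`
    have hA2 : ∀ x : Fin 5 → ℝ, A.mulVec x = (2 : ℝ) • x := by
      intro x
      have hx := (hAH.eigenvectorBasis).sum_repr (WithLp.toLp 2 x)
      have hx' : x = ∑ i, (hAH.eigenvectorBasis.repr (WithLp.toLp 2 x) i) •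
          (WithLp.ofLp (hAH.eigenvectorBasis i)) := by
        have := congrArg WithLp.ofLp hx
        simpa using this.symm
      rw [hx', Matrix.mulVec_sum, Finset.smul_sum]
      refine Finset.sum_congr rfl fun i _ => ?_
      rw [Matrix.mulVec_smul, hAH.mulVec_eigenvectorBasis, hall]
      rw [smul_comm]
    have hγ : ∀ x : Fin 5 → ℝ, γ.mulVec x = x := by
      intro x
      have h2 : (γ.mulVec x - x) ⬝ᵥ (γ.mulVec x - x) = 0 := by
        have h3 : x ⬝ᵥ A.mulVec x = 2 * (x ⬝ᵥ x) := by rw [hA2, dotProduct_smul, smul_eq_mul]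
        have h4 : x ⬝ᵥ A.mulVec x = γ.mulVec x ⬝ᵥ x + x ⬝ᵥ γ.mulVec x := by
          rw [hA, Matrix.add_mulVec, dotProduct_add, dot_mulVec_left, add_comm]
        rw [sub_dotProduct, dotProduct_sub, dotProduct_sub, iso_dot h1]
        linarith
      exact sub_eq_zero.1 (dotProduct_self_eq_zero.1 h2)
    refine ⟨Pi.single 0 1, Pi.single 1 1, Pi.single 4 1, ?_, ?_, ?_, ?_, ?_, ?_, 1, 0, by norm_num,
      ?_, ?_, hγ _⟩
    · simp
    · simp
    · simp
    · simp
    · simp
    · simp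
    · rw [hγ]; simp
    · rw [hγ]; simp
  · push Not at hall
    obtain ⟨i, hi⟩ := hall
    obtain ⟨w0, hw0, hw1, hw2⟩ := exists_fixed γ h1 hd
    obtain ⟨cw, hcw⟩ := exists_unit hw0
    set w := cw • w0 with hw
    have hγw : γ.mulVec w = w := by rw [hw, Matrix.mulVec_smul, hw1]
    have hγw' : γᵀ.mulVec w = w := by rw [hw, Matrix.mulVec_smul, hw2]
    clear_value w
    set v : Fin 5 → ℝ := WithLp.ofLp (hAH.eigenvectorBasis i) with hv
    have hAv : A.mulVec v = hAH.eigenvalues i • v := hAH.mulVec_eigenvectorBasis i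
    set c : ℝ := hAH.eigenvalues i / 2 with hc
    have hc1 : c ≠ 1 := by
      intro h; apply hi; rw [hc] at h; linarith
    have hAv' : A.mulVec v = (2 * c) • v := by rw [hAv]; congr 1; rw [hc]; ring
    have hvv : v ⬝ᵥ v = 1 := by
      have h2 := hAH.eigenvectorBasis.orthonormal.1 i
      have h3 : inner ℝ (hAH.eigenvectorBasis i) (hAH.eigenvectorBasis i) = (1 : ℝ) := by
        rw [real_inner_self_eq_norm_sq, h2]; norm_num
      rw [PiLp.inner_apply] at h3
      simp only [dotProduct]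
      rw [← h3]
      refine Finset.sum_congr rfl fun j _ => ?_
      simp only [hv, Real.inner_apply]
    have hvw : v ⬝ᵥ w = 0 := by
      have h2 : A.mulVec v ⬝ᵥ w = v ⬝ᵥ A.mulVec w := by rw [dot_mulVec_left, hAT]
      have h3 : A.mulVec w = (2 : ℝ) • w := by
        rw [hA, Matrix.add_mulVec, hγw, hγw', two_smul]
      rw [h3, hAv', smul_dotProduct, dotProduct_smul, smul_eq_mul, smul_eq_mul] at h2
      have h4 : (c - 1) * (v ⬝ᵥ w) = 0 := by linarith
      exact (mul_eq_zero.1 h4).resolve_left (sub_ne_zero.2 hc1)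
    have hγγ : γ.mulVec (γ.mulVec v) = (2 * c) • γ.mulVec v - v := by
      have h2 : γ.mulVec (A.mulVec v) = γ.mulVec (γ.mulVec v) + v := by
        rw [hA, Matrix.add_mulVec, Matrix.mulVec_add, Matrix.mulVec_mulVec v γ γᵀ, h1,
          Matrix.one_mulVec]
      rw [hAv', Matrix.mulVec_smul] at h2
      rw [h2]; abel
    have hvγ : v ⬝ᵥ γ.mulVec v = c := by
      have h2 : v ⬝ᵥ A.mulVec v = γ.mulVec v ⬝ᵥ v + v ⬝ᵥ γ.mulVec v := by
        rw [hA, Matrix.add_mulVec, dotProduct_add, dot_mulVec_left, add_comm]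
      rw [hAv', dotProduct_smul, hvv, dotProduct_comm (γ.mulVec v) v, smul_eq_mul] at h2
      linarith
    have hγvv : γ.mulVec v ⬝ᵥ γ.mulVec v = 1 := by rw [iso_dot h1, hvv]
    have hs0 : (γ.mulVec v - c • v) ⬝ᵥ (γ.mulVec v - c • v) = 1 - c ^ 2 := by
      rw [sub_dotProduct, dotProduct_sub, dotProduct_sub, hγvv, dotProduct_smul, smul_dotProduct,
        smul_dotProduct, dotProduct_smul, hvv, hvγ, dotProduct_comm, hvγ]
      simp only [smul_eq_mul]; ring
    by_cases hsz : 1 - c ^ 2 = 0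
    · -- `γ v = -v`
      have hγv : γ.mulVec v = c • v := by
        rw [hsz] at hs0
        exact sub_eq_zero.1 (dotProduct_self_eq_zero.1 hs0)
      have hcm : c = -1 := by
        have h2 : (1 - c) * (1 + c) = 0 := by linarith
        rcases mul_eq_zero.1 h2 with h | h
        · exact absurd (by linarith) hc1
        · linarith
      obtain ⟨hR1, hR2, hR3⟩ := refl_props v hvv
      set R : M5 := 1 - (2 : ℝ) • Matrix.vecMulVec v v with hR
      have hB1 : (γ * R) * (γ * R)ᵀ = 1 := by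
        rw [Matrix.transpose_mul, Matrix.mul_assoc, ← Matrix.mul_assoc R, hR1, Matrix.one_mul, h1]
      have hBd : (γ * R).det = -1 := by rw [Matrix.det_mul, hd, hR2]; norm_num
      obtain ⟨x0, hx0, hx1⟩ := Matrix.exists_mulVec_eq_zero_iff.2 (det_eq_zero_of hB1 hBd)
      obtain ⟨cx, hcx⟩ := exists_unit hx0
      set x := cx • x0 with hx
      have hBx : (γ * R).mulVec x = -x := by
        have : (γ * R + 1).mulVec x = 0 := by rw [hx, Matrix.mulVec_smul, hx1, smul_zero]
        rw [Matrix.add_mulVec, Matrix.one_mulVec] at this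
        exact eq_neg_of_add_eq_zero_left this
      have hBv : (γ * R).mulVec v = v := by
        rw [← Matrix.mulVec_mulVec, hR3, hvv, Matrix.mulVec_sub, Matrix.mulVec_smul, hγv, hcm]
        module
      have hxv : v ⬝ᵥ x = 0 := by
        have h2 := iso_dot hB1 v x
        rw [hBx, hBv, dotProduct_neg] at h2
        linarith
      have hγx : γ.mulVec x = -x := by
        have h2 := hBx
        rw [← Matrix.mulVec_mulVec, hR3, hxv] at h2
        simpa using h2
      have hxw : x ⬝ᵥ w = 0 := by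
        have h2 := iso_dot h1 x w
        rw [hγx, hγw, neg_dotProduct] at h2
        linarith
      refine ⟨v, x, w, hvv, hcx, hcw, hxv, hvw, hxw, -1, 0, by norm_num, ?_, ?_, hγw⟩
      · rw [hγv, hcm]; simp
      · rw [hγx]; simp
    · have hpos : 0 < 1 - c ^ 2 := by
        have : 0 ≤ (γ.mulVec v - c • v) ⬝ᵥ (γ.mulVec v - c • v) :=
          Finset.sum_nonneg fun i _ => mul_self_nonneg _
        rw [hs0] at this
        exact lt_of_le_of_ne this (Ne.symm hsz)
      set s : ℝ := Real.sqrt (1 - c ^ 2) with hs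
      have hspos : 0 < s := Real.sqrt_pos.2 hpos
      have hs2 : s ^ 2 = 1 - c ^ 2 := Real.sq_sqrt hpos.le
      set v' : Fin 5 → ℝ := s⁻¹ • (γ.mulVec v - c • v) with hv'
      have hγv : γ.mulVec v = c • v + s • v' := by
        rw [hv', smul_smul, mul_inv_cancel₀ hspos.ne', one_smul]; abel
      refine ⟨v, v', w, hvv, ?_, hcw, ?_, hvw, ?_, c, s, by rw [hs2]; ring, hγv, ?_, hγw⟩
      · rw [hv', smul_dotProduct, dotProduct_smul, hs0, ← hs2, smul_eq_mul, smul_eq_mul]
        field_simp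
      · rw [hv', dotProduct_smul, dotProduct_sub, hvγ, dotProduct_smul, hvv]
        simp
      · rw [hv', smul_dotProduct, sub_dotProduct, smul_dotProduct, hvw]
        have h2 := iso_dot h1 v w
        rw [hγw, hvw] at h2
        rw [h2]; simp
      · rw [hv', Matrix.mulVec_smul, Matrix.mulVec_sub, hγγ, Matrix.mulVec_smul]
        have e : (-s) • v + c • s⁻¹ • (γ.mulVec v - c • v) =
            s⁻¹ • ((-s ^ 2) • v + c • (γ.mulVec v - c • v)) := by
          rw [smul_add, smul_smul, smul_smul, smul_smul]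
          congr 2
          · field_simp
          · ring
        rw [e, hs2]
        congr 1
        module

end Pool.Agent.TH16.WC
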