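import Mathlib
import Pool.Agent.TH16.WC.Blk

set_option autoImplicit false

/-! Real rotations of `ℝ⁵` in block form. -/

namespace Pool.Agent.TH16.WC

open Matrix

/-- two block rotations and a fixed vector -/
def blk {R : Type*} [CommRing R] (c s a b : R) : Matrix (Fin 5) (Fin 5) R :=
  !![c, -s, 0, 0, 0; s, c, 0, 0, 0; 0, 0, a, -b, 0; 0, 0, b, a, 0; 0, 0, 0, 0, 1]

theorem det_blk' {R : Type*} [CommRing R] (c s p q u z : R) :
    (!![c, -s, 0, 0, 0; s, c, 0, 0, 0; 0, 0, p, q, 0; 0, 0, u, z, 0; 0, 0, 0, 0, 1] :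
      Matrix (Fin 5) (Fin 5) R).det = (c ^ 2 + s ^ 2) * (p * z - q * u) := by
  simp [Matrix.det_succ_row_zero, Fin.sum_univ_succ, Fin.succAbove]
  ring

theorem exists_basis (v v' w : Fin 5 → ℝ) (hv : v ⬝ᵥ v = 1) (hv' : v' ⬝ᵥ v' = 1)
    (hw : w ⬝ᵥ w = 1) (h1 : v ⬝ᵥ v' = 0) (h2 : v ⬝ᵥ w = 0) (h3 : v' ⬝ᵥ w = 0) :
    ∃ b : Fin 5 → Fin 5 → ℝ, (∀ i j, b i ⬝ᵥ b j = if i = j then 1 else 0) ∧ b 0 = v ∧ b 1 = v' ∧
      b 4 = w := by
  let f : Fin 5 → EuclideanSpace ℝ (Fin 5) :=
    ![WithLp.toLp 2 v, WithLp.toLp 2 v', 0, 0, WithLp.toLp 2 w]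
  have hin : ∀ x y : Fin 5 → ℝ, inner ℝ (WithLp.toLp 2 x) (WithLp.toLp 2 y : EuclideanSpace ℝ (Fin 5))
      = x ⬝ᵥ y := by
    intro x y
    rw [PiLp.inner_apply, dotProduct]
    refine Finset.sum_congr rfl fun i _ => ?_
    simp only [Real.inner_apply]
  have hn : ∀ x : Fin 5 → ℝ, x ⬝ᵥ x = 1 → ‖(WithLp.toLp 2 x : EuclideanSpace ℝ (Fin 5))‖ = 1 := by
    intro x hx
    have h := hin x x
    rw [real_inner_self_eq_norm_sq, hx] at h
    nlinarith [norm_nonneg (WithLp.toLp 2 x : EuclideanSpace ℝ (Fin 5))]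
  have hnv := hn v hv
  have hnv' := hn v' hv'
  have hnw := hn w hw
  have horth : Orthonormal ℝ (({0, 1, 4} : Set (Fin 5)).domRestrict f) := by
    rw [orthonormal_iff_ite]
    rintro ⟨i, hi⟩ ⟨j, hj⟩
    simp only [Set.mem_insert_iff, Set.mem_singleton_iff] at hi hj
    have h1' : v' ⬝ᵥ v = 0 := by rw [dotProduct_comm]; exact h1
    have h2' : w ⬝ᵥ v = 0 := by rw [dotProduct_comm]; exact h2
    have h3' : w ⬝ᵥ v' = 0 := by rw [dotProduct_comm]; exact h3
    rcases hi with rfl | rfl | rfl <;> rcases hj with rfl | rfl | rfl <;>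
      simp [Set.domRestrict, f, hin, hnv, hnv', hnw, h1, h2, h3, h1', h2', h3']
  obtain ⟨b, hb⟩ := horth.exists_orthonormalBasis_extension_of_card_eq (by simp)
  refine ⟨fun i => WithLp.ofLp (b i), ?_, ?_, ?_, ?_⟩
  · intro i j
    have h := (orthonormal_iff_ite.1 b.orthonormal) i j
    rw [← h, ← hin]
  · change WithLp.ofLp (b 0) = v
    rw [hb 0 (by simp)]; simp [f]
  · change WithLp.ofLp (b 1) = v'
    rw [hb 1 (by simp)]; simp [f]
  · change WithLp.ofLp (b 4) = w
    rw [hb 4 (by simp)]; simp [f]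

theorem real_block (γ : M5) (h1 : γ * γᵀ = 1) (hd : γ.det = 1) :
    ∃ H : M5, H * Hᵀ = 1 ∧ H.det = 1 ∧ ∃ c s a b : ℝ, c ^ 2 + s ^ 2 = 1 ∧ a ^ 2 + b ^ 2 = 1 ∧
      γ * H = H * blk c s a b := by
  obtain ⟨v, v', w, hv, hv', hw, hvv', hvw, hvw', c, s, hcs, g1, g2, g3⟩ := exists_plane γ h1 hd
  obtain ⟨b, hb, b0, b1, b4⟩ := exists_basis v v' w hv hv' hw hvv' hvw hvw'
  set H : M5 := fun i j => b j i with hH
  have hHH : Hᵀ * H = 1 := by
    ext i j
    rw [Matrix.mul_apply, Matrix.one_apply, ← hb i j]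
    rfl
  have hHH' : H * Hᵀ = 1 := mul_eq_one_comm.1 hHH
  have hcol : ∀ j, H.mulVec (Pi.single j 1) = b j := by
    intro j
    rw [Matrix.mulVec_single_one]
    rfl
  set N : M5 := Hᵀ * γ * H with hN
  have hNe : ∀ i j, N i j = b i ⬝ᵥ γ.mulVec (b j) := by
    intro i j
    rw [hN, Matrix.mul_assoc, Matrix.mul_apply]
    rfl
  have hNN : Nᵀ * N = 1 := by
    rw [hN, Matrix.transpose_mul, Matrix.transpose_mul, Matrix.transpose_transpose]
    calc Hᵀ * (γᵀ * H) * (Hᵀ * γ * H) = Hᵀ * (γᵀ * (H * Hᵀ) * γ) * H := by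
          simp only [Matrix.mul_assoc]
      _ = 1 := by rw [hHH', Matrix.mul_one, mul_eq_one_comm.1 h1, Matrix.mul_one, hHH]
  have hγH : γ * H = H * N := by
    rw [hN, Matrix.mul_assoc, ← Matrix.mul_assoc H, hHH', Matrix.one_mul]
  have hdN : N.det = 1 := by
    have h2 := congrArg Matrix.det hHH
    rw [Matrix.det_mul, Matrix.det_one] at h2
    rw [hN, Matrix.det_mul, Matrix.det_mul, hd, mul_one, h2]
  have c0 : ∀ i, N i 0 = c * (if i = 0 then 1 else 0) + s * (if i = 1 then 1 else 0) := by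
    intro i
    rw [hNe, b0, g1, ← b0, ← b1, dotProduct_add, dotProduct_smul, dotProduct_smul, hb, hb]
    rfl
  have c1 : ∀ i, N i 1 = (-s) * (if i = 0 then 1 else 0) + c * (if i = 1 then 1 else 0) := by
    intro i
    rw [hNe, b1, g2, ← b0, ← b1, dotProduct_add, dotProduct_smul, dotProduct_smul, hb, hb]
    rfl
  have c4 : ∀ i, N i 4 = if i = 4 then 1 else 0 := by
    intro i
    rw [hNe, b4, g3, ← b4, hb]
  have horth : ∀ i j, ∑ k, N k i * N k j = if i = j then 1 else 0 := by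
    intro i j
    have := congrFun (congrFun hNN i) j
    rw [Matrix.mul_apply, Matrix.one_apply] at this
    exact this
  have z0 : ∀ j, j ≠ 0 → j ≠ 1 → c * N 0 j + s * N 1 j = 0 := by
    intro j h0 h1
    have := horth 0 j
    rw [if_neg (Ne.symm h0), Fin.sum_univ_five, c0, c0, c0, c0, c0] at this
    simpa using this
  have z1 : ∀ j, j ≠ 0 → j ≠ 1 → (-s) * N 0 j + c * N 1 j = 0 := by
    intro j h0 h1
    have := horth 1 j
    rw [if_neg (Ne.symm h1), Fin.sum_univ_five, c1, c1, c1, c1, c1] at this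
    simpa using this
  have z4 : ∀ j, j ≠ 4 → N 4 j = 0 := by
    intro j h4
    have := horth 4 j
    rw [if_neg (Ne.symm h4), Fin.sum_univ_five, c4, c4, c4, c4, c4] at this
    simpa using this
  have n0 : ∀ j, j ≠ 0 → j ≠ 1 → N 0 j = 0 := by
    intro j h0 h1
    have e0 := z0 j h0 h1
    have e1 := z1 j h0 h1
    linear_combination (-N 0 j) * hcs + c * e0 - s * e1
  have n1 : ∀ j, j ≠ 0 → j ≠ 1 → N 1 j = 0 := by
    intro j h0 h1
    have e0 := z0 j h0 h1
    have e1 := z1 j h0 h1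
    linear_combination (-N 1 j) * hcs + s * e0 + c * e1
  set p := N 2 2 with hp
  set q := N 2 3 with hq
  set u := N 3 2 with hu
  set z := N 3 3 with hz
  have hNform : N = !![c, -s, 0, 0, 0; s, c, 0, 0, 0; 0, 0, p, q, 0; 0, 0, u, z, 0;
      0, 0, 0, 0, 1] := by
    ext i j
    fin_cases j
    · change N i 0 = _
      rw [c0]; fin_cases i <;> simp [Fin.ext_iff]
    · change N i 1 = _
      rw [c1]; fin_cases i <;> simp [Fin.ext_iff]
    · fin_cases i
      · exact n0 2 (by decide) (by decide)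
      · exact n1 2 (by decide) (by decide)
      · rfl
      · rfl
      · exact z4 2 (by decide)
    · fin_cases i
      · exact n0 3 (by decide) (by decide)
      · exact n1 3 (by decide) (by decide)
      · rfl
      · rfl
      · exact z4 3 (by decide)
    · change N i 4 = _
      rw [c4]; fin_cases i <;> simp [Fin.ext_iff]
  have hdet : p * z - q * u = 1 := by
    rw [hNform, det_blk', hcs, one_mul] at hdN
    exact hdN
  have o22 : p * p + u * u = 1 := by
    have := horth 2 2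
    rw [if_pos rfl, Fin.sum_univ_five, n0 2 (by decide) (by decide), n1 2 (by decide) (by decide),
      z4 2 (by decide)] at this
    simpa using this
  have o23 : p * q + u * z = 0 := by
    have := horth 2 3
    rw [if_neg (by decide), Fin.sum_univ_five, n0 2 (by decide) (by decide),
      n1 2 (by decide) (by decide), z4 2 (by decide)] at this
    simpa using this
  have hzp : z = p := by linear_combination (-z) * o22 + p * hdet + u * o23
  have hqu : q = -u := by linear_combination (-q) * o22 + p * o23 - u * hdet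
  have hblk : N = blk c s p u := by
    rw [hNform, blk, hzp, hqu]
  have hdH : H.det = 1 ∨ H.det = -1 := by
    have h2 := congrArg Matrix.det hHH
    rw [Matrix.det_mul, Matrix.det_one, Matrix.det_transpose] at h2
    exact mul_self_eq_one_iff.1 h2
  rcases hdH with hd1 | hd1
  · exact ⟨H, hHH', hd1, c, s, p, u, hcs, by linear_combination o22, by rw [hγH, hblk]⟩
  · refine ⟨-H, ?_, ?_, c, s, p, u, hcs, by linear_combination o22, ?_⟩
    · rw [Matrix.transpose_neg, Matrix.neg_mul, Matrix.mul_neg, neg_neg, hHH']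
    · rw [Matrix.det_neg, hd1, Fintype.card_fin]; norm_num
    · rw [Matrix.mul_neg, Matrix.neg_mul, hγH, hblk]

end Pool.Agent.TH16.WC
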