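import Mathlib

set_option autoImplicit false

/-!
# Weak commensurability and `S`-arithmetic subgroups: definitions

Linear algebraic groups over `F = ℂ` are treated as Zariski closed subgroups of `GL_n(ℂ)`; the
`K`-forms over number fields `K` are closed subgroup schemes of `GL_m` over `K`.
-/

namespace Pool.Agent.TH16.WC

open Matrix NumberField IsDedekindDomain

/-- Index set of the coordinate functions on `GL_n`: the entries of `g` and the entries of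
`g⁻¹`. -/
abbrev Coord (n : ℕ) := (Fin n × Fin n) ⊕ (Fin n × Fin n)

/-- The coordinates of `g ∈ GL_n(R)`: the entries of `g` and the entries of `g⁻¹`. -/
def coords {n : ℕ} {R : Type*} [CommRing R] (g : GL (Fin n) R) : Coord n → R :=
  Sum.elim (fun p => (g : Matrix (Fin n) (Fin n) R) p.1 p.2)
    (fun p => ((g⁻¹ : GL (Fin n) R) : Matrix (Fin n) (Fin n) R) p.1 p.2)

/-- A linear algebraic group over the field `K`: a closed subgroup scheme of `GL_m` over `K`,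
given by a set of equations in the entries of `g` and `g⁻¹` whose solutions in `GL_m(L)` form a
subgroup for every commutative `K`-algebra `L`. (Over fields of characteristic `0` all such
group schemes are smooth.) -/
structure AlgGroup (K : Type) [Field K] (m : ℕ) where
  /-- the equations -/
  eqs : Set (MvPolynomial (Coord m) K)
  one_sol : ∀ (L : Type) [CommRing L] [Algebra K L], ∀ P ∈ eqs,
    MvPolynomial.aeval (coords (1 : GL (Fin m) L)) P = 0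
  mul_sol : ∀ (L : Type) [CommRing L] [Algebra K L] (g h : GL (Fin m) L),
    (∀ P ∈ eqs, MvPolynomial.aeval (coords g) P = 0) →
    (∀ P ∈ eqs, MvPolynomial.aeval (coords h) P = 0) →
    ∀ P ∈ eqs, MvPolynomial.aeval (coords (g * h)) P = 0
  inv_sol : ∀ (L : Type) [CommRing L] [Algebra K L] (g : GL (Fin m) L),
    (∀ P ∈ eqs, MvPolynomial.aeval (coords g) P = 0) →
    ∀ P ∈ eqs, MvPolynomial.aeval (coords g⁻¹) P = 0

/-- The group `𝒢(L)` of `L`-points. -/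
def AlgGroup.points {K : Type} [Field K] {m : ℕ} (𝒢 : AlgGroup K m) (L : Type) [CommRing L]
    [Algebra K L] : Subgroup (GL (Fin m) L) where
  carrier := {g | ∀ P ∈ 𝒢.eqs, MvPolynomial.aeval (coords g) P = 0}
  mul_mem' := fun {g h} hg hh => 𝒢.mul_sol L g h hg hh
  one_mem' := 𝒢.one_sol L
  inv_mem' := fun {g} hg => 𝒢.inv_sol L g hg

/-- Invertible diagonal matrices. -/
def diagGL {m : ℕ} {L : Type*} [CommRing L] (x : Fin m → Lˣ) : GL (Fin m) L where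
  val := Matrix.diagonal fun i => (x i : L)
  inv := Matrix.diagonal fun i => ((x i)⁻¹ : Lˣ)
  val_inv := by rw [Matrix.diagonal_mul_diagonal]; simp
  inv_val := by rw [Matrix.diagonal_mul_diagonal]; simp

/-- `𝒢` contains an `L`-split torus of dimension `r`: a homomorphism `(Lˣ)^r → 𝒢(L)` of the form
`x ↦ P · diag(x^{a_1}, …, x^{a_m}) · P⁻¹` whose weights `a_k ∈ ℤ^r` span a lattice of rank `r`. -/
def AlgGroup.HasSplitTorus {K : Type} [Field K] {m : ℕ} (𝒢 : AlgGroup K m) (L : Type) [Field L]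
    [Algebra K L] (r : ℕ) : Prop :=
  ∃ (P : GL (Fin m) L) (a : Fin m → Fin r → ℤ),
    (∀ c : Fin r → ℤ, (∀ k, ∑ j, c j * a k j = 0) → c = 0) ∧
    ∀ x : Fin r → Lˣ, P * diagGL (fun k => ∏ j, x j ^ a k j) * P⁻¹ ∈ 𝒢.points L

/-- A map between subgroups of general linear groups over `F` is regular if its matrix entries
are polynomials in the entries of `g` and `g⁻¹`. -/
def IsRegular {F : Type} [Field F] {n m : ℕ} {G : Subgroup (GL (Fin n) F)}
    {H : Subgroup (GL (Fin m) F)} (f : G → H) : Prop :=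
  ∀ i j, ∃ P : MvPolynomial (Coord n) F, ∀ g : G,
    ((f g : GL (Fin m) F) : Matrix (Fin m) (Fin m) F) i j
      = MvPolynomial.aeval (coords (g : GL (Fin n) F)) P

/-- The group of `S`-integral points `𝒢(𝒪_K(S))`, inside `GL_m(ℂ)`: the points of `𝒢(ℂ)` such that
all entries of `g` and `g⁻¹` are (images of) `S`-integers of `K`. -/
def AlgGroup.integralPoints {K : Type} [Field K] [NumberField K] [Algebra K ℂ] {m : ℕ}
    (𝒢 : AlgGroup K m) (S : Finset (HeightOneSpectrum (𝓞 K))) : Subgroup (GL (Fin m) ℂ) where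
  carrier := {g | g ∈ 𝒢.points ℂ ∧ ∀ c, ∃ x ∈ (S : Set (HeightOneSpectrum (𝓞 K))).integer K,
    coords g c = algebraMap K ℂ x}
  one_mem' := by
    classical
    refine ⟨one_mem _, ?_⟩
    rintro (⟨i, j⟩ | ⟨i, j⟩)
    · refine ⟨if i = j then 1 else 0, ?_, ?_⟩
      · split_ifs
        · exact one_mem _
        · exact zero_mem _
      · simp only [coords, Sum.elim_inl, Units.val_one, Matrix.one_apply]
        split_ifs <;> simp
    · refine ⟨if i = j then 1 else 0, ?_, ?_⟩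
      · split_ifs
        · exact one_mem _
        · exact zero_mem _
      · simp only [coords, Sum.elim_inr, inv_one, Units.val_one, Matrix.one_apply]
        split_ifs <;> simp
  mul_mem' := by
    rintro g h ⟨hg, hg'⟩ ⟨hh, hh'⟩
    refine ⟨mul_mem hg hh, ?_⟩
    choose x hx hx' using hg'
    choose y hy hy' using hh'
    rintro (⟨i, j⟩ | ⟨i, j⟩)
    · refine ⟨∑ k, x (Sum.inl (i, k)) * y (Sum.inl (k, j)),
        sum_mem fun k _ => mul_mem (hx _) (hy _), ?_⟩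
      simp only [coords, Sum.elim_inl, Units.val_mul, Matrix.mul_apply, map_sum, map_mul]
      refine Finset.sum_congr rfl fun k _ => ?_
      rw [← hx', ← hy']; rfl
    · refine ⟨∑ k, y (Sum.inr (i, k)) * x (Sum.inr (k, j)),
        sum_mem fun k _ => mul_mem (hy _) (hx _), ?_⟩
      simp only [coords, Sum.elim_inr, _root_.mul_inv_rev, Units.val_mul, Matrix.mul_apply,
        map_sum, map_mul]
      refine Finset.sum_congr rfl fun k _ => ?_
      rw [← hx', ← hy']; rfl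
  inv_mem' := by
    rintro g ⟨hg, hg'⟩
    refine ⟨inv_mem hg, ?_⟩
    choose x hx hx' using hg'
    rintro (⟨i, j⟩ | ⟨i, j⟩)
    · exact ⟨x (Sum.inr (i, j)), hx _, by rw [← hx']; rfl⟩
    · refine ⟨x (Sum.inl (i, j)), hx _, ?_⟩
      rw [← hx']
      simp only [coords, Sum.elim_inr, Sum.elim_inl, inv_inv]

/-- A triple `(𝒢, K, S)` for the adjoint group `G` over `F = ℂ`: a number field `K ⊂ ℂ`, a finite
set of places of `K` containing the archimedean ones (`S` below is the set of its nonarchimedean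
members), a linear algebraic group `𝒢` over `K` and an isomorphism `σ : 𝒢 ⊗ ℂ ≅ G` of algebraic
groups, such that `𝒢` is isotropic over `K_v` for all nonarchimedean `v` in the set. -/
structure Triple {n : ℕ} (G : Subgroup (GL (Fin n) ℂ)) where
  K : Type
  [field : Field K]
  [numberField : NumberField K]
  [algebra : Algebra K ℂ]
  S : Finset (HeightOneSpectrum (𝓞 K))
  m : ℕ
  𝒢 : AlgGroup K m
  σ : 𝒢.points ℂ ≃* G
  σ_regular : IsRegular σ
  σ_symm_regular : IsRegular σ.symm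
  isotropic : ∀ v ∈ S, 𝒢.HasSplitTorus (v.adicCompletion K) 1

attribute [instance] Triple.field Triple.numberField Triple.algebra

/-- The subgroup `σ(𝒢(𝒪_K(S)))` of `G`. -/
def Triple.arithGroup {n : ℕ} {G : Subgroup (GL (Fin n) ℂ)} (T : Triple G) :
    Subgroup (GL (Fin n) ℂ) :=
  (((T.𝒢.integralPoints T.S).subgroupOf (T.𝒢.points ℂ)).map T.σ.toMonoidHom).map G.subtype

/-- `Γ` is `(𝒢, K, S)`-arithmetic: it is commensurable with `σ(𝒢(𝒪_K(S)))`. -/
def Triple.IsArithmetic {n : ℕ} {G : Subgroup (GL (Fin n) ℂ)} (T : Triple G)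
    (Γ : Subgroup (GL (Fin n) ℂ)) : Prop :=
  Subgroup.Commensurable Γ T.arithGroup

/-- The `S`-rank `∑_{v ∈ S} rk_{K_v} 𝒢` is at least `d`. -/
def Triple.SRankGE {n : ℕ} {G : Subgroup (GL (Fin n) ℂ)} (T : Triple G) (d : ℕ) : Prop :=
  ∃ (ρ : InfinitePlace T.K → ℕ) (ρ' : HeightOneSpectrum (𝓞 T.K) → ℕ),
    d ≤ ∑ v, ρ v + ∑ v ∈ T.S, ρ' v ∧
    (∀ v, T.𝒢.HasSplitTorus v.Completion (ρ v)) ∧
    ∀ v ∈ T.S, T.𝒢.HasSplitTorus (v.adicCompletion T.K) (ρ' v)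

/-- `Γ` is `S`-arithmetic in the adjoint group `G`. -/
def IsSArithmetic {n : ℕ} (G Γ : Subgroup (GL (Fin n) ℂ)) : Prop :=
  ∃ T : Triple G, T.IsArithmetic Γ

/-- `Γ` is Zariski dense in `G`: every regular function vanishing on `Γ` vanishes on `G`. -/
def ZariskiDense {n : ℕ} (Γ G : Subgroup (GL (Fin n) ℂ)) : Prop :=
  Γ ≤ G ∧ ∀ P : MvPolynomial (Coord n) ℂ, (∀ g ∈ Γ, MvPolynomial.aeval (coords g) P = 0) →
    ∀ g ∈ G, MvPolynomial.aeval (coords g) P = 0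

/-- Tori in `GL_n(ℂ)`: the images of the algebraic homomorphisms `(ℂˣ)^r → GL_n(ℂ)`. -/
def IsTorus {n : ℕ} (T : Subgroup (GL (Fin n) ℂ)) : Prop :=
  ∃ (r : ℕ) (P : GL (Fin n) ℂ) (a : Fin n → Fin r → ℤ), ∀ g, g ∈ T ↔
    ∃ x : Fin r → ℂˣ, g = P * diagGL (fun k => ∏ j, x j ^ a k j) * P⁻¹

/-- Maximal tori of `G`. -/
def IsMaximalTorus {n : ℕ} (G T : Subgroup (GL (Fin n) ℂ)) : Prop :=
  IsTorus T ∧ T ≤ G ∧ ∀ T' : Subgroup (GL (Fin n) ℂ), IsTorus T' → T' ≤ G → T ≤ T' → T' = T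

/-- Characters of a torus `T`: homomorphisms `T → ℂˣ` given by regular functions. -/
def IsCharacter {n : ℕ} {T : Subgroup (GL (Fin n) ℂ)} (χ : T →* ℂˣ) : Prop :=
  ∃ P : MvPolynomial (Coord n) ℂ, ∀ g : T,
    (χ g : ℂ) = MvPolynomial.aeval (coords (g : GL (Fin n) ℂ)) P

/-- Semisimple (that is, diagonalizable) elements of `GL_n(ℂ)`. -/
def IsSemisimpleElt {n : ℕ} (g : GL (Fin n) ℂ) : Prop :=
  ∃ (P : GL (Fin n) ℂ) (x : Fin n → ℂˣ), g = P * diagGL x * P⁻¹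

/-- `γ₁ ∈ G₁` and `γ₂ ∈ G₂` are weakly commensurable: there are maximal tori `Tᵢ` of `Gᵢ`
containing `γᵢ` and characters `χᵢ` of `Tᵢ` with `χ₁(γ₁) = χ₂(γ₂) ≠ 1`. -/
def WeaklyCommensurableElts {n₁ n₂ : ℕ} (G₁ : Subgroup (GL (Fin n₁) ℂ))
    (G₂ : Subgroup (GL (Fin n₂) ℂ)) (γ₁ : GL (Fin n₁) ℂ) (γ₂ : GL (Fin n₂) ℂ) : Prop :=
  ∃ (T₁ : Subgroup (GL (Fin n₁) ℂ)) (T₂ : Subgroup (GL (Fin n₂) ℂ)) (h₁ : γ₁ ∈ T₁) (h₂ : γ₂ ∈ T₂)
    (χ₁ : T₁ →* ℂˣ) (χ₂ : T₂ →* ℂˣ),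
    IsMaximalTorus G₁ T₁ ∧ IsMaximalTorus G₂ T₂ ∧ IsCharacter χ₁ ∧ IsCharacter χ₂ ∧
      χ₁ ⟨γ₁, h₁⟩ = χ₂ ⟨γ₂, h₂⟩ ∧ χ₁ ⟨γ₁, h₁⟩ ≠ 1

/-- Weak commensurability of `Γ₁ ⊂ G₁` and `Γ₂ ⊂ G₂`: every semisimple element of infinite order
of `Γ₁` is weakly commensurable to some semisimple element of infinite order of `Γ₂`, and vice
versa. -/
def WeaklyCommensurable {n₁ n₂ : ℕ} (G₁ : Subgroup (GL (Fin n₁) ℂ))
    (G₂ : Subgroup (GL (Fin n₂) ℂ)) (Γ₁ : Subgroup (GL (Fin n₁) ℂ))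
    (Γ₂ : Subgroup (GL (Fin n₂) ℂ)) : Prop :=
  (∀ γ₁ ∈ Γ₁, IsSemisimpleElt γ₁ → ¬ IsOfFinOrder γ₁ →
    ∃ γ₂ ∈ Γ₂, IsSemisimpleElt γ₂ ∧ ¬ IsOfFinOrder γ₂ ∧ WeaklyCommensurableElts G₁ G₂ γ₁ γ₂) ∧
  (∀ γ₂ ∈ Γ₂, IsSemisimpleElt γ₂ → ¬ IsOfFinOrder γ₂ →
    ∃ γ₁ ∈ Γ₁, IsSemisimpleElt γ₁ ∧ ¬ IsOfFinOrder γ₁ ∧ WeaklyCommensurableElts G₁ G₂ γ₁ γ₂)

/-- Zariski closed subgroups of `GL_n(ℂ)`. -/
def IsZariskiClosed {n : ℕ} (H : Subgroup (GL (Fin n) ℂ)) : Prop :=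
  ∃ E : Set (MvPolynomial (Coord n) ℂ), ∀ g, g ∈ H ↔ ∀ P ∈ E, MvPolynomial.aeval (coords g) P = 0

/-- Connected absolutely almost simple algebraic groups over `ℂ`: Zariski closed, connected (no
proper closed subgroup of finite index), noncommutative, and every proper closed normal subgroup
is finite. -/
def IsConnectedAlmostSimple {n : ℕ} (G : Subgroup (GL (Fin n) ℂ)) : Prop :=
  IsZariskiClosed G ∧
  (∀ H : Subgroup (GL (Fin n) ℂ), IsZariskiClosed H → H ≤ G → H.relIndex G ≠ 0 → H = G) ∧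
  (∃ g ∈ G, ∃ h ∈ G, g * h ≠ h * g) ∧
  (∀ N : Subgroup (GL (Fin n) ℂ), IsZariskiClosed N → N ≤ G →
    (∀ g ∈ G, ∀ x ∈ N, g * x * g⁻¹ ∈ N) → N ≠ G → Finite N)

end Pool.Agent.TH16.WC
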