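import Mathlib
import Pool.Agent.TH16.WC.Blk2
import Pool.Agent.TH16.WC.Defs

set_option autoImplicit false

/-! Maximal tori of `SO₅(ℂ)` and weak commensurability. -/

namespace Pool.Agent.TH16.WC

open Matrix

theorem diagGL_mul {m : ℕ} {L : Type*} [CommRing L] (x y : Fin m → Lˣ) :
    diagGL x * diagGL y = diagGL (x * y) := by
  ext i j
  simp only [diagGL, Units.val_mul, Matrix.diagonal_mul_diagonal, Pi.mul_apply]

theorem diagGL_one {m : ℕ} {L : Type*} [CommRing L] :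
    diagGL (1 : Fin m → Lˣ) = 1 := by
  ext i j
  simp [diagGL]

theorem diagGL_inv {m : ℕ} {L : Type*} [CommRing L] (x : Fin m → Lˣ) :
    (diagGL x)⁻¹ = diagGL x⁻¹ := by
  rw [inv_eq_iff_mul_eq_one, diagGL_mul, mul_inv_cancel, diagGL_one]

theorem diagGL_pow {m : ℕ} {L : Type*} [CommRing L] (x : Fin m → Lˣ) (n : ℕ) :
    (diagGL x) ^ n = diagGL (x ^ n) := by
  induction n with
  | zero => rw [pow_zero, pow_zero, diagGL_one]
  | succ n ih => rw [pow_succ, ih, diagGL_mul, pow_succ]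

theorem diagGL_coe {m : ℕ} {L : Type*} [CommRing L] (x : Fin m → Lˣ) :
    ((diagGL x : GL (Fin m) L) : Matrix (Fin m) (Fin m) L) = Matrix.diagonal fun i => (x i : L) :=
  rfl

/-- the weights of the standard torus -/
def wt : Fin 5 → Fin 2 → ℤ := ![![1, 0], ![-1, 0], ![0, 1], ![0, -1], ![0, 0]]

theorem wt_prod {L : Type*} [CommRing L] (x : Fin 2 → Lˣ) :
    (fun k => ∏ j, x j ^ wt k j) = ![x 0, (x 0)⁻¹, x 1, (x 1)⁻¹, 1] := by
  ext k
  fin_cases k <;> simp [wt, Fin.prod_univ_two]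

/-- diagonal matrices of the standard torus -/
def dg {L : Type*} [CommRing L] (x : Fin 2 → Lˣ) : GL (Fin 5) L :=
  diagGL (fun k => ∏ j, x j ^ wt k j)

theorem dg_eq {L : Type*} [CommRing L] (x : Fin 2 → Lˣ) :
    dg x = diagGL ![x 0, (x 0)⁻¹, x 1, (x 1)⁻¹, 1] := by rw [dg, wt_prod]

theorem dg_mul {L : Type*} [CommRing L] (x y : Fin 2 → Lˣ) : dg x * dg y = dg (x * y) := by
  rw [dg, dg, dg, diagGL_mul]
  congr 1
  ext k
  simp [mul_zpow, Finset.prod_mul_distrib]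

theorem dg_one {L : Type*} [CommRing L] : dg (1 : Fin 2 → Lˣ) = 1 := by
  rw [dg, ← diagGL_one]
  congr 1
  ext k
  simp

theorem dg_inv {L : Type*} [CommRing L] (x : Fin 2 → Lˣ) : (dg x)⁻¹ = dg x⁻¹ := by
  rw [inv_eq_iff_mul_eq_one, dg_mul, mul_inv_cancel, dg_one]

/-- The torus attached to `P`. -/
def Tor (P : GL (Fin 5) ℂ) : Subgroup (GL (Fin 5) ℂ) where
  carrier := {g | ∃ x : Fin 2 → ℂˣ, g = P * dg x * P⁻¹}
  mul_mem' := by
    rintro _ _ ⟨x, rfl⟩ ⟨y, rfl⟩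
    exact ⟨x * y, by rw [← dg_mul]; group⟩
  one_mem' := ⟨1, by rw [dg_one]; group⟩
  inv_mem' := by
    rintro _ ⟨x, rfl⟩
    exact ⟨x⁻¹, by rw [← dg_inv]; group⟩

theorem Tor_isTorus (P : GL (Fin 5) ℂ) : IsTorus (Tor P) := ⟨2, P, wt, fun _ => Iff.rfl⟩

/-- the standard eigenbasis matrix -/
noncomputable def P0M : Matrix (Fin 5) (Fin 5) ℂ :=
  !![1, 1, 0, 0, 0; -Complex.I, Complex.I, 0, 0, 0; 0, 0, 1, 1, 0;
    0, 0, -Complex.I, Complex.I, 0; 0, 0, 0, 0, 1]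

/-- its inverse -/
noncomputable def P0I : Matrix (Fin 5) (Fin 5) ℂ :=
  !![1 / 2, Complex.I / 2, 0, 0, 0; 1 / 2, -Complex.I / 2, 0, 0, 0; 0, 0, 1 / 2, Complex.I / 2, 0;
    0, 0, 1 / 2, -Complex.I / 2, 0; 0, 0, 0, 0, 1]

/-- the Gram matrix -/
def G0 : Matrix (Fin 5) (Fin 5) ℂ :=
  !![0, 2, 0, 0, 0; 2, 0, 0, 0, 0; 0, 0, 0, 2, 0; 0, 0, 2, 0, 0; 0, 0, 0, 0, 1]

theorem P0_mul : P0M * P0I = 1 := by
  have h := Complex.I_mul_I
  ext i j
  fin_cases i <;> fin_cases j <;>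
    simp [P0M, P0I, Matrix.mul_apply, Fin.sum_univ_five, Matrix.one_apply, Fin.ext_iff] <;>
    first | ring1 | linear_combination (-1 / 2 : ℂ) * h - 1 / 2 * h | norm_num

theorem P0_gram : P0Mᵀ * P0M = G0 := by
  have h := Complex.I_mul_I
  ext i j
  fin_cases i <;> fin_cases j <;>
    simp [P0M, G0, Matrix.mul_apply, Fin.sum_univ_five] <;>
    first | ring1 | norm_num

/-- the standard eigenbasis matrix as an element of `GL₅(ℂ)` -/
noncomputable def P0 : GL (Fin 5) ℂ := ⟨P0M, P0I, P0_mul, mul_eq_one_comm.1 P0_mul⟩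

theorem gram {h : GL (Fin 5) ℂ} (hh : h ∈ SOG ℂ) :
    ((h * P0 : GL (Fin 5) ℂ) : Matrix (Fin 5) (Fin 5) ℂ)ᵀ *
      ((h * P0 : GL (Fin 5) ℂ) : Matrix (Fin 5) (Fin 5) ℂ) = G0 := by
  rw [Units.val_mul, Matrix.transpose_mul]
  calc (P0 : Matrix (Fin 5) (Fin 5) ℂ)ᵀ * (h : Matrix (Fin 5) (Fin 5) ℂ)ᵀ *
        ((h : Matrix (Fin 5) (Fin 5) ℂ) * P0)
      = (P0 : Matrix (Fin 5) (Fin 5) ℂ)ᵀ * ((h : Matrix (Fin 5) (Fin 5) ℂ)ᵀ *
        (h : Matrix (Fin 5) (Fin 5) ℂ)) * P0 := by simp only [Matrix.mul_assoc]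
    _ = G0 := by rw [mul_eq_one_comm.1 hh.1, Matrix.mul_one]; exact P0_gram

/-- Orthogonality of `P diag(y) P⁻¹` in terms of `y`. -/
theorem mem_SOG_conj_iff (P : GL (Fin 5) ℂ)
    (hP : (P : Matrix (Fin 5) (Fin 5) ℂ)ᵀ * (P : Matrix (Fin 5) (Fin 5) ℂ) = G0)
    (g : GL (Fin 5) ℂ) (y : Fin 5 → ℂ)
    (hg : ((P⁻¹ * g * P : GL (Fin 5) ℂ) : Matrix (Fin 5) (Fin 5) ℂ) = Matrix.diagonal y) :
    g ∈ SOG ℂ ↔ y 0 * y 1 = 1 ∧ y 2 * y 3 = 1 ∧ y 4 = 1 := by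
  set A : Matrix (Fin 5) (Fin 5) ℂ := (g : Matrix (Fin 5) (Fin 5) ℂ) with hA
  set B : Matrix (Fin 5) (Fin 5) ℂ := (P : Matrix (Fin 5) (Fin 5) ℂ) with hB
  set B' : Matrix (Fin 5) (Fin 5) ℂ := ((P⁻¹ : GL (Fin 5) ℂ) : Matrix (Fin 5) (Fin 5) ℂ) with hB'
  have hBB' : B * B' = 1 := by rw [hB, hB', ← Units.val_mul, mul_inv_cancel, Units.val_one]
  have hB'B : B' * B = 1 := mul_eq_one_comm.1 hBB'
  have hAB : A * B = B * Matrix.diagonal y := by
    rw [← hg, Units.val_mul, Units.val_mul, ← Matrix.mul_assoc, ← Matrix.mul_assoc, ← hB', ← hB,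
      hBB', Matrix.one_mul]
  have hdet : A.det = y 0 * y 1 * (y 2 * y 3) * y 4 := by
    have h1 := congrArg Matrix.det hAB
    rw [Matrix.det_mul, Matrix.det_mul, Matrix.det_diagonal, mul_comm] at h1
    have h2 : B.det ≠ 0 := by
      intro h0
      have := congrArg Matrix.det hBB'
      rw [Matrix.det_mul, h0, zero_mul, Matrix.det_one] at this
      exact zero_ne_one this
    have h3 := mul_left_cancel₀ h2 h1
    rw [h3, Fin.prod_univ_five]; ring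
  have key : Aᵀ * A = 1 ↔ Matrix.diagonal y * G0 * Matrix.diagonal y = G0 := by
    constructor
    · intro h
      calc Matrix.diagonal y * G0 * Matrix.diagonal y
          = (B * Matrix.diagonal y)ᵀ * (B * Matrix.diagonal y) := by
            rw [Matrix.transpose_mul, Matrix.diagonal_transpose, ← hP]
            simp only [Matrix.mul_assoc]
        _ = Bᵀ * (Aᵀ * A) * B := by
            rw [← hAB, Matrix.transpose_mul]; simp only [Matrix.mul_assoc]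
        _ = G0 := by rw [h, Matrix.mul_one, hP]
    · intro h
      have h1 : Bᵀ * (Aᵀ * A) * B = Bᵀ * B := by
        calc Bᵀ * (Aᵀ * A) * B = (A * B)ᵀ * (A * B) := by
              rw [Matrix.transpose_mul]; simp only [Matrix.mul_assoc]
          _ = Matrix.diagonal y * G0 * Matrix.diagonal y := by
              rw [hAB, Matrix.transpose_mul, Matrix.diagonal_transpose, ← hP]
              simp only [Matrix.mul_assoc]
          _ = _ := by rw [h, hP]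
      have hBT : B'ᵀ * Bᵀ = 1 := by rw [← Matrix.transpose_mul, hBB', Matrix.transpose_one]
      calc Aᵀ * A = (B'ᵀ * Bᵀ) * (Aᵀ * A) * (B * B') := by rw [hBT, hBB']; simp
        _ = B'ᵀ * (Bᵀ * (Aᵀ * A) * B) * B' := by simp only [Matrix.mul_assoc]
        _ = (B'ᵀ * Bᵀ) * (B * B') := by rw [h1]; simp only [Matrix.mul_assoc]
        _ = 1 := by rw [hBT, hBB', Matrix.one_mul]
  have hent : Matrix.diagonal y * G0 * Matrix.diagonal y = G0 ↔
      y 0 * y 1 = 1 ∧ y 2 * y 3 = 1 ∧ y 4 * y 4 = 1 := by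
    constructor
    · intro h
      have e1 := congrFun (congrFun h 0) 1
      have e2 := congrFun (congrFun h 2) 3
      have e3 := congrFun (congrFun h 4) 4
      simp only [Matrix.mul_diagonal, Matrix.diagonal_mul, G0] at e1 e2 e3
      simp at e1 e2 e3
      refine ⟨by linear_combination (1 / 2 : ℂ) * e1, by linear_combination (1 / 2 : ℂ) * e2, ?_⟩
      linear_combination e3
    · rintro ⟨e1, e2, e3⟩
      ext i j
      simp only [Matrix.mul_diagonal, Matrix.diagonal_mul, G0]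
      fin_cases i <;> fin_cases j <;> simp
      · linear_combination 2 * e1
      · linear_combination 2 * e1
      · linear_combination 2 * e2
      · linear_combination 2 * e2
      · linear_combination e3
  constructor
  · intro h
    obtain ⟨e1, e2, e3⟩ := hent.1 (key.1 (mul_eq_one_comm.1 h.1))
    refine ⟨e1, e2, ?_⟩
    have h2 := h.2
    rw [← hA, hdet, e1, e2] at h2
    linear_combination h2
  · rintro ⟨e1, e2, e3⟩
    refine ⟨mul_eq_one_comm.1 (key.2 (hent.2 ⟨e1, e2, by rw [e3]; ring⟩)), ?_⟩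
    rw [← hA, hdet, e1, e2, e3]; ring

theorem Tor_le {P : GL (Fin 5) ℂ}
    (hP : (P : Matrix (Fin 5) (Fin 5) ℂ)ᵀ * (P : Matrix (Fin 5) (Fin 5) ℂ) = G0) :
    Tor P ≤ SOG ℂ := by
  rintro _ ⟨x, rfl⟩
  have h1 : P⁻¹ * (P * dg x * P⁻¹) * P = dg x := by group
  rw [mem_SOG_conj_iff P hP _ (fun k => (![x 0, (x 0)⁻¹, x 1, (x 1)⁻¹, 1] k : ℂˣ))
    (by rw [h1, dg_eq, diagGL_coe])]
  simp

/-- the regular element -/
noncomputable def xreg : Fin 2 → ℂˣ := ![Units.mk0 2 two_ne_zero, Units.mk0 3 three_ne_zero]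

theorem diag_of_commute (M : Matrix (Fin 5) (Fin 5) ℂ)
    (h : M * ((dg xreg : GL (Fin 5) ℂ) : Matrix (Fin 5) (Fin 5) ℂ)
      = ((dg xreg : GL (Fin 5) ℂ) : Matrix (Fin 5) (Fin 5) ℂ) * M) :
    M = Matrix.diagonal (fun k => M k k) := by
  rw [dg_eq, diagGL_coe] at h
  ext i j
  by_cases hij : i = j
  · subst hij; rw [Matrix.diagonal_apply_eq]
  rw [Matrix.diagonal_apply_ne _ hij]
  have e := congrFun (congrFun h i) j
  rw [Matrix.mul_diagonal, Matrix.diagonal_mul] at e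
  have hne : ((![xreg 0, (xreg 0)⁻¹, xreg 1, (xreg 1)⁻¹, 1] j : ℂˣ) : ℂ) ≠
      ((![xreg 0, (xreg 0)⁻¹, xreg 1, (xreg 1)⁻¹, 1] i : ℂˣ) : ℂ) := by
    fin_cases i <;> fin_cases j <;> simp [xreg] at hij ⊢ <;> norm_num
  have e2 : M i j * (((![xreg 0, (xreg 0)⁻¹, xreg 1, (xreg 1)⁻¹, 1] j : ℂˣ) : ℂ) -
      ((![xreg 0, (xreg 0)⁻¹, xreg 1, (xreg 1)⁻¹, 1] i : ℂˣ) : ℂ)) = 0 := by
    linear_combination e
  exact (mul_eq_zero.1 e2).resolve_right (sub_ne_zero.2 hne)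

theorem torus_comm {n : ℕ} {T : Subgroup (GL (Fin n) ℂ)} (hT : IsTorus T) {g h : GL (Fin n) ℂ}
    (hg : g ∈ T) (hh : h ∈ T) : g * h = h * g := by
  obtain ⟨r, P, a, hT⟩ := hT
  obtain ⟨x, rfl⟩ := (hT g).1 hg
  obtain ⟨y, rfl⟩ := (hT h).1 hh
  have h1 : diagGL (fun k => ∏ j, x j ^ a k j) * diagGL (fun k => ∏ j, y j ^ a k j) =
      diagGL (fun k => ∏ j, y j ^ a k j) * diagGL (fun k => ∏ j, x j ^ a k j) := by
    rw [diagGL_mul, diagGL_mul, mul_comm]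
  calc P * diagGL (fun k => ∏ j, x j ^ a k j) * P⁻¹ * (P * diagGL (fun k => ∏ j, y j ^ a k j) * P⁻¹)
      = P * (diagGL (fun k => ∏ j, x j ^ a k j) * diagGL (fun k => ∏ j, y j ^ a k j)) * P⁻¹ := by
        group
    _ = _ := by rw [h1]; group

/-- **Maximality.** -/
theorem Tor_maximal {P : GL (Fin 5) ℂ}
    (hP : (P : Matrix (Fin 5) (Fin 5) ℂ)ᵀ * (P : Matrix (Fin 5) (Fin 5) ℂ) = G0) :
    IsMaximalTorus (SOG ℂ) (Tor P) := by
  refine ⟨Tor_isTorus P, Tor_le hP, fun T' hT' hle hTT' => le_antisymm ?_ hTT'⟩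
  intro g hg
  have hreg : P * dg xreg * P⁻¹ ∈ T' := hTT' ⟨xreg, rfl⟩
  have hcomm := torus_comm hT' hg hreg
  have hc2 : (P⁻¹ * g * P) * dg xreg = dg xreg * (P⁻¹ * g * P) := by
    calc (P⁻¹ * g * P) * dg xreg = P⁻¹ * (g * (P * dg xreg * P⁻¹)) * P := by group
      _ = P⁻¹ * ((P * dg xreg * P⁻¹) * g) * P := by rw [hcomm]
      _ = _ := by group
  have hc3 := congrArg (fun x : GL (Fin 5) ℂ => (x : Matrix (Fin 5) (Fin 5) ℂ)) hc2
  simp only [Units.val_mul _ (dg xreg), Units.val_mul (dg xreg) _] at hc3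
  have hdiag := diag_of_commute _ hc3
  set M : Matrix (Fin 5) (Fin 5) ℂ := ((P⁻¹ * g * P : GL (Fin 5) ℂ) : Matrix (Fin 5) (Fin 5) ℂ)
    with hM
  obtain ⟨e1, e2, e3⟩ := (mem_SOG_conj_iff P hP g (fun k => M k k) hdiag).1 (hle hg)
  obtain ⟨u0, hu0, hu0'⟩ : ∃ u : ℂˣ, (u : ℂ) = M 0 0 ∧ ((u⁻¹ : ℂˣ) : ℂ) = M 1 1 :=
    ⟨⟨M 0 0, M 1 1, e1, by rw [mul_comm]; exact e1⟩, rfl, rfl⟩
  obtain ⟨u1, hu1, hu1'⟩ : ∃ u : ℂˣ, (u : ℂ) = M 2 2 ∧ ((u⁻¹ : ℂˣ) : ℂ) = M 3 3 :=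
    ⟨⟨M 2 2, M 3 3, e2, by rw [mul_comm]; exact e2⟩, rfl, rfl⟩
  refine ⟨![u0, u1], ?_⟩
  have h1 : P⁻¹ * g * P = dg ![u0, u1] := by
    apply Units.ext
    rw [← hM, dg_eq, diagGL_coe, hdiag]
    congr 1
    ext k
    fin_cases k
    · exact hu0.symm
    · exact hu0'.symm
    · exact hu1.symm
    · exact hu1'.symm
    · exact e3
  rw [← h1]; group

/-- the coordinate characters of `Tor P` -/
noncomputable def chr (P : GL (Fin 5) ℂ) (k : Fin 5) : Tor P →* ℂˣ :=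
  MonoidHom.toHomUnits
    { toFun := fun g => ((P⁻¹ * g.1 * P : GL (Fin 5) ℂ) : Matrix (Fin 5) (Fin 5) ℂ) k k
      map_one' := by simp
      map_mul' := by
        rintro ⟨_, x, rfl⟩ ⟨_, y, rfl⟩
        have h1 : P⁻¹ * ((P * dg x * P⁻¹) * (P * dg y * P⁻¹)) * P = dg x * dg y := by group
        have h2 : ∀ z, P⁻¹ * (P * dg z * P⁻¹) * P = dg z := by intro z; group
        change ((P⁻¹ * ((P * dg x * P⁻¹) * (P * dg y * P⁻¹)) * P : GL (Fin 5) ℂ) :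
          Matrix (Fin 5) (Fin 5) ℂ) k k = ((P⁻¹ * (P * dg x * P⁻¹) * P : GL (Fin 5) ℂ) :
          Matrix (Fin 5) (Fin 5) ℂ) k k * ((P⁻¹ * (P * dg y * P⁻¹) * P : GL (Fin 5) ℂ) :
          Matrix (Fin 5) (Fin 5) ℂ) k k
        rw [h1, h2, h2]
        simp only [dg_eq, Units.val_mul, diagGL_coe,
          Matrix.diagonal_mul_diagonal, Matrix.diagonal_apply_eq] }

theorem chr_apply (P : GL (Fin 5) ℂ) (k : Fin 5) (g : Tor P) :
    (chr P k g : ℂ) = ((P⁻¹ * g.1 * P : GL (Fin 5) ℂ) : Matrix (Fin 5) (Fin 5) ℂ) k k := rfl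

theorem chr_isCharacter (P : GL (Fin 5) ℂ) (k : Fin 5) : IsCharacter (chr P k) := by
  refine ⟨∑ i, ∑ j, MvPolynomial.C (((P⁻¹ : GL (Fin 5) ℂ) : Matrix (Fin 5) (Fin 5) ℂ) k i *
    (P : Matrix (Fin 5) (Fin 5) ℂ) j k) * MvPolynomial.X (Sum.inl (i, j)), fun g => ?_⟩
  rw [chr_apply, Units.val_mul, Units.val_mul, Matrix.mul_apply]
  simp only [Matrix.mul_apply, map_sum, map_mul, MvPolynomial.aeval_X, coords, Sum.elim_inl,
    MvPolynomial.aeval_C, Algebra.algebraMap_self, RingHom.id_apply, Finset.sum_mul]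
  rw [Finset.sum_comm]
  refine Finset.sum_congr rfl fun i _ => Finset.sum_congr rfl fun j _ => ?_
  ring

theorem pow_isCharacter {n : ℕ} {T : Subgroup (GL (Fin n) ℂ)} {χ : T →* ℂˣ} (h : IsCharacter χ)
    (N : ℕ) : IsCharacter (χ ^ N) := by
  obtain ⟨p, hp⟩ := h
  refine ⟨p ^ N, fun g => ?_⟩
  rw [map_pow, ← hp g]
  simp

/-- the map `GL₅(ℝ) → GL₅(ℂ)` -/
noncomputable def rmap : GL (Fin 5) ℝ →* GL (Fin 5) ℂ :=
  Matrix.GeneralLinearGroup.map (algebraMap ℝ ℂ)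

theorem rmap_coe (g : GL (Fin 5) ℝ) :
    ((rmap g : GL (Fin 5) ℂ) : Matrix (Fin 5) (Fin 5) ℂ)
      = (g : Matrix (Fin 5) (Fin 5) ℝ).map (algebraMap ℝ ℂ) := rfl

theorem rmap_mem {g : GL (Fin 5) ℝ} (hg : g ∈ SOG ℝ) : rmap g ∈ SOG ℂ := by
  constructor
  · rw [rmap_coe, ← Matrix.transpose_map, ← Matrix.map_mul, hg.1]; simp
  · have := RingHom.map_det (algebraMap ℝ ℂ) (g : Matrix (Fin 5) (Fin 5) ℝ)
    rw [hg.2, map_one] at this
    rw [rmap_coe]; exact this.symm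

/-- **Real rotations lie in maximal tori.** -/
theorem exists_torus (γ : GL (Fin 5) ℝ) (hγ : γ ∈ SOG ℝ) :
    ∃ P : GL (Fin 5) ℂ, (P : Matrix (Fin 5) (Fin 5) ℂ)ᵀ * (P : Matrix (Fin 5) (Fin 5) ℂ) = G0 ∧
      rmap γ ∈ Tor P := by
  obtain ⟨H, hH, hHd, c, s, a, b, hcs, hab, hγH⟩ := real_block _ hγ.1 hγ.2
  let h : GL (Fin 5) ℝ := mkG H hH
  have hh : h ∈ SOG ℝ := mkG_mem H hH hHd
  refine ⟨rmap h * P0, gram (rmap_mem hh), ?_⟩
  have hI := Complex.I_mul_I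
  have hcs' : (c : ℂ) ^ 2 + s ^ 2 = 1 := by exact_mod_cast hcs
  have hab' : (a : ℂ) ^ 2 + b ^ 2 = 1 := by exact_mod_cast hab
  let x0 : ℂˣ := ⟨c + s * Complex.I, c - s * Complex.I,
    by linear_combination hcs' - (s : ℂ) ^ 2 * hI, by linear_combination hcs' - (s : ℂ) ^ 2 * hI⟩
  let x1 : ℂˣ := ⟨a + b * Complex.I, a - b * Complex.I,
    by linear_combination hab' - (b : ℂ) ^ 2 * hI, by linear_combination hab' - (b : ℂ) ^ 2 * hI⟩
  refine ⟨![x0, x1], ?_⟩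
  have key : rmap γ * (rmap h * P0) = (rmap h * P0) * dg ![x0, x1] := by
    apply Units.ext
    have e1 : (rmap γ : Matrix (Fin 5) (Fin 5) ℂ) * (rmap h : Matrix (Fin 5) (Fin 5) ℂ) =
        (rmap h : Matrix (Fin 5) (Fin 5) ℂ) * blk (c : ℂ) s a b := by
      rw [rmap_coe, rmap_coe, ← Matrix.map_mul]
      change ((γ : Matrix (Fin 5) (Fin 5) ℝ) * H).map (algebraMap ℝ ℂ) = _
      rw [hγH, Matrix.map_mul]
      congr 1
      ext i j
      fin_cases i <;> fin_cases j <;> simp [blk]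
    have e2 : blk (c : ℂ) s a b * P0M = P0M *
        ((dg ![x0, x1] : GL (Fin 5) ℂ) : Matrix (Fin 5) (Fin 5) ℂ) := by
      rw [dg_eq, diagGL_coe]
      ext i j
      rw [Matrix.mul_diagonal]
      fin_cases i <;> fin_cases j <;>
        simp [blk, P0M, Matrix.mul_apply, Fin.sum_univ_five, x0, x1] <;>
        first | ring1 | linear_combination (s : ℂ) * hI | linear_combination (b : ℂ) * hI
    rw [Units.val_mul, Units.val_mul, Units.val_mul, Units.val_mul, ← Matrix.mul_assoc, e1,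
      Matrix.mul_assoc, Matrix.mul_assoc]
    congr 1
  rw [← key]; group

theorem isSemisimple_conj {P : GL (Fin 5) ℂ} {g : GL (Fin 5) ℂ} (hg : g ∈ Tor P) (N : ℕ)
    (h : GL (Fin 5) ℂ) : IsSemisimpleElt (h * g ^ N * h⁻¹) := by
  obtain ⟨x, rfl⟩ := hg
  refine ⟨h * P, (fun k => ∏ j, x j ^ wt k j) ^ N, ?_⟩
  rw [← diagGL_pow, ← dg, conj_pow]; group

/-- **Weak commensurability of an element with conjugates of its powers.** -/
theorem wc_elts (γ : GL (Fin 5) ℝ) (hγ : γ ∈ SOG ℝ) (N : ℕ) (hN : (rmap γ) ^ N ≠ 1)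
    (h : GL (Fin 5) ℂ) (hh : h ∈ SOG ℂ) :
    WeaklyCommensurableElts (SOG ℂ) (SOG ℂ) (rmap γ) (h * (rmap γ) ^ N * h⁻¹) := by
  obtain ⟨P, hP, hT⟩ := exists_torus γ hγ
  have hP' : ((h * P : GL (Fin 5) ℂ) : Matrix (Fin 5) (Fin 5) ℂ)ᵀ *
      ((h * P : GL (Fin 5) ℂ) : Matrix (Fin 5) (Fin 5) ℂ) = G0 := by
    rw [Units.val_mul, Matrix.transpose_mul]
    calc (P : Matrix (Fin 5) (Fin 5) ℂ)ᵀ * (h : Matrix (Fin 5) (Fin 5) ℂ)ᵀ *
          ((h : Matrix (Fin 5) (Fin 5) ℂ) * P)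
        = (P : Matrix (Fin 5) (Fin 5) ℂ)ᵀ * ((h : Matrix (Fin 5) (Fin 5) ℂ)ᵀ *
          (h : Matrix (Fin 5) (Fin 5) ℂ)) * P := by simp only [Matrix.mul_assoc]
      _ = G0 := by rw [mul_eq_one_comm.1 hh.1, Matrix.mul_one, hP]
  have hpow : (rmap γ) ^ N ∈ Tor P := pow_mem hT N
  have hT2 : h * (rmap γ) ^ N * h⁻¹ ∈ Tor (h * P) := by
    obtain ⟨x, hx⟩ := hpow
    exact ⟨x, by rw [hx]; group⟩
  -- a character which is nontrivial at the power
  have hk : ∃ k, chr P k ⟨_, hpow⟩ ≠ 1 := by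
    by_contra hcon
    push Not at hcon
    apply hN
    obtain ⟨x, hx⟩ := hpow
    have h1 : P⁻¹ * (rmap γ) ^ N * P = dg x := by rw [hx]; group
    have h2 : dg x = 1 := by
      apply Units.ext
      rw [dg_eq, diagGL_coe, Units.val_one, ← Matrix.diagonal_one]
      congr 1
      ext k
      have h3 := congrArg (fun u : ℂˣ => (u : ℂ)) (hcon k)
      simp only [chr_apply, h1, Units.val_one] at h3
      rw [dg_eq, diagGL_coe, Matrix.diagonal_apply_eq] at h3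
      rw [h3]
    rw [hx, h2]; group
  obtain ⟨k, hk⟩ := hk
  have hval : (chr P k ^ N) ⟨_, hT⟩ = chr P k ⟨_, hpow⟩ := by
    rw [MonoidHom.pow_apply, ← map_pow]; rfl
  have hval2 : chr (h * P) k ⟨_, hT2⟩ = chr P k ⟨_, hpow⟩ := by
    apply Units.ext
    rw [chr_apply, chr_apply]
    congr 2
    simp only
    group
  refine ⟨Tor P, Tor (h * P), hT, hT2, chr P k ^ N, chr (h * P) k, Tor_maximal hP, Tor_maximal hP',
    pow_isCharacter (chr_isCharacter P k) N, chr_isCharacter _ k, ?_, ?_⟩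
  · rw [hval, hval2]
  · rw [hval]; exact hk

end Pool.Agent.TH16.WC
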