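import Mathlib
import Pool.Agent.TH16.WC.Fam
import Pool.Agent.TH16.WC.Tor

set_option autoImplicit false

/-! `SO₅` over `ℚ` and the arithmetic group `SO₅(ℤ[1/5])`. -/

namespace Pool.Agent.TH16.WC

open Matrix NumberField IsDedekindDomain

/-- The prime `5` as a finite place of `ℚ`. -/
noncomputable def v5 : HeightOneSpectrum (𝓞 ℚ) :=
  (Rat.HeightOneSpectrum.primesEquiv (R := 𝓞 ℚ)).symm ⟨5, by norm_num⟩

theorem valuation_le_one_iff (v : HeightOneSpectrum (𝓞 ℚ)) (x : ℚ) :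
    v.valuation ℚ x ≤ 1 ↔ ¬ ((Rat.HeightOneSpectrum.primesEquiv v : Nat.Primes) : ℕ) ∣ x.den := by
  have : Fact (Nat.Prime ((Rat.HeightOneSpectrum.primesEquiv v : Nat.Primes) : ℕ)) :=
    ⟨(Rat.HeightOneSpectrum.primesEquiv v).2⟩
  have h1 : v.valuation ℚ x ≤ 1 ↔
      Rat.padicValuation ((Rat.HeightOneSpectrum.primesEquiv v : Nat.Primes) : ℕ) x ≤ 1 :=
    Valuation.isEquiv_iff_val_le_one.1 (Rat.HeightOneSpectrum.valuation_equiv_padicValuation v)
  rw [h1, Rat.padicValuation_le_one_iff]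

theorem mem_integer_iff (x : ℚ) :
    x ∈ ((({v5} : Finset (HeightOneSpectrum (𝓞 ℚ))) : Set (HeightOneSpectrum (𝓞 ℚ))).integer ℚ)
      ↔ x ∈ Z5 := by
  constructor
  · intro h
    have h1 : ∀ v : HeightOneSpectrum (𝓞 ℚ), v ≠ v5 → v.valuation ℚ x ≤ 1 := by
      intro v hv
      exact h v (by simpa using hv)
    have h2 : ∀ p : ℕ, p.Prime → p ∣ x.den → p = 5 := by
      intro p hp hd
      by_contra hne
      let v : HeightOneSpectrum (𝓞 ℚ) := (Rat.HeightOneSpectrum.primesEquiv (R := 𝓞 ℚ)).symm ⟨p, hp⟩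
      have hv : v ≠ v5 := by
        intro h3
        have h4 := (Rat.HeightOneSpectrum.primesEquiv (R := 𝓞 ℚ)).symm.injective h3
        exact hne (congrArg Subtype.val h4)
      have h5 := (valuation_le_one_iff v x).1 (h1 v hv)
      have h6 : Rat.HeightOneSpectrum.primesEquiv v = (⟨p, hp⟩ : Nat.Primes) :=
        Equiv.apply_symm_apply _ _
      rw [h6] at h5
      exact h5 hd
    have h3 := Nat.eq_prime_pow_of_unique_prime_dvd x.den_nz (p := 5) (fun {d} hd1 hd2 => h2 d hd1 hd2)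
    refine ⟨x.num, x.den.primeFactorsList.length, ?_⟩
    have h4 : (5 : ℚ) ^ x.den.primeFactorsList.length = x.den := by
      conv_rhs => rw [h3]
      push_cast; rfl
    rw [h4, Rat.num_div_den]
  · rintro ⟨z, k, rfl⟩ v hv
    rw [valuation_le_one_iff]
    intro hd
    have h1 : (((z : ℚ) / 5 ^ k).den : ℤ) ∣ 5 ^ k := by
      have := Rat.den_dvd z (5 ^ k)
      rw [Rat.divInt_eq_div] at this
      push_cast at this
      exact this
    have h2 : ((z : ℚ) / 5 ^ k).den ∣ 5 ^ k := by exact_mod_cast h1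
    have h3 := (Rat.HeightOneSpectrum.primesEquiv v).2.dvd_of_dvd_pow (hd.trans h2)
    have h4 := (Nat.prime_dvd_prime_iff_eq (Rat.HeightOneSpectrum.primesEquiv v).2
      (by norm_num : Nat.Prime 5)).1 h3
    apply hv
    have h5 : Rat.HeightOneSpectrum.primesEquiv v = ⟨5, by norm_num⟩ := Subtype.ext h4
    simp only [Finset.coe_singleton, Set.mem_singleton_iff]
    rw [v5, ← h5, Equiv.symm_apply_apply]

theorem exists_sqrt : ∃ i : v5.adicCompletion ℚ, i * i = -1 := by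
  let p5 : Nat.Primes := ⟨5, by norm_num⟩
  have : Fact (Nat.Prime (p5 : ℕ)) := ⟨p5.2⟩
  obtain ⟨i, hi⟩ : ∃ i : ℚ_[(p5 : ℕ)], i * i = -1 := ⟨io, io_mul⟩
  have h : ∀ (L : Type) [Field L] [TopologicalSpace L] [Algebra ℚ L] (e : ℚ_[(p5 : ℕ)] ≃A[ℚ] L),
      ∃ i : L, i * i = -1 := by
    intro L _ _ _ e
    refine ⟨e i, ?_⟩
    rw [← map_mul, hi, map_neg, map_one]
  exact h _ (Padic.adicCompletionEquiv (𝓞 ℚ) p5)

/-- the generic matrix -/
noncomputable def genM : Matrix (Fin 5) (Fin 5) (MvPolynomial (Coord 5) ℚ) :=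
  fun i j => MvPolynomial.X (Sum.inl (i, j))

/-- the equations of `SO₅` -/
def eqSO : Set (MvPolynomial (Coord 5) ℚ) :=
  {P | (∃ i j, P = (genM * genMᵀ) i j - (1 : Matrix (Fin 5) (Fin 5) _) i j) ∨ P = genM.det - 1}

theorem map_genM {L : Type} [CommRing L] [Algebra ℚ L] (g : GL (Fin 5) L) :
    genM.map (MvPolynomial.aeval (coords g) : MvPolynomial (Coord 5) ℚ →ₐ[ℚ] L)
      = (g : Matrix (Fin 5) (Fin 5) L) := by
  ext i j
  simp [genM, coords]

theorem eqSO_iff {L : Type} [CommRing L] [Algebra ℚ L] (g : GL (Fin 5) L) :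
    (∀ P ∈ eqSO, MvPolynomial.aeval (coords g) P = 0) ↔ g ∈ SOG L := by
  have e1 : ∀ i j, MvPolynomial.aeval (coords g)
      ((genM * genMᵀ) i j - (1 : Matrix (Fin 5) (Fin 5) (MvPolynomial (Coord 5) ℚ)) i j)
      = ((g : Matrix (Fin 5) (Fin 5) L) * (g : Matrix (Fin 5) (Fin 5) L)ᵀ) i j
        - (1 : Matrix (Fin 5) (Fin 5) L) i j := by
    intro i j
    rw [map_sub]
    congr 1
    · rw [← map_genM g, ← Matrix.transpose_map]
      have := congrFun (congrFun (Matrix.map_mul (L := genM) (M := genMᵀ)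
        (f := (MvPolynomial.aeval (coords g) : MvPolynomial (Coord 5) ℚ →ₐ[ℚ] L))) i) j
      rw [Matrix.map_apply] at this
      exact this
    · rw [Matrix.one_apply, Matrix.one_apply]
      split_ifs <;> simp
  have e2 : MvPolynomial.aeval (coords g) (genM.det - 1) =
      (g : Matrix (Fin 5) (Fin 5) L).det - 1 := by
    rw [map_sub, map_one, AlgHom.map_det, AlgHom.mapMatrix_apply, map_genM]
  constructor
  · intro h
    constructor
    · ext i j
      have := h _ (Or.inl ⟨i, j, rfl⟩)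
      rw [e1, sub_eq_zero] at this
      exact this
    · have := h _ (Or.inr rfl)
      rw [e2, sub_eq_zero] at this
      exact this
  · rintro ⟨h1, h2⟩ P (⟨i, j, rfl⟩ | rfl)
    · rw [e1, h1, sub_self]
    · rw [e2, h2, sub_self]

/-- The algebraic group `SO₅` over `ℚ`. -/
def SO5 : AlgGroup ℚ 5 where
  eqs := eqSO
  one_sol := fun _ _ _ => (eqSO_iff 1).2 (one_mem _)
  mul_sol := fun _ _ _ g h hg hh => (eqSO_iff _).2 (mul_mem ((eqSO_iff g).1 hg) ((eqSO_iff h).1 hh))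
  inv_sol := fun _ _ _ g hg => (eqSO_iff _).2 (inv_mem ((eqSO_iff g).1 hg))

theorem points_eq (L : Type) [CommRing L] [Algebra ℚ L] : SO5.points L = SOG L := by
  ext g
  exact eqSO_iff g

theorem blk_mem {L : Type} [Field L] (c s a b : L) (h1 : c ^ 2 + s ^ 2 = 1)
    (h2 : a ^ 2 + b ^ 2 = 1) : ∃ g ∈ SOG L, (g : Matrix (Fin 5) (Fin 5) L) = blk c s a b := by
  have h : blk c s a b * (blk c s a b)ᵀ = 1 := by
    ext i j
    fin_cases i <;> fin_cases j <;>
      simp [blk, Matrix.mul_apply, Fin.sum_univ_five] <;>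
      first | ring1 | linear_combination h1 | linear_combination h2
  refine ⟨mkG _ h, mkG_mem _ h ?_, rfl⟩
  rw [blk, det_blk', h1]
  linear_combination h2

theorem split_mem {L : Type} [Field L] [CharZero L] (i : L) (hi : i * i = -1) :
    ∃ P : GL (Fin 5) L, ∀ x : Fin 2 → Lˣ, P * dg x * P⁻¹ ∈ SOG L := by
  have h2 : (2 : L) ≠ 0 := two_ne_zero
  have hP : (!![1, 1, 0, 0, 0; -i, i, 0, 0, 0; 0, 0, 1, 1, 0; 0, 0, -i, i, 0; 0, 0, 0, 0, 1] :
      Matrix (Fin 5) (Fin 5) L) * !![2⁻¹, 2⁻¹ * i, 0, 0, 0; 2⁻¹, -(2⁻¹ * i), 0, 0, 0;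
        0, 0, 2⁻¹, 2⁻¹ * i, 0; 0, 0, 2⁻¹, -(2⁻¹ * i), 0; 0, 0, 0, 0, 1] = 1 := by
    have h3 : (2 : L) * 2⁻¹ = 1 := mul_inv_cancel₀ h2
    ext a b
    fin_cases a <;> fin_cases b <;>
      simp [Matrix.mul_apply, Fin.sum_univ_five] <;>
      first | ring1 | linear_combination h3 | linear_combination -(2 : L) * 2⁻¹ * hi + h3
  let P : GL (Fin 5) L := ⟨_, _, hP, mul_eq_one_comm.1 hP⟩
  refine ⟨P, fun x => ?_⟩
  have hx0 : ((x 0 : Lˣ) : L) * ((x 0)⁻¹ : Lˣ) = 1 := by simp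
  have hx1 : ((x 1 : Lˣ) : L) * ((x 1)⁻¹ : Lˣ) = 1 := by simp
  have h4 : (4 : L) ≠ 0 := by norm_num
  obtain ⟨g, hg, hge⟩ := blk_mem (2⁻¹ * ((x 0 : L) + ((x 0)⁻¹ : Lˣ)))
    (-(2⁻¹ * i * ((x 0 : L) - ((x 0)⁻¹ : Lˣ)))) (2⁻¹ * ((x 1 : L) + ((x 1)⁻¹ : Lˣ)))
    (-(2⁻¹ * i * ((x 1 : L) - ((x 1)⁻¹ : Lˣ)))) (by
      have h3 : (2 : L) * 2⁻¹ = 1 := mul_inv_cancel₀ h2
      linear_combination (2⁻¹ : L) ^ 2 * ((x 0 : L) - ((x 0)⁻¹ : Lˣ)) ^ 2 * hi +
        4 * (2⁻¹ : L) ^ 2 * hx0 + (2 * (2⁻¹ : L) + 1) * h3) (by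
      have h3 : (2 : L) * 2⁻¹ = 1 := mul_inv_cancel₀ h2
      linear_combination (2⁻¹ : L) ^ 2 * ((x 1 : L) - ((x 1)⁻¹ : Lˣ)) ^ 2 * hi +
        4 * (2⁻¹ : L) ^ 2 * hx1 + (2 * (2⁻¹ : L) + 1) * h3)
  have key : P * dg x = g * P := by
    apply Units.ext
    rw [Units.val_mul, Units.val_mul, hge, dg_eq, diagGL_coe]
    change (!![1, 1, 0, 0, 0; -i, i, 0, 0, 0; 0, 0, 1, 1, 0; 0, 0, -i, i, 0; 0, 0, 0, 0, 1] :
      Matrix (Fin 5) (Fin 5) L) * _ = _ * !![1, 1, 0, 0, 0; -i, i, 0, 0, 0; 0, 0, 1, 1, 0;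
        0, 0, -i, i, 0; 0, 0, 0, 0, 1]
    have h3 : (2 : L) * 2⁻¹ = 1 := mul_inv_cancel₀ h2
    ext a b
    rw [Matrix.mul_diagonal]
    set u := (x 0 : L) with hu
    set u' := (((x 0)⁻¹ : Lˣ) : L) with hu'
    set w := (x 1 : L) with hw
    set w' := (((x 1)⁻¹ : Lˣ) : L) with hw'
    have hu'' : u⁻¹ = u' := by simp [u', u]
    have hw'' : w⁻¹ = w' := by simp [w', w]
    fin_cases a <;> fin_cases b <;>
      simp [blk, Matrix.mul_apply, Fin.sum_univ_five, hu'', hw'', ← hu, ← hw] <;>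
      first
        | ring1
        | linear_combination (-u) * h3 + 2⁻¹ * (u - u') * hi
        | linear_combination (-u') * h3 - 2⁻¹ * (u - u') * hi
        | linear_combination (-i * u') * h3
        | linear_combination (-w) * h3 + 2⁻¹ * (w - w') * hi
        | linear_combination (-w') * h3 - 2⁻¹ * (w - w') * hi
        | linear_combination (-i * w') * h3
  have : P * dg x * P⁻¹ = g := by rw [key]; group
  rw [this]; exact hg

theorem hasSplitTorus_two {L : Type} [Field L] [Algebra ℚ L] (i : L) (hi : i * i = -1) :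
    SO5.HasSplitTorus L 2 := by
  have : CharZero L := algebraRat.charZero L
  obtain ⟨P, hP⟩ := split_mem i hi
  refine ⟨P, wt, ?_, fun x => ?_⟩
  · intro c hc
    have h0 := hc 0
    have h2 := hc 2
    simp [wt, Fin.sum_univ_two] at h0 h2
    ext j
    fin_cases j
    · exact h0
    · exact h2
  · rw [points_eq]
    exact hP x

theorem hasSplitTorus_one {L : Type} [Field L] [Algebra ℚ L] (i : L) (hi : i * i = -1) :
    SO5.HasSplitTorus L 1 := by
  have : CharZero L := algebraRat.charZero L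
  obtain ⟨P, hP⟩ := split_mem i hi
  refine ⟨P, fun k _ => wt k 0, ?_, fun x => ?_⟩
  · intro c hc
    have h0 := hc 0
    simp [wt] at h0
    ext j
    fin_cases j
    exact h0
  · rw [points_eq]
    have := hP ![x 0, 1]
    rw [dg] at this
    have e : (fun k => ∏ j, x j ^ wt k 0) = fun k => ∏ j, (![x 0, 1] : Fin 2 → Lˣ) j ^ wt k j := by
      ext k
      simp [Fin.prod_univ_two]
    rw [e]
    exact this

theorem hasSplitTorus_zero {K : Type} [Field K] {m : ℕ} (𝒢 : AlgGroup K m) (L : Type) [Field L]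
    [Algebra K L] : 𝒢.HasSplitTorus L 0 := by
  refine ⟨1, fun _ _ => 0, fun c _ => Subsingleton.elim _ _, fun x => ?_⟩
  have e : (fun k : Fin m => ∏ j, x j ^ (fun _ _ => 0 : Fin m → Fin 0 → ℤ) k j) = 1 := by
    ext k; simp
  rw [e, diagGL_one]
  simp

/-- The identity isomorphism. -/
noncomputable def idIso : SO5.points ℂ ≃* SOG ℂ := MulEquiv.subgroupCongr (points_eq ℂ)

theorem idIso_coe (g : SO5.points ℂ) : ((idIso g : SOG ℂ) : GL (Fin 5) ℂ) = g := rfl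

/-- The triple `(SO₅, ℚ, {∞, 5})`. -/
noncomputable def T1 : Triple (SOG ℂ) where
  K := ℚ
  S := {v5}
  m := 5
  𝒢 := SO5
  σ := idIso
  σ_regular := fun i j => ⟨MvPolynomial.X (Sum.inl (i, j)), fun g => by
    rw [MvPolynomial.aeval_X]; rfl⟩
  σ_symm_regular := fun i j => ⟨MvPolynomial.X (Sum.inl (i, j)), fun g => by
    rw [MvPolynomial.aeval_X]; rfl⟩
  isotropic := by
    intro v hv
    rw [Finset.mem_singleton] at hv
    subst hv
    obtain ⟨i, hi⟩ := exists_sqrt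
    exact hasSplitTorus_one i hi

theorem T1_rank : T1.SRankGE 2 := by
  have key : ∀ v ∈ ({v5} : Finset (HeightOneSpectrum (𝓞 ℚ))),
      SO5.HasSplitTorus (v.adicCompletion ℚ) 2 := by
    intro v hv
    rw [Finset.mem_singleton] at hv
    subst hv
    obtain ⟨i, hi⟩ := exists_sqrt
    exact hasSplitTorus_two i hi
  refine ⟨fun _ => 0, fun _ => 2, ?_, fun v => hasSplitTorus_zero _ _, key⟩
  have : T1.S = {v5} := rfl
  rw [this]
  simp
  exact Finset.singleton_nonempty _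

/-- The group `Γ₁ = SO₅(ℤ[1/5])` inside `GL₅(ℂ)`. -/
noncomputable def Gam1 : Subgroup (GL (Fin 5) ℂ) := Gam.map cmap

theorem mem_integralPoints (g : GL (Fin 5) ℂ) : g ∈ SO5.integralPoints {v5} ↔ g ∈ Gam1 := by
  constructor
  · rintro ⟨hx1, hx2⟩
    have hxS : g ∈ SOG ℂ := by
      rw [← points_eq ℂ]; exact hx1
    have h1 : ∀ i j, ∃ q ∈ Z5, (g : Matrix (Fin 5) (Fin 5) ℂ) i j = ((q : ℚ) : ℂ) := by
      intro i j
      obtain ⟨q, hq, hq'⟩ := hx2 (Sum.inl (i, j))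
      exact ⟨q, (mem_integer_iff q).1 hq, hq'⟩
    choose q hq hq' using h1
    have hM : (g : Matrix (Fin 5) (Fin 5) ℂ) = (Matrix.of q).map (algebraMap ℚ ℂ) := by
      ext i j
      rw [hq' i j]; rfl
    have hq1 : Matrix.of q * (Matrix.of q)ᵀ = 1 := by
      have h2 := hxS.1
      rw [hM, ← Matrix.transpose_map, ← Matrix.map_mul] at h2
      ext i j
      have h3 := congrFun (congrFun h2 i) j
      rw [Matrix.map_apply] at h3
      have h4 : (1 : Matrix (Fin 5) (Fin 5) ℂ) i j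
          = algebraMap ℚ ℂ ((1 : Matrix (Fin 5) (Fin 5) ℚ) i j) := by
        rw [Matrix.one_apply, Matrix.one_apply]; split_ifs <;> simp
      rw [h4] at h3
      exact (algebraMap ℚ ℂ).injective h3
    have hq2 : (Matrix.of q).det = 1 := by
      have h2 := hxS.2
      rw [hM, ← RingHom.mapMatrix_apply, ← RingHom.map_det] at h2
      apply (algebraMap ℚ ℂ).injective
      rw [h2, map_one]
    refine ⟨mkG _ hq1, ⟨mkG_mem _ hq1 hq2, fun i j => hq i j⟩, ?_⟩
    apply Units.ext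
    rw [hM, cmap_coe]
    rfl
  · rintro ⟨x, hx, rfl⟩
    refine ⟨by rw [points_eq]; exact cmap_mem hx.1, ?_⟩
    rintro (⟨i, j⟩ | ⟨i, j⟩)
    · exact ⟨_, (mem_integer_iff _).2 (hx.2 i j), rfl⟩
    · refine ⟨_, (mem_integer_iff _).2 ((inv_mem hx).2 i j), ?_⟩
      change (((cmap x)⁻¹ : GL (Fin 5) ℂ) : Matrix (Fin 5) (Fin 5) ℂ) i j = _
      rw [← map_inv]; rfl

theorem T1_arithGroup : T1.arithGroup = Gam1 := by
  ext g
  constructor
  · rintro ⟨g', ⟨x, hx, rfl⟩, rfl⟩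
    exact (mem_integralPoints _).1 hx
  · intro hg
    have h2 := (mem_integralPoints g).2 hg
    have h3 : g ∈ SOG ℂ := by rw [← points_eq]; exact h2.1
    exact ⟨⟨g, h3⟩, ⟨⟨g, h2.1⟩, h2, rfl⟩, rfl⟩

theorem T1_isArithmetic : T1.IsArithmetic Gam1 := by
  rw [Triple.IsArithmetic, T1_arithGroup]

end Pool.Agent.TH16.WC
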