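import Mathlib
import Pool.Agent.TH16.WC.Arith

set_option autoImplicit false

/-! Descent of polynomials and denominators. -/

namespace Pool.Agent.TH16.WC

open Matrix NumberField IsDedekindDomain

/-- Applying a `K`-linear map to the coefficients. -/
theorem exists_descend {K : Type} [Field K] [Algebra K ℂ] (ρ : ℂ →ₗ[K] K) {ι : Type}
    (P : MvPolynomial ι ℂ) : ∃ Q : MvPolynomial ι K, ∀ x : ι → K,
      ρ (MvPolynomial.aeval (fun i => algebraMap K ℂ (x i)) P) = MvPolynomial.aeval x Q := by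
  induction P using MvPolynomial.induction_on' with
  | monomial u a =>
    refine ⟨MvPolynomial.monomial u (ρ a), fun x => ?_⟩
    rw [MvPolynomial.aeval_monomial, MvPolynomial.aeval_monomial]
    have h1 : (u.prod fun i k => (algebraMap K ℂ (x i)) ^ k)
        = algebraMap K ℂ (u.prod fun i k => x i ^ k) := by
      rw [Finsupp.prod, Finsupp.prod, map_prod]
      refine Finset.prod_congr rfl fun i _ => ?_
      rw [map_pow]
    rw [h1]
    have h2 : algebraMap ℂ ℂ a * algebraMap K ℂ (u.prod fun i k => x i ^ k) =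
        (u.prod fun i k => x i ^ k) • a := by
      rw [Algebra.smul_def, mul_comm]; rfl
    rw [h2, map_smul, smul_eq_mul, mul_comm]
    rfl
  | add p q hp hq =>
    obtain ⟨Q1, h1⟩ := hp
    obtain ⟨Q2, h2⟩ := hq
    exact ⟨Q1 + Q2, fun x => by rw [map_add, map_add, map_add, h1, h2]⟩

/-- Polynomials have bounded denominators on `O`. -/
theorem bounded_denom {K : Type} [Field K] (O : Subring K)
    (hO : ∀ a : K, ∃ N : ℕ, 0 < N ∧ (N : K) * a ∈ O) {ι : Type} (R : MvPolynomial ι K) :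
    ∃ N : ℕ, 0 < N ∧ ∀ y : ι → K, (∀ i, y i ∈ O) → (N : K) * MvPolynomial.aeval y R ∈ O := by
  induction R using MvPolynomial.induction_on with
  | C a =>
    obtain ⟨N, hN, h⟩ := hO a
    exact ⟨N, hN, fun y _ => by simpa using h⟩
  | add p q hp hq =>
    obtain ⟨N1, hN1, h1⟩ := hp
    obtain ⟨N2, hN2, h2⟩ := hq
    refine ⟨N1 * N2, Nat.mul_pos hN1 hN2, fun y hy => ?_⟩
    have : ((N1 * N2 : ℕ) : K) * MvPolynomial.aeval y (p + q) =
        (N2 : K) * ((N1 : K) * MvPolynomial.aeval y p) +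
        (N1 : K) * ((N2 : K) * MvPolynomial.aeval y q) := by
      rw [map_add]; push_cast; ring
    rw [this]
    exact add_mem (mul_mem (natCast_mem O N2) (h1 y hy)) (mul_mem (natCast_mem O N1) (h2 y hy))
  | mul_X p i hp =>
    obtain ⟨N, hN, h⟩ := hp
    refine ⟨N, hN, fun y hy => ?_⟩
    rw [map_mul, MvPolynomial.aeval_X, ← mul_assoc]
    exact mul_mem (h y hy) (hy i)

/-- Congruences. -/
theorem congr_poly {K : Type} [Field K] [CharZero K] (O : Subring K)
    (hO : ∀ a : K, ∃ N : ℕ, 0 < N ∧ (N : K) * a ∈ O) {ι : Type} (R : MvPolynomial ι K) :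
    ∃ N : ℕ, 0 < N ∧ ∀ x y : ι → K, (∀ i, x i ∈ O) → (∀ i, y i ∈ O) →
      (∀ i, ∃ w ∈ O, x i - y i = N * w) → MvPolynomial.aeval x R - MvPolynomial.aeval y R ∈ O := by
  induction R using MvPolynomial.induction_on with
  | C a => exact ⟨1, one_pos, fun x y _ _ _ => by simp⟩
  | add p q hp hq =>
    obtain ⟨N1, hN1, h1⟩ := hp
    obtain ⟨N2, hN2, h2⟩ := hq
    refine ⟨N1 * N2, Nat.mul_pos hN1 hN2, fun x y hx hy hxy => ?_⟩
    rw [map_add, map_add, add_sub_add_comm]
    refine add_mem (h1 x y hx hy fun i => ?_) (h2 x y hx hy fun i => ?_)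
    · obtain ⟨w, hw, he⟩ := hxy i
      exact ⟨N2 * w, mul_mem (natCast_mem O N2) hw, by rw [he]; push_cast; ring⟩
    · obtain ⟨w, hw, he⟩ := hxy i
      exact ⟨N1 * w, mul_mem (natCast_mem O N1) hw, by rw [he]; push_cast; ring⟩
  | mul_X p i hp =>
    obtain ⟨N, hN, h⟩ := hp
    obtain ⟨M, hM, h'⟩ := bounded_denom O hO p
    refine ⟨N * M, Nat.mul_pos hN hM, fun x y hx hy hxy => ?_⟩
    rw [map_mul, map_mul, MvPolynomial.aeval_X, MvPolynomial.aeval_X]
    have e : MvPolynomial.aeval x p * x i - MvPolynomial.aeval y p * y i =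
        (MvPolynomial.aeval x p - MvPolynomial.aeval y p) * x i +
        MvPolynomial.aeval y p * (x i - y i) := by ring
    rw [e]
    refine add_mem (mul_mem (h x y hx hy fun j => ?_) (hx i)) ?_
    · obtain ⟨w, hw, he⟩ := hxy j
      exact ⟨M * w, mul_mem (natCast_mem O M) hw, by rw [he]; push_cast; ring⟩
    · obtain ⟨w, hw, he⟩ := hxy i
      rw [he]
      have : MvPolynomial.aeval y p * (((N * M : ℕ) : K) * w) =
          ((M : K) * MvPolynomial.aeval y p) * ((N : K) * w) := by push_cast; ring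
      rw [this]
      exact mul_mem (h' y hy) (mul_mem (natCast_mem O N) hw)

/-- Denominators of elements of a number field. -/
theorem exists_denom {K : Type} [Field K] [NumberField K] (S : Set (HeightOneSpectrum (𝓞 K)))
    (a : K) : ∃ N : ℕ, 0 < N ∧ (N : K) * a ∈ (S.integer K).toSubring := by
  obtain ⟨y, hy, h⟩ := exists_integral_multiples ℤ ℚ ({a} : Finset K)
  have h1 := h a (Finset.mem_singleton_self a)
  refine ⟨y.natAbs, Int.natAbs_pos.2 hy, ?_⟩
  have h2 : IsIntegral ℤ ((y.natAbs : K) * a) := by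
    rw [zsmul_eq_mul] at h1
    rcases Int.natAbs_eq y with h3 | h3
    · have h4 : ((y.natAbs : ℕ) : ℤ) = y := h3.symm
      have : ((y.natAbs : ℕ) : K) = (y : K) := by
        rw [← Int.cast_natCast (R := K) y.natAbs, h4]
      rw [this]; exact h1
    · have h4 : ((y.natAbs : ℕ) : ℤ) = -y := by omega
      have : ((y.natAbs : ℕ) : K) = -(y : K) := by
        rw [← Int.cast_natCast (R := K) y.natAbs, h4, Int.cast_neg]
      rw [this, neg_mul]; exact h1.neg
  intro v _
  exact v.valuation_le_one (⟨_, h2⟩ : 𝓞 K)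

/-- A valuation bound for polynomials. -/
theorem val_bounded {K : Type} [Field K] [NumberField K] (v : HeightOneSpectrum (𝓞 K)) {ι : Type}
    (R : MvPolynomial ι K) : ∃ B : (WithZero (Multiplicative ℤ)), ∀ y : ι → K,
      (∀ i, v.valuation K (y i) ≤ 1) → v.valuation K (MvPolynomial.aeval y R) ≤ B := by
  induction R using MvPolynomial.induction_on with
  | C a => exact ⟨v.valuation K a, fun y _ => by simp⟩
  | add p q hp hq =>
    obtain ⟨B1, h1⟩ := hp
    obtain ⟨B2, h2⟩ := hq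
    refine ⟨max B1 B2, fun y hy => ?_⟩
    rw [map_add]
    exact (Valuation.map_add _ _ _).trans (max_le_max (h1 y hy) (h2 y hy))
  | mul_X p i hp =>
    obtain ⟨B, h⟩ := hp
    refine ⟨B, fun y hy => ?_⟩
    rw [map_mul, MvPolynomial.aeval_X, map_mul]
    exact (mul_le_mul' (h y hy) (hy i)).trans (by rw [mul_one])

theorem val_int_le {K : Type} [Field K] [NumberField K] (v : HeightOneSpectrum (𝓞 K)) (z : ℤ) :
    v.valuation K (z : K) ≤ 1 := by
  have := v.valuation_le_one (K := K) (z : 𝓞 K)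
  simpa using this

/-- `v`-integral rationals are `5`-integral if `v` divides `5`. -/
theorem norm_le_one_of_val {K : Type} [Field K] [NumberField K] (v : HeightOneSpectrum (𝓞 K))
    (h5 : v.valuation K (5 : K) < 1) (q : ℚ) (hq : v.valuation K (q : K) ≤ 1) :
    ‖(q : ℚ_[5])‖ ≤ 1 := by
  apply Padic.norm_rat_le_one
  intro hd
  have hden : v.valuation K ((q.den : ℤ) : K) < 1 := by
    obtain ⟨c, hc⟩ := hd
    have : ((q.den : ℤ) : K) = 5 * ((c : ℤ) : K) := by rw [hc]; push_cast; ring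
    rw [this, map_mul]
    calc v.valuation K 5 * v.valuation K ((c : ℤ) : K) ≤ v.valuation K 5 * 1 :=
          mul_le_mul_right (val_int_le v c) _
      _ < 1 := by rw [mul_one]; exact h5
  have hnum : v.valuation K (q.num : K) = 1 := by
    apply le_antisymm (val_int_le v _)
    by_contra hlt
    push Not at hlt
    have hcop : IsCoprime q.num (q.den : ℤ) := Int.isCoprime_iff_gcd_eq_one.2 q.reduced
    obtain ⟨a, b, hab⟩ := hcop
    have h1 : (1 : K) = (a : K) * (q.num : K) + (b : K) * ((q.den : ℤ) : K) := by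
      have := congrArg (fun z : ℤ => (z : K)) hab
      push_cast at this ⊢
      exact this.symm
    have h2 : v.valuation K (1 : K) < 1 := by
      rw [h1]
      refine (Valuation.map_add _ _ _).trans_lt (max_lt ?_ ?_)
      · rw [map_mul]
        calc v.valuation K (a : K) * v.valuation K (q.num : K)
            ≤ 1 * v.valuation K (q.num : K) := mul_le_mul_left (val_int_le v a) _
          _ < 1 := by rw [one_mul]; exact hlt
      · rw [map_mul]
        calc v.valuation K (b : K) * v.valuation K ((q.den : ℤ) : K)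
            ≤ 1 * v.valuation K ((q.den : ℤ) : K) := mul_le_mul_left (val_int_le v b) _
          _ < 1 := by rw [one_mul]; exact hden
    rw [map_one] at h2
    exact lt_irrefl _ h2
  have h3 : (q : K) * ((q.den : ℤ) : K) = (q.num : K) := by
    have := Rat.mul_den_eq_num q
    have h4 := congrArg (fun z : ℚ => (z : K)) this
    push_cast at h4 ⊢
    exact h4
  have h4 : v.valuation K (q : K) * v.valuation K ((q.den : ℤ) : K) = 1 := by
    rw [← map_mul, h3, hnum]
  have h5' : v.valuation K (q : K) * v.valuation K ((q.den : ℤ) : K) < 1 := by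
    calc v.valuation K (q : K) * v.valuation K ((q.den : ℤ) : K)
        ≤ 1 * v.valuation K ((q.den : ℤ) : K) := mul_le_mul_left hq _
      _ < 1 := by rw [one_mul]; exact hden
  rw [h4] at h5'
  exact lt_irrefl _ h5'

/-- Powers of `t` are congruent to one modulo any given integer. -/
theorem exists_t_congr (N : ℕ) (hN : 0 < N) : ∃ e : ℕ, 0 < e ∧ ∀ i j : Fin 5, ∃ w ∈ Z5,
    ((t ^ e : GL (Fin 5) ℚ) : Matrix (Fin 5) (Fin 5) ℚ) i j
      - (1 : Matrix (Fin 5) (Fin 5) ℚ) i j = N * w := by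
  obtain ⟨a, N', hN', rfl⟩ := Nat.exists_eq_pow_mul_and_not_dvd hN.ne' 5 (by norm_num)
  have hN0 : N' ≠ 0 := by rintro rfl; simp at hN'
  have : NeZero N' := ⟨hN0⟩
  have hcop : Nat.Coprime 5 N' := (Nat.Prime.coprime_iff_not_dvd (by norm_num)).2 hN'
  let φ : ℤ →+* ZMod N' := Int.castRingHom (ZMod N')
  have h5 : IsUnit ((5 : ℕ) : ZMod N') := (ZMod.isUnit_iff_coprime 5 N').2 hcop
  let A : Matrix (Fin 5) (Fin 5) (ZMod N') := tZ.map φ
  have hdet : IsUnit A.det := by
    have h1 : A.det = ((5 : ℕ) : ZMod N') ^ 5 := by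
      have h2 := RingHom.map_det φ tZ
      rw [tZ_det] at h2
      rw [RingHom.mapMatrix_apply] at h2
      rw [← h2]
      simp [φ]
      norm_num
    rw [h1]; exact h5.pow 5
  have hAu : IsUnit A := (Matrix.isUnit_iff_isUnit_det A).2 hdet
  obtain ⟨u, hu⟩ := hAu
  obtain ⟨f, hf⟩ := h5
  have hfin : Finite (Matrix (Fin 5) (Fin 5) (ZMod N'))ˣ := by
    have : Finite (Matrix (Fin 5) (Fin 5) (ZMod N')) :=
      inferInstanceAs (Finite (Fin 5 → Fin 5 → ZMod N'))
    infer_instance
  obtain ⟨e1, he1, h1⟩ := isOfFinOrder_iff_pow_eq_one.1 (isOfFinOrder_of_finite u)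
  obtain ⟨e2, he2, h2⟩ := isOfFinOrder_iff_pow_eq_one.1 (isOfFinOrder_of_finite f)
  have hAe : A ^ (e1 * e2) = 1 := by
    rw [← hu, ← Units.val_pow_eq_pow_val, pow_mul, h1, one_pow, Units.val_one]
  have h5e : ((5 : ℕ) : ZMod N') ^ (e1 * e2) = 1 := by
    rw [← hf, ← Units.val_pow_eq_pow_val, mul_comm, pow_mul, h2, one_pow, Units.val_one]
  set e := e1 * e2 with he
  have hte : ((t ^ e : GL (Fin 5) ℚ) : Matrix (Fin 5) (Fin 5) ℚ)
      = ((5 : ℚ) ^ e)⁻¹ • (tZ ^ e).map (Int.castRingHom ℚ) := by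
    rw [Units.val_pow_eq_pow_val]
    change (ofInt tZ 1) ^ e = _
    rw [ofInt_eq, smul_pow, pow_one, inv_pow, Matrix.map_pow]
  refine ⟨e, Nat.mul_pos he1 he2, fun i j => ?_⟩
  have hdvd : (N' : ℤ) ∣ (tZ ^ e) i j - 5 ^ e * (1 : Matrix (Fin 5) (Fin 5) ℤ) i j := by
    rw [← ZMod.intCast_zmod_eq_zero_iff_dvd]
    have h3 := congrFun (congrFun hAe i) j
    have h4 : (A ^ e) i j = (((tZ ^ e) i j : ℤ) : ZMod N') := by
      have : A ^ e = (tZ ^ e).map φ := by rw [Matrix.map_pow]
      rw [this]; rfl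
    rw [h4] at h3
    push_cast at h5e ⊢
    rw [h3, h5e, one_mul, Matrix.one_apply, Matrix.one_apply]
    split_ifs <;> simp
  obtain ⟨z, hz⟩ := hdvd
  refine ⟨(z : ℚ) / 5 ^ (e + a), ⟨z, e + a, rfl⟩, ?_⟩
  have hz' : (((tZ ^ e) i j : ℤ) : ℚ) - 5 ^ e * (1 : Matrix (Fin 5) (Fin 5) ℚ) i j = N' * z := by
    have h3 := congrArg (fun z : ℤ => (z : ℚ)) hz
    push_cast at h3
    rw [← h3, Matrix.one_apply, Matrix.one_apply]
    split_ifs <;> simp
  rw [hte, Matrix.smul_apply, Matrix.map_apply, smul_eq_mul]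
  have h6 : (5 : ℚ) ^ e ≠ 0 := by positivity
  have h7 : (Int.castRingHom ℚ) ((tZ ^ e) i j) = 5 ^ e * (1 : Matrix (Fin 5) (Fin 5) ℚ) i j
      + N' * z := by
    rw [← hz']; simp
  rw [h7, pow_add]
  push_cast
  field_simp
  ring

end Pool.Agent.TH16.WC
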