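import Mathlib
import Pool.Agent.TH16.WC.Descent

set_option autoImplicit false

/-! The group is not `S`-arithmetic. -/

namespace Pool.Agent.TH16.WC

open Matrix NumberField IsDedekindDomain

/-- evaluation of coordinate polynomials as polynomials in the entries -/
noncomputable def toPol (P : MvPolynomial (Coord 5) ℂ) : Pol :=
  MvPolynomial.aeval (Sum.elim (fun p => MvPolynomial.X p) (fun p => MvPolynomial.X (p.2, p.1)) :
    Coord 5 → Pol) P

theorem evM_toPol (P : MvPolynomial (Coord 5) ℂ) {g : GL (Fin 5) ℂ} (hg : g ∈ SOG ℂ) :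
    evM (g : Matrix (Fin 5) (Fin 5) ℂ) (toPol P) = MvPolynomial.aeval (coords g) P := by
  induction P using MvPolynomial.induction_on with
  | C a => simp [toPol, evM]
  | add p q hp hq =>
    have : toPol (p + q) = toPol p + toPol q := by simp [toPol]
    rw [this, map_add, hp, hq, map_add]
  | mul_X p i hp =>
    have : toPol (p * MvPolynomial.X i) = toPol p * toPol (MvPolynomial.X i) := by simp [toPol]
    rw [this, map_mul, hp, map_mul]
    congr 1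
    rcases i with ⟨a, b⟩ | ⟨a, b⟩
    · simp [toPol, evM, coords]
    · have h1 := SOG_inv hg
      simp only [toPol, MvPolynomial.aeval_X, Sum.elim_inr, evM_X, coords]
      rw [h1]; rfl

/-- density in terms of coordinate polynomials -/
theorem dense_coord (Δ : Subgroup (GL (Fin 5) ℂ)) (hΔ' : Δ ≤ SOG ℂ) (n m e : ℕ → ℕ)
    (hn : ∀ N, ∃ i, N ≤ n i)
    (hm : ∀ i, 1 ≤ m i) (he : ∀ i, 0 < e i)
    (hΔ : ∀ i, cmap ((r ^ n i * t ^ m i) * s ^ e i * (r ^ n i * t ^ m i)⁻¹) ∈ Δ)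
    (P : MvPolynomial (Coord 5) ℂ) (hP : ∀ g ∈ Δ, MvPolynomial.aeval (coords g) P = 0) :
    ∀ g ∈ SOG ℂ, MvPolynomial.aeval (coords g) P = 0 := by
  intro g hg
  rw [← evM_toPol P hg]
  apply dense_of_gens Δ n m e hn hm he hΔ _ _ g hg
  intro x hx
  rw [evM_toPol P (hΔ' hx)]
  exact hP x hx

theorem rat_cast_eq {K : Type} [Field K] [CharZero K] [Algebra K ℂ] (q : ℚ) :
    (algebraMap K ℂ) (q : K) = ((q : ℚ) : ℂ) := by
  rw [map_ratCast]

/-- Case A: a place above `5` is missing. -/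
theorem caseA {K : Type} [Field K] [NumberField K] [Algebra K ℂ]
    (S : Finset (HeightOneSpectrum (𝓞 K))) {m : ℕ} (𝒢 : AlgGroup K m)
    (σ : 𝒢.points ℂ ≃* SOG ℂ) (h1 : IsRegular σ)
    (ρ : ℂ →ₗ[K] K) (hρ : ∀ x, ρ (algebraMap K ℂ x) = x)
    (v : HeightOneSpectrum (𝓞 K)) (hv5 : v.valuation K (5 : K) < 1) (hv : v ∉ S)
    (γ : GL (Fin 5) ℚ) (hγ : γ ∈ Gam) (hinf : ¬ IsOfFinOrder γ)
    (hmem : ∀ k : ℕ, ∃ g : 𝒢.points ℂ, (g : GL (Fin m) ℂ) ∈ 𝒢.integralPoints S ∧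
      ((σ g : SOG ℂ) : GL (Fin 5) ℂ) = cmap (γ ^ k)) : False := by
  choose P hP using h1
  choose Q hQ using fun i j => exists_descend ρ (P i j)
  choose B hB using fun i j => val_bounded v (Q i j)
  have hbd : ∀ (k : ℕ) (i j : Fin 5),
      v.valuation K ((((γ ^ k : GL (Fin 5) ℚ) : Matrix (Fin 5) (Fin 5) ℚ) i j : ℚ) : K) ≤ B i j := by
    intro k i j
    obtain ⟨g, ⟨-, hg2⟩, hg3⟩ := hmem k
    choose x hx hx' using hg2
    have e1 := hP i j g
    rw [hg3, cmap_coe, Matrix.map_apply] at e1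
    have e2 : coords (g : GL (Fin m) ℂ) = fun c => algebraMap K ℂ (x c) := funext hx'
    rw [e2] at e1
    have e3 := congrArg ρ e1
    rw [hQ i j x] at e3
    have e4 : (algebraMap ℚ ℂ) (((γ ^ k : GL (Fin 5) ℚ) : Matrix (Fin 5) (Fin 5) ℚ) i j) =
        algebraMap K ℂ ((((γ ^ k : GL (Fin 5) ℚ) : Matrix (Fin 5) (Fin 5) ℚ) i j : ℚ) : K) := by
      rw [rat_cast_eq]; rfl
    rw [e4, hρ] at e3
    rw [e3]
    exact hB i j x fun c => hx c v (by simpa using hv)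
  obtain ⟨B', hB'⟩ : ∃ B' : WithZero (Multiplicative ℤ), ∀ i j, B i j ≤ B' :=
    ⟨Finset.univ.sup fun p : Fin 5 × Fin 5 => B p.1 p.2, fun i j =>
      Finset.le_sup (f := fun p : Fin 5 × Fin 5 => B p.1 p.2) (Finset.mem_univ (i, j))⟩
  obtain ⟨k0, hk0⟩ : ∃ k0 : ℕ, v.valuation K (5 : K) ^ k0 * B' ≤ 1 := by
    by_cases hB0 : B' = 0
    · exact ⟨0, by rw [hB0, mul_zero]; exact zero_le_one⟩
    · obtain ⟨k0, hk0⟩ := exists_pow_lt₀ hv5 (Units.mk0 B' hB0)⁻¹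
      refine ⟨k0, ?_⟩
      calc v.valuation K (5 : K) ^ k0 * B' ≤ ((Units.mk0 B' hB0)⁻¹ : (WithZero (Multiplicative ℤ))ˣ) * B' :=
            mul_le_mul_left hk0.le _
        _ = 1 := by simp [hB0]
  obtain ⟨n, a, b, hn⟩ := unbounded_of_infinite hγ hinf (5 ^ k0)
  set q : ℚ := ((γ ^ n : GL (Fin 5) ℚ) : Matrix (Fin 5) (Fin 5) ℚ) a b with hq
  have h2 : v.valuation K (((5 ^ k0 * q : ℚ)) : K) ≤ 1 := by
    push_cast
    rw [map_mul, map_pow]
    exact (mul_le_mul_right ((hbd n a b).trans (hB' a b)) _).trans hk0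
  have h3 := norm_le_one_of_val v hv5 _ h2
  push_cast at h3
  rw [norm_mul, norm_pow, norm_five] at h3
  have h4 : (5 : ℝ) ^ k0 * (1 / 5) ^ k0 = 1 := by rw [← mul_pow]; norm_num
  have h5 : ‖(q : ℚ_[5])‖ ≤ 5 ^ k0 := by
    calc ‖(q : ℚ_[5])‖ = 5 ^ k0 * ((1 / 5) ^ k0 * ‖(q : ℚ_[5])‖) := by
          rw [← mul_assoc, h4, one_mul]
      _ ≤ 5 ^ k0 * 1 := mul_le_mul_of_nonneg_left h3 (by positivity)
      _ = 5 ^ k0 := mul_one _
  linarith

theorem Z5_le {K : Type} [Field K] [NumberField K] (S : Finset (HeightOneSpectrum (𝓞 K)))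
    (hS : ∀ v : HeightOneSpectrum (𝓞 K), v.valuation K (5 : K) < 1 → v ∈ S) {q : ℚ} (hq : q ∈ Z5) :
    ((q : ℚ) : K) ∈ ((S : Set (HeightOneSpectrum (𝓞 K))).integer K).toSubring := by
  obtain ⟨z, k, rfl⟩ := hq
  intro v hv
  have h5 : v.valuation K (5 : K) = 1 := by
    apply le_antisymm
    · have := val_int_le v 5
      push_cast at this
      exact this
    · by_contra h
      push Not at h
      exact hv (by simpa using hS v h)
  push_cast
  rw [map_div₀, map_pow, h5, one_pow, div_one]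
  exact val_int_le v z

/-- Case B: all places above `5` belong to `S`. -/
theorem caseB {K : Type} [Field K] [NumberField K] [Algebra K ℂ]
    (S : Finset (HeightOneSpectrum (𝓞 K))) {m : ℕ} (𝒢 : AlgGroup K m)
    (σ : 𝒢.points ℂ ≃* SOG ℂ) (h2 : IsRegular σ.symm)
    (ρ : ℂ →ₗ[K] K) (hρ : ∀ x, ρ (algebraMap K ℂ x) = x)
    (hS : ∀ v : HeightOneSpectrum (𝓞 K), v.valuation K (5 : K) < 1 → v ∈ S)
    (Δ : Subgroup (GL (Fin 5) ℂ)) (hΔ : Δ ≤ SOG ℂ)
    (hΔd : ∀ P : MvPolynomial (Coord 5) ℂ, (∀ g ∈ Δ, MvPolynomial.aeval (coords g) P = 0) →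
      ∀ g ∈ SOG ℂ, MvPolynomial.aeval (coords g) P = 0)
    (hΔm : ∀ x ∈ Δ, (∃ γ : GL (Fin 5) ℚ, x = cmap γ) ∧ ∃ g : 𝒢.points ℂ,
      (g : GL (Fin m) ℂ) ∈ 𝒢.integralPoints S ∧ ((σ g : SOG ℂ) : GL (Fin 5) ℂ) = x) :
    ∃ e : ℕ, 0 < e ∧ ∃ g : 𝒢.points ℂ, (g : GL (Fin m) ℂ) ∈ 𝒢.integralPoints S ∧
      ((σ g : SOG ℂ) : GL (Fin 5) ℂ) = cmap (t ^ e) := by
  choose Q hQ using h2
  choose R hR using fun i j => exists_descend ρ (Q i j)
  -- the inverse isomorphism has coefficients in `K`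
  have key : ∀ (γ : GL (Fin 5) ℚ) (hγ : cmap γ ∈ SOG ℂ) (i j : Fin m),
      ((σ.symm ⟨cmap γ, hγ⟩ : GL (Fin m) ℂ) : Matrix (Fin m) (Fin m) ℂ) i j =
        algebraMap K ℂ (MvPolynomial.aeval (fun c => ((coords γ c : ℚ) : K)) (R i j)) := by
    have hcoord : ∀ γ : GL (Fin 5) ℚ, coords (cmap γ) =
        fun c => algebraMap K ℂ ((coords γ c : ℚ) : K) := by
      intro γ
      ext c
      rw [rat_cast_eq]
      rcases c with ⟨a, b⟩ | ⟨a, b⟩
      · rfl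
      · change (((cmap γ)⁻¹ : GL (Fin 5) ℂ) : Matrix (Fin 5) (Fin 5) ℂ) a b = _
        rw [← map_inv]; rfl
    have hev : ∀ (γ : GL (Fin 5) ℚ) (i j : Fin m),
        MvPolynomial.aeval (coords (cmap γ)) (MvPolynomial.map (algebraMap K ℂ) (R i j)) =
        algebraMap K ℂ (MvPolynomial.aeval (fun c => ((coords γ c : ℚ) : K)) (R i j)) := by
      intro γ i j
      rw [hcoord, MvPolynomial.aeval_map_algebraMap]
      change MvPolynomial.aeval (algebraMap K ℂ ∘ (fun c => ((coords γ c : ℚ) : K))) (R i j) = _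
      rw [MvPolynomial.aeval_algebraMap_apply]
    intro γ hγ i j
    rw [hQ i j ⟨cmap γ, hγ⟩, ← hev]
    have h3 := hΔd (Q i j - MvPolynomial.map (algebraMap K ℂ) (R i j)) (by
      intro x hx
      obtain ⟨⟨γ', rfl⟩, g, ⟨-, hg2⟩, hg3⟩ := hΔm x hx
      rw [map_sub, hev, sub_eq_zero]
      have hsy : σ.symm ⟨cmap γ', hΔ hx⟩ = g := by
        rw [MulEquiv.symm_apply_eq]; exact Subtype.ext hg3.symm
      have h4 := hQ i j ⟨cmap γ', hΔ hx⟩
      rw [hsy] at h4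
      obtain ⟨y, -, hy⟩ := hg2 (Sum.inl (i, j))
      have h5 : ((g : GL (Fin m) ℂ) : Matrix (Fin m) (Fin m) ℂ) i j = algebraMap K ℂ y := hy
      rw [h5] at h4
      have h6 := congrArg ρ h4
      rw [hρ, hcoord, hR] at h6
      rw [← h6, h4]) (cmap γ) hγ
    rw [map_sub, sub_eq_zero] at h3
    exact h3
  -- denominators
  set O : Subring K := ((S : Set (HeightOneSpectrum (𝓞 K))).integer K).toSubring with hO
  choose N hN hN' using fun p : Fin m × Fin m => congr_poly O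
    (exists_denom (S : Set (HeightOneSpectrum (𝓞 K)))) (R p.1 p.2)
  obtain ⟨e, he, ht⟩ := exists_t_congr (∏ p, N p) (Finset.prod_pos fun p _ => hN p)
  have htmem : t ^ e ∈ Gam := pow_mem t_memG e
  have hcm : cmap (t ^ e) ∈ SOG ℂ := cmap_mem htmem.1
  have hcm' : cmap (t ^ e)⁻¹ ∈ SOG ℂ := cmap_mem (inv_mem htmem).1
  have h1m : cmap (1 : GL (Fin 5) ℚ) ∈ SOG ℂ := cmap_mem (one_mem _)
  have hone : ∀ i j, MvPolynomial.aeval (fun c => ((coords (1 : GL (Fin 5) ℚ) c : ℚ) : K)) (R i j)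
      ∈ O := by
    intro i j
    have h3 := key 1 h1m i j
    have h4 : σ.symm ⟨cmap 1, h1m⟩ = 1 := by
      have : (⟨cmap 1, h1m⟩ : SOG ℂ) = 1 := Subtype.ext (map_one cmap)
      rw [this, map_one]
    rw [h4] at h3
    have h5 : (((1 : 𝒢.points ℂ) : GL (Fin m) ℂ) : Matrix (Fin m) (Fin m) ℂ) i j
        = algebraMap K ℂ (if i = j then 1 else 0) := by
      simp only [Subgroup.coe_one, Units.val_one, Matrix.one_apply]
      split_ifs <;> simp
    rw [h5] at h3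
    rw [← (algebraMap K ℂ).injective h3]
    split_ifs
    · exact one_mem _
    · exact zero_mem _
  -- membership of the entries
  have hent : ∀ γ : GL (Fin 5) ℚ, γ ∈ Gam →
      (∀ i j : Fin 5, ∃ w ∈ Z5, (γ : Matrix (Fin 5) (Fin 5) ℚ) i j
        - (1 : Matrix (Fin 5) (Fin 5) ℚ) i j = (∏ p, N p : ℕ) * w) →
      ∀ i j, MvPolynomial.aeval (fun c => ((coords γ c : ℚ) : K)) (R i j) ∈ O := by
    intro γ hγ hc i j
    have hZ : ∀ (δ : GL (Fin 5) ℚ), δ ∈ Gam → ∀ c, coords δ c ∈ Z5 := by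
      rintro δ hδ (⟨a, b⟩ | ⟨a, b⟩)
      · exact hδ.2 a b
      · exact (inv_mem hδ).2 a b
    have h3 := hN' (i, j) (fun c => ((coords γ c : ℚ) : K))
      (fun c => ((coords (1 : GL (Fin 5) ℚ) c : ℚ) : K))
      (fun c => Z5_le S hS (hZ γ hγ c)) (fun c => Z5_le S hS (hZ 1 (one_mem _) c)) (fun c => by
        obtain ⟨M, hM⟩ := Finset.dvd_prod_of_mem N (Finset.mem_univ (i, j))
        have h4 : ∃ w ∈ Z5, coords γ c - coords 1 c = (∏ p, N p : ℕ) * w := by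
          rcases c with ⟨a, b⟩ | ⟨a, b⟩
          · exact hc a b
          · have h5 : coords γ (Sum.inr (a, b)) = (γ : Matrix (Fin 5) (Fin 5) ℚ) b a := by
              change ((γ⁻¹ : GL (Fin 5) ℚ) : Matrix (Fin 5) (Fin 5) ℚ) a b = _
              rw [SOG_inv hγ.1]; rfl
            have h6 : coords (1 : GL (Fin 5) ℚ) (Sum.inr (a, b))
                = (1 : Matrix (Fin 5) (Fin 5) ℚ) b a := by
              change ((1⁻¹ : GL (Fin 5) ℚ) : Matrix (Fin 5) (Fin 5) ℚ) a b = _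
              rw [inv_one, Units.val_one, Matrix.one_apply, Matrix.one_apply]
              simp only [eq_comm]
            rw [h5, h6]
            exact hc b a
        obtain ⟨w, hw, hwe⟩ := h4
        refine ⟨M * (w : K), mul_mem (natCast_mem O M) (Z5_le S hS hw), ?_⟩
        have h7 := congrArg (fun q : ℚ => (q : K)) hwe
        rw [hM] at h7
        push_cast at h7
        rw [h7]
        ring)
    have h8 := add_mem h3 (hone i j)
    rw [sub_add_cancel] at h8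
    exact h8
  have ht' : ∀ i j : Fin 5, ∃ w ∈ Z5, (((t ^ e)⁻¹ : GL (Fin 5) ℚ) : Matrix (Fin 5) (Fin 5) ℚ) i j
        - (1 : Matrix (Fin 5) (Fin 5) ℚ) i j = (∏ p, N p : ℕ) * w := by
    intro i j
    rw [SOG_inv htmem.1, Matrix.transpose_apply]
    have h5 : (1 : Matrix (Fin 5) (Fin 5) ℚ) i j = (1 : Matrix (Fin 5) (Fin 5) ℚ) j i := by
      rw [Matrix.one_apply, Matrix.one_apply]
      simp only [eq_comm]
    rw [h5]
    exact ht j i
  refine ⟨e, he, σ.symm ⟨cmap (t ^ e), hcm⟩, ⟨(σ.symm ⟨cmap (t ^ e), hcm⟩).2, ?_⟩, ?_⟩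
  · rintro (⟨i, j⟩ | ⟨i, j⟩)
    · exact ⟨_, hent _ htmem ht i j, key _ hcm i j⟩
    · refine ⟨_, hent _ (inv_mem htmem) ht' i j, ?_⟩
      rw [← key _ hcm' i j]
      have : σ.symm ⟨cmap (t ^ e)⁻¹, hcm'⟩ = (σ.symm ⟨cmap (t ^ e), hcm⟩)⁻¹ := by
        rw [← map_inv]
        congr 1
      rw [this]; rfl
  · rw [MulEquiv.apply_symm_apply]

theorem mem_arithGroup (T : Triple (SOG ℂ)) (x : GL (Fin 5) ℂ) :
    x ∈ T.arithGroup ↔ ∃ g : T.𝒢.points ℂ, (g : GL (Fin T.m) ℂ) ∈ T.𝒢.integralPoints T.S ∧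
      ((T.σ g : SOG ℂ) : GL (Fin 5) ℂ) = x := by
  constructor
  · rintro ⟨_, ⟨g, hg, rfl⟩, rfl⟩
    exact ⟨g, hg, rfl⟩
  · rintro ⟨g, hg, rfl⟩
    exact ⟨_, ⟨g, hg, rfl⟩, rfl⟩

/-- **Non-arithmeticity.** -/
theorem not_arith (Γ : Subgroup (GL (Fin 5) ℚ)) (hΓ : Γ ≤ Gam) (ht : ∀ k : ℕ, 0 < k → t ^ k ∉ Γ)
    (n m : ℕ → ℕ) (hn : ∀ N, ∃ i, N ≤ n i) (hm : ∀ i, 1 ≤ m i)
    (hgen : ∀ i, (r ^ n i * t ^ m i) * s * (r ^ n i * t ^ m i)⁻¹ ∈ Γ) :
    ¬ IsSArithmetic (SOG ℂ) (Γ.map cmap) := by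
  rintro ⟨T, hT1, hT2⟩
  -- hT1 : relIndex of one in the other, hT2 : the other way
  have hpow : ∀ i, ∃ e : ℕ, 0 < e ∧
      cmap ((r ^ n i * t ^ m i) * s ^ e * (r ^ n i * t ^ m i)⁻¹) ∈ T.arithGroup ⊓ Γ.map cmap := by
    intro i
    obtain ⟨e, he, -, h⟩ := Subgroup.exists_pow_mem_of_relIndex_ne_zero
      (H := T.arithGroup) (K := Γ.map cmap) (by first | exact hT1 | exact hT2)
      (Subgroup.mem_map_of_mem cmap (hgen i))
    refine ⟨e, he, ?_⟩
    rw [← map_pow, conj_pow] at h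
    exact h
  choose e he hmem using hpow
  have hle : T.arithGroup ⊓ Γ.map cmap ≤ SOG ℂ := by
    rintro x ⟨-, γ, hγ, rfl⟩
    exact cmap_mem (hΓ hγ).1
  have hdense := dense_coord (T.arithGroup ⊓ Γ.map cmap) hle n m e hn hm he hmem
  obtain ⟨ρ, hρ⟩ : ∃ ρ : ℂ →ₗ[T.K] T.K, ∀ x, ρ (algebraMap T.K ℂ x) = x := by
    obtain ⟨ρ, hρ⟩ := LinearMap.exists_leftInverse_of_injective (Algebra.linearMap T.K ℂ)
      (LinearMap.ker_eq_bot.2 (algebraMap T.K ℂ).injective)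
    exact ⟨ρ, fun x => LinearMap.congr_fun hρ x⟩
  by_cases hS : ∀ v : HeightOneSpectrum (𝓞 T.K), v.valuation T.K (5 : T.K) < 1 → v ∈ T.S
  · obtain ⟨e', he', g, hg, hge⟩ := caseB T.S T.𝒢 T.σ T.σ_symm_regular ρ hρ hS
      (T.arithGroup ⊓ Γ.map cmap) hle hdense (by
        rintro x ⟨hx1, γ, hγ, rfl⟩
        exact ⟨⟨γ, rfl⟩, (mem_arithGroup T _).1 hx1⟩)
    have h3 : cmap (t ^ e') ∈ T.arithGroup := (mem_arithGroup T _).2 ⟨g, hg, hge⟩
    obtain ⟨k, hk, -, h4, -⟩ := Subgroup.exists_pow_mem_of_relIndex_ne_zero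
      (H := Γ.map cmap) (K := T.arithGroup) (by first | exact hT1 | exact hT2) h3
    rw [← map_pow, ← pow_mul] at h4
    obtain ⟨y, hy, hye⟩ := h4
    rw [cmap_injective hye] at hy
    exact ht _ (Nat.mul_pos he' hk) hy
  · push Not at hS
    obtain ⟨v, hv5, hv⟩ := hS
    set h := r ^ n 0 * t ^ m 0 with hh
    have hG : h * s ^ e 0 * h⁻¹ ∈ Gam := mul_mem (mul_mem (mul_mem (pow_mem r_memG _)
      (pow_mem t_memG _)) (pow_mem s_memG _)) (inv_mem (mul_mem (pow_mem r_memG _)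
      (pow_mem t_memG _)))
    refine caseA T.S T.𝒢 T.σ T.σ_regular ρ hρ v hv5 hv (h * s ^ e 0 * h⁻¹) hG ?_ ?_
    · rw [isOfFinOrder_iff_pow_eq_one]
      rintro ⟨k, hk, hk1⟩
      rw [conj_pow, ← pow_mul] at hk1
      have h5 : s ^ (e 0 * k) = 1 := by
        have := hk1
        calc s ^ (e 0 * k) = h⁻¹ * (h * s ^ (e 0 * k) * h⁻¹) * h := by group
          _ = 1 := by rw [this]; group
      have h6 := norm_xm_dot_s (e 0 * k) (Nat.mul_pos (he 0) hk).ne'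
      rw [h5, act_one] at h6
      have h7 : xm ⬝ᵥ xm = 0 := by
        simp only [dotProduct, Fin.sum_univ_five, xm]
        simp; linear_combination io_mul
      rw [h7, norm_zero] at h6
      have : (0 : ℝ) < 5 ^ (e 0 * k) := by positivity
      linarith
    · intro k
      rw [map_pow]
      exact (mem_arithGroup T _).1 (pow_mem (hmem 0).1 k)

end Pool.Agent.TH16.WC
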