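import Mathlib
import Pool.Agent.TH16.WC.NonAr

set_option autoImplicit false

/-! Assembly of the counterexample. -/

namespace Pool.Agent.TH16.WC

open Matrix

theorem exists_real (γ : GL (Fin 5) ℚ) (hγ : γ ∈ SOG ℚ) : ∃ γ' ∈ SOG ℝ, rmap γ' = cmap γ := by
  refine ⟨Matrix.GeneralLinearGroup.map (algebraMap ℚ ℝ) γ, ⟨?_, ?_⟩, ?_⟩
  · change (γ : Matrix (Fin 5) (Fin 5) ℚ).map (algebraMap ℚ ℝ) *
      ((γ : Matrix (Fin 5) (Fin 5) ℚ).map (algebraMap ℚ ℝ))ᵀ = 1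
    rw [← Matrix.transpose_map, ← Matrix.map_mul, hγ.1]; simp
  · have := RingHom.map_det (algebraMap ℚ ℝ) (γ : Matrix (Fin 5) (Fin 5) ℚ)
    rw [hγ.2, map_one] at this
    exact this.symm
  · apply Units.ext
    ext i j
    change (algebraMap ℝ ℂ) ((algebraMap ℚ ℝ) ((γ : Matrix (Fin 5) (Fin 5) ℚ) i j))
      = (algebraMap ℚ ℂ) ((γ : Matrix (Fin 5) (Fin 5) ℚ) i j)
    simp

theorem wc_rat (γ : GL (Fin 5) ℚ) (hγ : γ ∈ SOG ℚ) (N : ℕ) (hN : γ ^ N ≠ 1)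
    (g : GL (Fin 5) ℚ) (hg : g ∈ SOG ℚ) :
    WeaklyCommensurableElts (SOG ℂ) (SOG ℂ) (cmap γ) (cmap (g * γ ^ N * g⁻¹)) ∧
      IsSemisimpleElt (cmap (g * γ ^ N * g⁻¹)) := by
  obtain ⟨γ', hγ', he⟩ := exists_real γ hγ
  have hN' : (rmap γ') ^ N ≠ 1 := by
    rw [he, ← map_pow]
    intro h
    apply hN
    apply cmap_injective
    rw [h, map_one]
  have e : cmap (g * γ ^ N * g⁻¹) = cmap g * (rmap γ') ^ N * (cmap g)⁻¹ := by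
    rw [map_mul, map_mul, map_pow, map_inv, he]
  constructor
  · rw [e, ← he]
    exact wc_elts γ' hγ' N hN' (cmap g) (cmap_mem hg)
  · obtain ⟨P, -, hP⟩ := exists_torus γ' hγ'
    rw [e]
    exact isSemisimple_conj hP N (cmap g)

/-- **The counterexample.** -/
theorem exists_counterexample : ∃ (T : Triple (SOG ℂ)) (Γ₁ Γ₂ : Subgroup (GL (Fin 5) ℂ)),
    T.IsArithmetic Γ₁ ∧ T.SRankGE 2 ∧ ZariskiDense Γ₁ (SOG ℂ) ∧ ZariskiDense Γ₂ (SOG ℂ) ∧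
      WeaklyCommensurable (SOG ℂ) (SOG ℂ) Γ₁ Γ₂ ∧ ¬ IsSArithmetic (SOG ℂ) Γ₂ := by
  obtain ⟨Γ, hΓ, ht, hconj, n, m, hn, hm, hgen⟩ := exists_Gam2
  have hle1 : Gam1 ≤ SOG ℂ := by
    rintro _ ⟨γ, hγ, rfl⟩
    exact cmap_mem hγ.1
  have hle21 : Γ.map cmap ≤ Gam1 := Subgroup.map_mono hΓ
  have hd2 : ZariskiDense (Γ.map cmap) (SOG ℂ) := by
    refine ⟨hle21.trans hle1, dense_coord _ (hle21.trans hle1) n m (fun _ => 1) hn hm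
      (fun _ => one_pos) fun i => ?_⟩
    rw [pow_one]
    exact Subgroup.mem_map_of_mem cmap (hgen i)
  have hfin : ∀ γ : GL (Fin 5) ℚ, IsOfFinOrder (cmap γ) ↔ IsOfFinOrder γ := fun γ =>
    cmap_injective.isOfFinOrder_iff
  refine ⟨T1, Gam1, Γ.map cmap, T1_isArithmetic, T1_rank,
    ⟨hle1, fun P hP => hd2.2 P fun g hg => hP g (hle21 hg)⟩, hd2, ⟨?_, ?_⟩,
    not_arith Γ hΓ ht n m hn hm hgen⟩
  · rintro _ ⟨γ, hγ, rfl⟩ - hinf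
    rw [hfin] at hinf
    obtain ⟨g, hg, N, hN, hmem⟩ := hconj γ hγ hinf
    have hN1 : γ ^ N ≠ 1 := fun h => hinf (isOfFinOrder_iff_pow_eq_one.2 ⟨N, hN, h⟩)
    obtain ⟨h1, h2⟩ := wc_rat γ hγ.1 N hN1 g hg
    refine ⟨_, Subgroup.mem_map_of_mem cmap hmem, h2, ?_, h1⟩
    rw [hfin, isOfFinOrder_iff_pow_eq_one]
    rintro ⟨k, hk, hk1⟩
    rw [conj_pow, ← pow_mul] at hk1
    apply hinf
    rw [isOfFinOrder_iff_pow_eq_one]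
    refine ⟨N * k, Nat.mul_pos hN hk, ?_⟩
    calc γ ^ (N * k) = g⁻¹ * (g * γ ^ (N * k) * g⁻¹) * g := by group
      _ = 1 := by rw [hk1]; group
  · rintro _ ⟨γ, hγ, rfl⟩ hss hinf
    have hinf' := hinf
    rw [hfin] at hinf
    refine ⟨cmap γ, Subgroup.mem_map_of_mem cmap (hΓ hγ), hss, hinf', ?_⟩
    have hN1 : γ ^ 1 ≠ 1 := fun h => hinf (isOfFinOrder_iff_pow_eq_one.2 ⟨1, one_pos, h⟩)
    have h1 := (wc_rat γ (hΓ hγ).1 1 hN1 1 (one_mem _)).1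
    simpa using h1

end Pool.Agent.TH16.WC
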