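import Mathlib
import Pool.Agent.TH16.WC.Arith

set_option autoImplicit false
set_option linter.unusedSimpArgs false

/-! `SO₅(ℂ)` is connected, simple and has trivial center. -/

namespace Pool.Agent.TH16.WC

open Matrix

/-- half-turns -/
def HT (v : Fin 5 → ℂ) : Matrix (Fin 5) (Fin 5) ℂ := (2 : ℂ) • Matrix.vecMulVec v v - 1

theorem HT_mulVec (v z : Fin 5 → ℂ) : (HT v).mulVec z = (2 * (v ⬝ᵥ z)) • v - z := by
  rw [HT, Matrix.sub_mulVec, Matrix.one_mulVec, Matrix.smul_mulVec]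
  congr 1
  ext i
  simp only [Pi.smul_apply, smul_eq_mul, Matrix.mulVec, dotProduct, Matrix.vecMulVec_apply]
  rw [Finset.mul_sum, Finset.mul_sum, Finset.sum_mul]
  refine Finset.sum_congr rfl fun j _ => ?_
  ring

theorem HT_transpose (v : Fin 5 → ℂ) : (HT v)ᵀ = HT v := by
  ext i j
  simp only [HT, Matrix.transpose_apply, Matrix.sub_apply, Matrix.smul_apply,
    Matrix.vecMulVec_apply, smul_eq_mul, Matrix.one_apply, eq_comm]
  ring

theorem HT_sq {v : Fin 5 → ℂ} (hv : v ⬝ᵥ v = 1) : HT v * HT v = 1 := by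
  apply Matrix.ext_of_mulVec_single
  intro j
  rw [← Matrix.mulVec_mulVec, HT_mulVec, HT_mulVec, dotProduct_sub, dotProduct_smul, hv,
    Matrix.one_mulVec]
  simp only [smul_eq_mul]
  module

theorem HT_det {v : Fin 5 → ℂ} (hv : v ⬝ᵥ v = 1) : (HT v).det = 1 := by
  have e1 : HT v = -(1 + Matrix.replicateCol Unit ((-2 : ℂ) • v) * Matrix.replicateRow Unit v) := by
    ext i j
    simp only [HT, Matrix.sub_apply, Matrix.add_apply, Matrix.neg_apply, Matrix.smul_apply,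
      Matrix.vecMulVec_apply,
      smul_eq_mul, Matrix.mul_apply, Matrix.replicateCol_apply, Matrix.replicateRow_apply,
      Finset.univ_unique, Finset.sum_singleton, Pi.smul_apply]
    ring
  rw [e1, Matrix.det_neg, Matrix.det_one_add_replicateCol_mul_replicateRow, dotProduct_smul, hv]
  simp only [Fintype.card_fin]
  norm_num

/-- half-turns as group elements -/
def ht (v : Fin 5 → ℂ) (hv : v ⬝ᵥ v = 1) : GL (Fin 5) ℂ :=
  mkG (HT v) (by rw [HT_transpose]; exact HT_sq hv)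

theorem ht_mem (v : Fin 5 → ℂ) (hv : v ⬝ᵥ v = 1) : ht v hv ∈ SOG ℂ := mkG_mem _ _ (HT_det hv)

theorem ht_sq (v : Fin 5 → ℂ) (hv : v ⬝ᵥ v = 1) : ht v hv * ht v hv = 1 := by
  apply Units.ext
  exact HT_sq hv

theorem ht_inv (v : Fin 5 → ℂ) (hv : v ⬝ᵥ v = 1) : (ht v hv)⁻¹ = ht v hv :=
  inv_eq_of_mul_eq_one_right (ht_sq v hv)

theorem G_dot {g : GL (Fin 5) ℂ} (hg : g ∈ SOG ℂ) (x y : Fin 5 → ℂ) :
    (g : Matrix (Fin 5) (Fin 5) ℂ).mulVec x ⬝ᵥ (g : Matrix (Fin 5) (Fin 5) ℂ).mulVec y = x ⬝ᵥ y := by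
  rw [Matrix.dotProduct_mulVec, ← Matrix.mulVec_transpose, Matrix.mulVec_mulVec,
    mul_eq_one_comm.1 hg.1, Matrix.one_mulVec]

theorem ht_conj {g : GL (Fin 5) ℂ} (hg : g ∈ SOG ℂ) (v w : Fin 5 → ℂ) (hv : v ⬝ᵥ v = 1)
    (hw : w ⬝ᵥ w = 1) (hgv : (g : Matrix (Fin 5) (Fin 5) ℂ).mulVec v = w) :
    g * ht v hv * g⁻¹ = ht w hw := by
  rw [mul_inv_eq_iff_eq_mul]
  apply Units.ext
  apply Matrix.ext_of_mulVec_single
  intro j
  rw [Units.val_mul, Units.val_mul, ← Matrix.mulVec_mulVec, ← Matrix.mulVec_mulVec]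
  change (g : Matrix (Fin 5) (Fin 5) ℂ).mulVec ((HT v).mulVec (Pi.single j 1)) =
    (HT w).mulVec ((g : Matrix (Fin 5) (Fin 5) ℂ).mulVec (Pi.single j 1))
  rw [HT_mulVec, HT_mulVec, Matrix.mulVec_sub, Matrix.mulVec_smul, hgv, ← hgv, G_dot hg]

/-- transitivity on orthonormal pairs -/
theorem exists_pair (v p : Fin 5 → ℂ) (hv : v ⬝ᵥ v = 1) (hp : p ⬝ᵥ p = 1) (hvp : v ⬝ᵥ p = 0) :
    ∃ g ∈ SOG ℂ, (g : Matrix (Fin 5) (Fin 5) ℂ).mulVec v = Pi.single 0 1 ∧
      (g : Matrix (Fin 5) (Fin 5) ℂ).mulVec p = Pi.single 1 1 := by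
  obtain ⟨k1, hk1, h1⟩ := trans_unit 0 (by norm_num) _ v (fun i hi => absurd hi (by omega)) hv rfl
  have hk1' := rots_le_SOG 0 hk1
  set p' := (k1 : Matrix (Fin 5) (Fin 5) ℂ).mulVec p with hp'
  have hp1 : p' ⬝ᵥ p' = 1 := by rw [hp', G_dot hk1', hp]
  have hp0 : p' 0 = 0 := by
    have h2 := G_dot hk1' v p
    rw [h1, hvp, ← hp'] at h2
    simpa using h2
  obtain ⟨k2, hk2, h2⟩ := trans_unit 1 (by norm_num) _ p' (fun i hi => by
    have : i = 0 := by ext; simp; omega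
    rw [this]; exact hp0) hp1 rfl
  have hk2' := rots_le_SOG 1 hk2
  refine ⟨k2 * k1, mul_mem hk2' hk1', ?_, ?_⟩
  · rw [Units.val_mul, ← Matrix.mulVec_mulVec, h1]
    exact fix_of_mem 1 k2 hk2 0 (by norm_num)
  · rw [Units.val_mul, ← Matrix.mulVec_mulVec, ← hp', h2]
    rfl

theorem exists_pair_map (v p v' p' : Fin 5 → ℂ) (hv : v ⬝ᵥ v = 1) (hp : p ⬝ᵥ p = 1)
    (hvp : v ⬝ᵥ p = 0) (hv' : v' ⬝ᵥ v' = 1) (hp' : p' ⬝ᵥ p' = 1) (hvp' : v' ⬝ᵥ p' = 0) :
    ∃ g ∈ SOG ℂ, (g : Matrix (Fin 5) (Fin 5) ℂ).mulVec v = v' ∧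
      (g : Matrix (Fin 5) (Fin 5) ℂ).mulVec p = p' := by
  obtain ⟨g1, h1, h1v, h1p⟩ := exists_pair v p hv hp hvp
  obtain ⟨g2, h2, h2v, h2p⟩ := exists_pair v' p' hv' hp' hvp'
  have key : ∀ x : Fin 5 → ℂ, ((g2⁻¹ : GL (Fin 5) ℂ) : Matrix (Fin 5) (Fin 5) ℂ).mulVec
      ((g2 : Matrix (Fin 5) (Fin 5) ℂ).mulVec x) = x := by
    intro x
    rw [Matrix.mulVec_mulVec, ← Units.val_mul, inv_mul_cancel, Units.val_one, Matrix.one_mulVec]
  refine ⟨g2⁻¹ * g1, mul_mem (inv_mem h2) h1, ?_, ?_⟩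
  · rw [Units.val_mul, ← Matrix.mulVec_mulVec, h1v, ← h2v, key]
  · rw [Units.val_mul, ← Matrix.mulVec_mulVec, h1p, ← h2p, key]

/-- rotations are products of two half-turns -/
theorem rot_eq {a b : Fin 5} (hab : a ≠ b) (z : ℂ)
    (hu : (Complex.cos (z / 2) • Pi.single a 1 + Complex.sin (z / 2) • Pi.single b 1 : Fin 5 → ℂ) ⬝ᵥ
      (Complex.cos (z / 2) • Pi.single a 1 + Complex.sin (z / 2) • Pi.single b 1 : Fin 5 → ℂ) = 1)
    (ha : (Pi.single a 1 : Fin 5 → ℂ) ⬝ᵥ Pi.single a 1 = 1) :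
    rot hab z = ht _ hu * ht _ ha := by
  apply Units.ext
  apply Matrix.ext_of_mulVec_single
  intro j
  rw [Units.val_mul, ← Matrix.mulVec_mulVec]
  change _ = (HT _).mulVec ((HT _).mulVec (Pi.single j 1))
  rw [HT_mulVec, HT_mulVec, rot_coe, rotM_mulVec]
  have hc : Complex.cos z = 2 * Complex.cos (z / 2) ^ 2 - 1 := by
    rw [← Complex.cos_two_mul]; congr 1; ring
  have hs : Complex.sin z = 2 * Complex.sin (z / 2) * Complex.cos (z / 2) := by
    rw [← Complex.sin_two_mul]; congr 1; ring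
  have hcs := Complex.sin_sq_add_cos_sq (z / 2)
  set c := Complex.cos (z / 2)
  set s := Complex.sin (z / 2)
  rw [hc, hs]
  simp only [add_dotProduct, smul_dotProduct, single_one_dotProduct, smul_eq_mul, Pi.sub_apply,
    Pi.smul_apply, Pi.add_apply]
  by_cases hja : j = a
  · subst hja
    ext i
    by_cases hij : i = j
    · subst hij; simp [hab, hab.symm]; ring
    · by_cases hib : i = b
      · subst hib; simp [hij, Ne.symm hij]; ring
      · simp [hij, hib, Ne.symm hij, Ne.symm hib, hab, hab.symm]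
  · by_cases hjb : j = b
    · subst hjb
      ext i
      by_cases hij : i = j
      · subst hij; simp [hja, Ne.symm hja]; linear_combination 2 * hcs
      · by_cases hia : i = a
        · subst hia; simp [hij, Ne.symm hij]
        · simp [hij, hia, Ne.symm hij, Ne.symm hia, hab, hab.symm]
    · ext i
      by_cases hia : i = a
      · subst hia; simp [hja, hjb, Ne.symm hja, Ne.symm hjb, hab, hab.symm]
      · by_cases hib : i = b
        · subst hib; simp [hja, hjb, Ne.symm hja, Ne.symm hjb, hab, hab.symm]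
        · simp [hja, hjb, Ne.symm hja, Ne.symm hjb, hia, hib]

section normal

variable (N : Subgroup (GL (Fin 5) ℂ)) (hN : N ≤ SOG ℂ)
  (hconj : ∀ g ∈ SOG ℂ, ∀ x ∈ N, g * x * g⁻¹ ∈ N)

include hN hconj

/-- a nontrivial normal subgroup contains an element moving some vector nondegenerately -/
theorem exists_moved (hne : ∃ x ∈ N, x ≠ 1) : ∃ x ∈ N, ∃ v : Fin 5 → ℂ, v ⬝ᵥ v = 1 ∧
    (v ⬝ᵥ (x : Matrix (Fin 5) (Fin 5) ℂ).mulVec v) ^ 2 ≠ 1 := by
  by_contra hcon
  push Not at hcon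
  obtain ⟨x, hx, hx1⟩ := hne
  set M : Matrix (Fin 5) (Fin 5) ℂ := (x : Matrix (Fin 5) (Fin 5) ℂ) with hM
  have hdot : ∀ i j : Fin 5, (Pi.single i 1 : Fin 5 → ℂ) ⬝ᵥ M.mulVec (Pi.single j 1) = M i j := by
    intro i j
    rw [Matrix.mulVec_single_one, single_one_dotProduct, Matrix.col_apply]
  have hd : ∀ i, M i i ^ 2 = 1 := by
    intro i
    have := hcon x hx (Pi.single i 1) (by simp)
    rwa [hdot] at this
  have hoff : ∀ i j, i ≠ j → M i j + M j i = 0 ∧ M i i = M j j := by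
    intro i j hij
    have e1 : ∀ c s : ℂ, (c • Pi.single i 1 + s • Pi.single j 1 : Fin 5 → ℂ) ⬝ᵥ
        (c • Pi.single i 1 + s • Pi.single j 1 : Fin 5 → ℂ) = c ^ 2 + s ^ 2 := by
      intro c s
      simp [dotProduct_add, add_dotProduct, hij, Ne.symm hij]
      ring
    have e2 : ∀ c s : ℂ, (c • Pi.single i 1 + s • Pi.single j 1 : Fin 5 → ℂ) ⬝ᵥ
        M.mulVec (c • Pi.single i 1 + s • Pi.single j 1 : Fin 5 → ℂ) =
        c ^ 2 * M i i + s ^ 2 * M j j + c * s * (M i j + M j i) := by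
      intro c s
      rw [Matrix.mulVec_add, Matrix.mulVec_smul, Matrix.mulVec_smul]
      simp only [dotProduct_add, add_dotProduct, smul_dotProduct, dotProduct_smul, hdot,
        smul_eq_mul]
      ring
    have h1 := hcon x hx _ (by rw [e1 (3 / 5) (4 / 5)]; norm_num)
    have h2 := hcon x hx _ (by rw [e1 (3 / 5) (-(4 / 5))]; norm_num)
    rw [← hM, e2] at h1 h2
    have hi := hd i
    have hj := hd j
    set p := M i i
    set r' := M j j
    set τ := M i j + M j i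
    have h3 : (9 * p + 16 * r') * τ = 0 := by
      linear_combination (625 / 48 : ℂ) * h1 - (625 / 48 : ℂ) * h2
    have hpr : p = r' ∨ p = -r' := sq_eq_sq_iff_eq_or_eq_neg.1 (hi.trans hj.symm)
    have hr0 : r' ≠ 0 := by rintro h; rw [h] at hj; norm_num at hj
    have hτ : τ = 0 := by
      rcases mul_eq_zero.1 h3 with h | h
      · exfalso
        rcases hpr with h' | h'
        · rw [h'] at h
          have : r' * 25 = 0 := by linear_combination h
          exact hr0 ((mul_eq_zero.1 this).resolve_right (by norm_num))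
        · rw [h'] at h
          have : r' * 7 = 0 := by linear_combination h
          exact hr0 ((mul_eq_zero.1 this).resolve_right (by norm_num))
      · exact h
    refine ⟨hτ, ?_⟩
    rcases hpr with h' | h'
    · exact h'
    · exfalso
      rw [hτ, h'] at h1
      have h4 : r' ^ 2 * 49 = 625 := by linear_combination 625 * h1
      rw [hj] at h4
      norm_num at h4
  set ε := M 0 0 with hε
  have hε2 : ε ^ 2 = 1 := hd 0
  have hdiag : ∀ i, M i i = ε := by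
    intro i
    by_cases h : i = 0
    · rw [h]
    · exact (hoff i 0 h).2
  have hMT : Mᵀ = (2 * ε) • (1 : Matrix (Fin 5) (Fin 5) ℂ) - M := by
    ext i j
    rw [Matrix.transpose_apply, Matrix.sub_apply, Matrix.smul_apply, smul_eq_mul]
    by_cases hij : i = j
    · subst hij; rw [hdiag, Matrix.one_apply_eq]; ring
    · rw [Matrix.one_apply_ne hij]; linear_combination (hoff i j hij).1
  -- find a moved basis vector
  have hex : ∃ i, M.mulVec (Pi.single i 1) - ε • Pi.single i 1 ≠ 0 := by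
    by_contra hcon2
    push Not at hcon2
    have hMe : M = ε • (1 : Matrix (Fin 5) (Fin 5) ℂ) := by
      apply Matrix.ext_of_mulVec_single
      intro i
      rw [Matrix.smul_mulVec, Matrix.one_mulVec]
      exact sub_eq_zero.1 (hcon2 i)
    have hdet := (hN hx).2
    rw [← hM, hMe, Matrix.det_smul, Matrix.det_one, mul_one, Fintype.card_fin] at hdet
    have hε1 : ε = 1 := by linear_combination hdet - (ε ^ 3 + ε) * hε2
    apply hx1
    apply Units.ext
    rw [← hM, hMe, hε1, one_smul, Units.val_one]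
  obtain ⟨i, hi⟩ := hex
  set v : Fin 5 → ℂ := Pi.single i 1 with hv
  set u : Fin 5 → ℂ := M.mulVec v with hu
  set w : Fin 5 → ℂ := u - ε • v with hw
  have hvv : v ⬝ᵥ v = 1 := by rw [hv]; simp
  have huu : u ⬝ᵥ u = 1 := by rw [hu, G_dot (hN hx), hvv]
  have hvu : v ⬝ᵥ u = ε := by rw [hu, hv, hdot, hdiag]
  have hww : w ⬝ᵥ w = 0 := by
    rw [hw, sub_dotProduct, dotProduct_sub, dotProduct_sub, huu, smul_dotProduct, dotProduct_smul,
      dotProduct_comm u v, hvu, smul_dotProduct, dotProduct_smul, hvv]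
    simp only [smul_eq_mul]
    linear_combination -hε2
  -- the commutator
  have hy : ht u huu * ht v hvv ∈ N := by
    have h1 : x * ht v hvv * x⁻¹ = ht u huu := ht_conj (hN hx) v u hvv huu rfl
    have h2 := mul_mem hx (hconj (ht v hvv) (ht_mem v hvv) x⁻¹ (inv_mem hx))
    have h3 : x * (ht v hvv * x⁻¹ * (ht v hvv)⁻¹) = ht u huu * ht v hvv := by
      rw [← h1, ht_inv]; group
    rw [h3] at h2
    exact h2
  have hk : ∀ k : Fin 5, w k ^ 2 = 0 ∨ w k ^ 2 = 1 := by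
    intro k
    have h1 := hcon _ hy (Pi.single k 1) (by simp)
    have h2 : (Pi.single k 1 : Fin 5 → ℂ) ⬝ᵥ ((ht u huu * ht v hvv : GL (Fin 5) ℂ) :
        Matrix (Fin 5) (Fin 5) ℂ).mulVec (Pi.single k 1) = 1 - 2 * w k ^ 2 := by
      rw [Units.val_mul, ← Matrix.mulVec_mulVec]
      change (Pi.single k 1 : Fin 5 → ℂ) ⬝ᵥ (HT u).mulVec ((HT v).mulVec (Pi.single k 1)) = _
      rw [HT_mulVec, HT_mulVec, dotProduct_sub, dotProduct_sub, dotProduct_smul, dotProduct_smul,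
        dotProduct_sub, dotProduct_smul, dotProduct_comm u v, hvu]
      have h3 : ∀ z : Fin 5 → ℂ, z ⬝ᵥ (Pi.single k 1 : Fin 5 → ℂ) = z k := by
        intro z; rw [dotProduct_single_one]
      have h4 : ∀ z : Fin 5 → ℂ, (Pi.single k 1 : Fin 5 → ℂ) ⬝ᵥ z = z k := by
        intro z; rw [single_one_dotProduct]
      rw [h3, h3, h4, h4, h4]
      have h5 : w k = u k - ε * v k := by rw [hw]; simp
      rw [h5, Pi.single_eq_same]
      simp only [smul_eq_mul]
      linear_combination (2 * v k ^ 2) * hε2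
    rw [h2] at h1
    have h3 : w k ^ 2 * (w k ^ 2 - 1) = 0 := by linear_combination (1 / 4 : ℂ) * h1
    rcases mul_eq_zero.1 h3 with h | h
    · exact Or.inl h
    · exact Or.inr (sub_eq_zero.1 h)
  -- the sum of the squares is a positive integer
  have hsum : ∑ k, w k ^ 2 = 0 := by
    rw [← hww, dotProduct]
    exact Finset.sum_congr rfl fun k _ => sq (w k)
  have hcount : ∑ k, w k ^ 2 = ((Finset.univ.filter fun k => w k ≠ 0).card : ℂ) := by
    rw [Finset.card_filter]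
    push_cast
    refine Finset.sum_congr rfl fun k _ => ?_
    by_cases h0 : w k = 0
    · simp [h0]
    · rw [if_pos h0]
      rcases hk k with h | h
      · exact absurd (pow_eq_zero_iff (two_ne_zero) |>.1 h) h0
      · exact h
  rw [hcount] at hsum
  have hcard : (Finset.univ.filter fun k => w k ≠ 0).card = 0 := by exact_mod_cast hsum
  rw [Finset.card_eq_zero] at hcard
  apply hi
  ext k
  by_contra hk0
  have : k ∈ Finset.univ.filter fun k => w k ≠ 0 := by simpa using hk0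
  rw [hcard] at this
  simp at this

theorem eq_top_of_normal (hne : ∃ x ∈ N, x ≠ 1) : N = SOG ℂ := by
  obtain ⟨x, hx, v, hvv, hc⟩ := exists_moved N hN hconj hne
  set u : Fin 5 → ℂ := (x : Matrix (Fin 5) (Fin 5) ℂ).mulVec v with hu
  set c := v ⬝ᵥ u with hcdef
  have huu : u ⬝ᵥ u = 1 := by rw [hu, G_dot (hN hx), hvv]
  obtain ⟨s, hs⟩ := IsAlgClosed.exists_pow_nat_eq (1 - c ^ 2) (n := 2) (by norm_num)
  have hs0 : s ≠ 0 := by
    rintro rfl; apply hc
    rw [zero_pow two_ne_zero] at hs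
    exact (sub_eq_zero.1 hs.symm).symm
  have hy : ht u huu * ht v hvv ∈ N := by
    have h1 : x * ht v hvv * x⁻¹ = ht u huu := ht_conj (hN hx) v u hvv huu rfl
    have h2 := mul_mem hx (hconj (ht v hvv) (ht_mem v hvv) x⁻¹ (inv_mem hx))
    have h3 : x * (ht v hvv * x⁻¹ * (ht v hvv)⁻¹) = ht u huu * ht v hvv := by
      rw [← h1, ht_inv]; group
    rw [h3] at h2
    exact h2
  set p : Fin 5 → ℂ := s⁻¹ • (u - c • v) with hp
  have hvp : v ⬝ᵥ p = 0 := by
    rw [hp, dotProduct_smul, dotProduct_sub, dotProduct_smul, hvv, ← hcdef]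
    simp
  have hpp : p ⬝ᵥ p = 1 := by
    rw [hp, smul_dotProduct, dotProduct_smul, sub_dotProduct, dotProduct_sub, dotProduct_sub, huu,
      smul_dotProduct, smul_dotProduct, dotProduct_smul, dotProduct_smul, dotProduct_comm u v,
      ← hcdef, hvv]
    simp only [smul_eq_mul]
    field_simp
    linear_combination -hs
  have hup : u = c • v + s • p := by
    rw [hp, smul_smul, mul_inv_cancel₀ hs0, one_smul]; abel
  -- the basic family
  have hfam : ∀ (v' p' : Fin 5 → ℂ) (hv' : v' ⬝ᵥ v' = 1) (_ : p' ⬝ᵥ p' = 1) (_ : v' ⬝ᵥ p' = 0)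
      (hu' : (c • v' + s • p') ⬝ᵥ (c • v' + s • p') = 1), ht _ hu' * ht v' hv' ∈ N := by
    intro v' p' hv' hp' hvp' hu'
    obtain ⟨g, hg, h1, h2⟩ := exists_pair_map v p v' p' hvv hpp hvp hv' hp' hvp'
    have h3 := hconj g hg _ hy
    have h4 : g * (ht u huu * ht v hvv) * g⁻¹ = (g * ht u huu * g⁻¹) * (g * ht v hvv * g⁻¹) := by
      group
    rw [h4, ht_conj hg v v' hvv hv' h1, ht_conj hg u (c • v' + s • p') huu hu' (by
      rw [hup, Matrix.mulVec_add, Matrix.mulVec_smul, Matrix.mulVec_smul, h1, h2])] at h3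
    exact h3
  -- an orthonormal pair
  obtain ⟨β, hβ⟩ := IsAlgClosed.exists_pow_nat_eq (1 - (c ^ 2 / s ^ 2) ^ 2) (n := 2) (by norm_num)
  set α : ℂ := -(c ^ 2 / s ^ 2) with hα
  have hαβ : α ^ 2 + β ^ 2 = 1 := by rw [hβ, hα]; ring
  set f0 : Fin 5 → ℂ := Pi.single 0 1 with hf0
  set f1 : Fin 5 → ℂ := Pi.single 1 1 with hf1
  set f2 : Fin 5 → ℂ := Pi.single 2 1 with hf2
  have d00 : f0 ⬝ᵥ f0 = 1 := by simp [f0]
  have d11 : f1 ⬝ᵥ f1 = 1 := by simp [f1]
  have d22 : f2 ⬝ᵥ f2 = 1 := by simp [f2]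
  have d01 : f0 ⬝ᵥ f1 = 0 := by simp [f0, f1]
  have d02 : f0 ⬝ᵥ f2 = 0 := by simp [f0, f2]
  have d12 : f1 ⬝ᵥ f2 = 0 := by simp [f1, f2]
  have d21 : f2 ⬝ᵥ f1 = 0 := by simp [f1, f2]
  set q : Fin 5 → ℂ := α • f1 + β • f2 with hq
  have hqq : q ⬝ᵥ q = 1 := by
    rw [hq]
    simp only [add_dotProduct, dotProduct_add, smul_dotProduct, dotProduct_smul, d11, d22, d12, d21,
      smul_eq_mul]
    linear_combination hαβ
  have hq0 : f0 ⬝ᵥ q = 0 := by
    rw [hq, dotProduct_add, dotProduct_smul, dotProduct_smul, d01, d02]; simp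
  have hunit : ∀ p' : Fin 5 → ℂ, p' ⬝ᵥ p' = 1 → f0 ⬝ᵥ p' = 0 →
      (c • f0 + s • p') ⬝ᵥ (c • f0 + s • p') = 1 := by
    intro p' h1 h2
    simp only [add_dotProduct, dotProduct_add, smul_dotProduct, dotProduct_smul, d00, h1, h2,
      dotProduct_comm p' f0, smul_eq_mul]
    linear_combination hs
  have ha := hunit f1 d11 d01
  have hb := hunit q hqq hq0
  set a : Fin 5 → ℂ := c • f0 + s • f1 with hadef
  set b : Fin 5 → ℂ := c • f0 + s • q with hbdef
  have hab : a ⬝ᵥ b = 0 := by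
    rw [hadef, hbdef]
    have h1 : f1 ⬝ᵥ q = α := by
      rw [hq, dotProduct_add, dotProduct_smul, dotProduct_smul, d11, d12]; simp
    have h2 : f1 ⬝ᵥ f0 = 0 := by rw [dotProduct_comm]; exact d01
    simp only [add_dotProduct, dotProduct_add, smul_dotProduct, dotProduct_smul, d00, h1, h2, hq0,
      smul_eq_mul]
    rw [hα]
    field_simp
    ring
  have hmemab : ht a ha * ht b hb ∈ N := by
    have h1 := hfam f0 f1 d00 d11 d01 ha
    have h2 := hfam f0 q d00 hqq hq0 hb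
    have h3 := mul_mem h1 (inv_mem h2)
    rw [_root_.mul_inv_rev, ht_inv, ht_inv] at h3
    have h4 : ht a ha * ht f0 d00 * (ht f0 d00 * ht b hb) = ht a ha * ht b hb := by
      calc ht a ha * ht f0 d00 * (ht f0 d00 * ht b hb)
          = ht a ha * (ht f0 d00 * ht f0 d00) * ht b hb := by group
        _ = _ := by rw [ht_sq, mul_one]
    rw [h4] at h3
    exact h3
  have horth : ∀ (a' b' : Fin 5 → ℂ) (ha' : a' ⬝ᵥ a' = 1) (hb' : b' ⬝ᵥ b' = 1) (_ : a' ⬝ᵥ b' = 0),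
      ht a' ha' * ht b' hb' ∈ N := by
    intro a' b' ha' hb' hab'
    obtain ⟨g, hg, h1, h2⟩ := exists_pair_map a b a' b' ha hb hab ha' hb' hab'
    have h3 := hconj g hg _ hmemab
    have h4 : g * (ht a ha * ht b hb) * g⁻¹ = (g * ht a ha * g⁻¹) * (g * ht b hb * g⁻¹) := by
      group
    rw [h4, ht_conj hg a a' ha ha' h1, ht_conj hg b b' hb hb' h2] at h3
    exact h3
  -- all rotations
  apply le_antisymm hN
  rw [← closure_rots, Subgroup.closure_le]
  rintro _ ⟨i, j, hij, z, -, -, rfl⟩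
  obtain ⟨k, hki, hkj⟩ : ∃ k : Fin 5, k ≠ i ∧ k ≠ j := by
    fin_cases i <;> fin_cases j <;> decide
  have hcs := Complex.sin_sq_add_cos_sq (z / 2)
  have hi1 : (Pi.single i 1 : Fin 5 → ℂ) ⬝ᵥ Pi.single i 1 = 1 := by simp
  have hk1 : (Pi.single k 1 : Fin 5 → ℂ) ⬝ᵥ Pi.single k 1 = 1 := by simp
  have hu1 : (Complex.cos (z / 2) • Pi.single i 1 + Complex.sin (z / 2) • Pi.single j 1 :
      Fin 5 → ℂ) ⬝ᵥ (Complex.cos (z / 2) • Pi.single i 1 + Complex.sin (z / 2) • Pi.single j 1 :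
      Fin 5 → ℂ) = 1 := by
    simp [add_dotProduct, dotProduct_add, hij, Ne.symm hij]
    linear_combination hcs
  rw [rot_eq hij z hu1 hi1]
  have h1 := horth _ _ hu1 hk1 (by simp [add_dotProduct, hki, hkj, Ne.symm hki, Ne.symm hkj])
  have h2 := horth _ _ hk1 hi1 (by simp [hki])
  have h3 := mul_mem h1 h2
  have h4 : ht _ hu1 * ht _ hk1 * (ht _ hk1 * ht _ hi1) = ht _ hu1 * ht _ hi1 := by
    calc ht _ hu1 * ht _ hk1 * (ht _ hk1 * ht _ hi1)
        = ht _ hu1 * (ht _ hk1 * ht _ hk1) * ht _ hi1 := by group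
      _ = _ := by rw [ht_sq, mul_one]
  rw [h4] at h3
  exact h3

end normal

theorem SO5_closed : IsZariskiClosed (SOG ℂ) := by
  refine ⟨{P | ∃ Q ∈ eqSO, P = MvPolynomial.map (algebraMap ℚ ℂ) Q}, fun g => ?_⟩
  rw [← eqSO_iff g]
  constructor
  · rintro h _ ⟨Q, hQ, rfl⟩
    rw [MvPolynomial.aeval_map_algebraMap]
    exact h Q hQ
  · intro h Q hQ
    have := h _ ⟨Q, hQ, rfl⟩
    rwa [MvPolynomial.aeval_map_algebraMap] at this

theorem rot_nsmul {a b : Fin 5} (hab : a ≠ b) (z : ℂ) (n : ℕ) :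
    (rot hab z) ^ n = rot hab (n * z) := by
  induction n with
  | zero => rw [pow_zero, Nat.cast_zero, zero_mul, rot_zero]
  | succ n ih => rw [pow_succ, ih, rot_mul]; congr 1; push_cast; ring

theorem SO5_connected (H : Subgroup (GL (Fin 5) ℂ)) (hH : H ≤ SOG ℂ) (hidx : H.relIndex (SOG ℂ) ≠ 0) :
    H = SOG ℂ := by
  apply le_antisymm hH
  rw [← closure_rots, Subgroup.closure_le]
  rintro _ ⟨i, j, hij, z, -, -, rfl⟩
  set n := (H.relIndex (SOG ℂ)).factorial with hn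
  have hn0 : (n : ℂ) ≠ 0 := by exact_mod_cast (Nat.factorial_pos _).ne'
  have h1 := Subgroup.pow_mem_of_relIndex_ne_zero_of_dvd hidx (rot_mem hij (z / n)) (n := n)
    (fun m hm hm' => Nat.dvd_factorial hm hm')
  rw [rot_nsmul, mul_div_cancel₀ _ hn0] at h1
  exact h1.1

theorem SO5_noncomm : ∃ g ∈ SOG ℂ, ∃ h ∈ SOG ℂ, g * h ≠ h * g := by
  refine ⟨rot (by decide : (0 : Fin 5) ≠ 1) (Real.pi / 2), rot_mem _ _,
    rot (by decide : (1 : Fin 5) ≠ 2) (Real.pi / 2), rot_mem _ _, fun h => ?_⟩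
  have h1 := congrArg (fun g : GL (Fin 5) ℂ =>
    (g : Matrix (Fin 5) (Fin 5) ℂ).mulVec (Pi.single 0 1) 1) h
  simp only [Units.val_mul, ← Matrix.mulVec_mulVec, rot_coe, rotM_mulVec] at h1
  simp at h1

/-- **`SO₅(ℂ)` is a connected almost simple algebraic group.** -/
theorem SO5_almostSimple : IsConnectedAlmostSimple (SOG ℂ) := by
  refine ⟨SO5_closed, fun H _ => SO5_connected H, SO5_noncomm, fun N _ hN hconj hne => ?_⟩
  by_cases h : ∃ x ∈ N, x ≠ 1
  · exact absurd (eq_top_of_normal N hN hconj h) hne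
  · push Not at h
    have : N = ⊥ := (Subgroup.eq_bot_iff_forall N).2 h
    rw [this]
    infer_instance

/-- The center of `SO₅(ℂ)` is trivial. -/
theorem SO5_center (z : GL (Fin 5) ℂ) (hz : z ∈ SOG ℂ) (h : ∀ g ∈ SOG ℂ, z * g = g * z) :
    z = 1 := by
  let Z : Subgroup (GL (Fin 5) ℂ) :=
    { carrier := {z | z ∈ SOG ℂ ∧ ∀ g ∈ SOG ℂ, z * g = g * z}
      mul_mem' := by
        rintro a b ⟨ha, ha'⟩ ⟨hb, hb'⟩
        refine ⟨mul_mem ha hb, fun g hg => ?_⟩
        rw [mul_assoc, hb' g hg, ← mul_assoc, ha' g hg, mul_assoc]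
      one_mem' := ⟨one_mem _, fun g _ => by rw [one_mul, mul_one]⟩
      inv_mem' := by
        rintro a ⟨ha, ha'⟩
        refine ⟨inv_mem ha, fun g hg => ?_⟩
        rw [inv_mul_eq_iff_eq_mul, ← mul_assoc, ha' g hg, mul_assoc, mul_inv_cancel, mul_one] }
  by_contra hne
  have h1 : Z = SOG ℂ := eq_top_of_normal Z (fun x hx => hx.1) (by
    rintro g hg x ⟨hx, hx'⟩
    have : g * x * g⁻¹ = x := by rw [← hx' g hg, mul_assoc, mul_inv_cancel, mul_one]
    rw [this]
    exact ⟨hx, hx'⟩) ⟨z, ⟨hz, h⟩, hne⟩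
  obtain ⟨a, ha, b, hb, hab⟩ := SO5_noncomm
  rw [← h1] at ha
  exact hab (ha.2 b hb)

end Pool.Agent.TH16.WC
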